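import Pool.Agent.H87.QK.ScL

/-!
# Module Blk: blocks

If all edges of the nodup list `L` are edges of the nodup list `P` then `L` or its reverse is a contiguous block of
`P`. Induction on `L`. `L = [x]`: `x ∈ P` (`List.append_of_mem`). `L = x :: y :: s`: by induction `y :: s` or
`(y :: s).reverse` is a block. Suppose `P = a ++ (y :: s) ++ b`. `Ed P x y`: `x` is the predecessor or the successor of `y`. If
`s = z :: s'` then the successor of `y` is `z ≠ x`, so `x` is the predecessor, it is the last element of `a`, and
`x :: y :: s` is a block. If `s = []`: `[x, y]` or `[y, x] = [x, y].reverse` is a block. The reversed case: apply this to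
`P.reverse` (`List.reverse_infix`, `ed_reverse`).
-/

set_option autoImplicit false

open Finset

namespace Pool.Agent.H87.QK

variable {V : Type*}

private theorem Blk_aux {P : List V} (h : P.Nodup) {x y : V} {s : List V}
    (hL : (x :: y :: s).Nodup) (hed : Ed P x y) (hb : y :: s <:+: P) :
    x :: y :: s <:+: P ∨ (x :: y :: s).reverse <:+: P := by
  obtain ⟨a, b, hab⟩ := hb
  have hP : P = a ++ y :: (s ++ b) := by rw [← hab]; simp
  rcases hed with h1 | h1
  · obtain ⟨a', b', hab'⟩ := sc_iff.1 h1
    have hP' : P = (a' ++ [x]) ++ y :: b' := by rw [hab']; simp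
    obtain ⟨e1, e2⟩ := split_unique h hP hP'
    left
    refine ⟨a', b, ?_⟩
    rw [hP, e1]
    simp
  · obtain ⟨a', b', hab'⟩ := sc_iff.1 h1
    obtain ⟨e1, e2⟩ := split_unique h hP hab'
    cases s with
    | cons z s' =>
      exfalso
      have hz : z = x := by
        have := congrArg List.head? e2
        simpa using this
      subst hz
      exact (List.nodup_cons.1 hL).1 (by simp)
    | nil =>
      right
      refine ⟨a, b', ?_⟩
      have e3 : b = x :: b' := by simpa using e2
      rw [hP, e3]
      simp

theorem block {P L : List V} (h : P.Nodup) (hL : L.Nodup) (hne : L ≠ [])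
    (hm : ∀ v ∈ L, v ∈ P) (hE : ∀ a b, Sc L a b → Ed P a b) :
    L <:+: P ∨ L.reverse <:+: P := by
  induction L with
  | nil => exact absurd rfl hne
  | cons x L ih =>
    cases L with
    | nil =>
      obtain ⟨s, t, hst⟩ := List.append_of_mem (hm x (by simp))
      exact Or.inl ⟨s, t, by simp [hst]⟩
    | cons y s =>
      have hL' : (y :: s).Nodup := (List.nodup_cons.1 hL).2
      have hE' : ∀ a b, Sc (y :: s) a b → Ed P a b := fun a b hab =>
        hE a b (List.IsInfix.trans hab (List.suffix_cons x (y :: s)).isInfix)
      have hed : Ed P x y := hE x y ⟨[], s, by simp⟩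
      rcases ih hL' (by simp) (fun v hv => hm v (List.mem_cons_of_mem _ hv)) hE' with hb | hb
      · exact Blk_aux h hL hed hb
      · have hb' : y :: s <:+: P.reverse := by
          have := List.reverse_infix.2 hb
          rwa [List.reverse_reverse] at this
        have hPr : P.reverse.Nodup := List.nodup_reverse.2 h
        rcases Blk_aux hPr hL (ed_reverse.2 hed) hb' with h1 | h1
        · right
          have := List.reverse_infix.2 h1
          rwa [List.reverse_reverse] at this
        · left
          exact List.reverse_infix.1 h1

end Pool.Agent.H87.QK
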