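import Pool.Agent.H87.QK.HLM

/-!
# Module CntI: the basic inequality

`P` has head `v` and last vertex `x` (`P` is not empty because `V` is not), `j = lev π P`. Put
`X = {p : Ch p x}`, `Y = {p : exists q, Sc P p q and Ch q v}`, `D = {p : exists q, Sc P p q and not Hd p q}`.
* `|X| ≥ k - 2`: the neighbours of `x` which are not chords lie in `{π x, π⁻¹ x}`. Every `p` in `X` is
  different from `x`, so it has a successor (`exists_succ`).
* `|Y| ≥ k - 2`: the map successor is a bijection from `Y` to `{q : Ch q v}` (every `q ≠ v` has a predecessor,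
  `exists_pred`; `sc_left_unique`, `sc_right_unique`): injection of `{q : Ch q v}` into `Y`.
* `|D| = j` (`lev_card`).
* `X \ D = Fx P` (chord `p x`, successor `q` with `Hd p q`); `Y \ D` is mapped by successor bijectively onto
  `Fx P.reverse` (`sc_reverse`, head and last of the reversed list), so `|Y \ D| ≤ |Fx P.reverse|`.
* `X ∩ Y ∩ D = AB P` (a successor pair of `P` is an edge of `G`, so `not Hd` means chord).
* `|X| + |Y| = |X \ D| + |Y \ D| + |X ∩ D| + |Y ∩ D|` and `|X ∩ D| + |Y ∩ D| ≤ |D| + |X ∩ Y ∩ D|`.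
-/

set_option autoImplicit false

open Finset

namespace Pool.Agent.H87.QK

variable {V : Type*} [Fintype V] [DecidableEq V]

omit [Fintype V] [DecidableEq V] in
private theorem CntI_adj {G : SimpleGraph V} {P : List V} (h : P.IsChain G.Adj) {p q : V}
    (hs : Sc P p q) : G.Adj p q := by
  obtain ⟨a, b, e⟩ := sc_iff.1 hs
  rw [e, List.isChain_append] at h
  exact (List.isChain_cons_cons.1 h.2.1).1

omit [Fintype V] [DecidableEq V] in
private theorem CntI_asymm {P : List V} (h : P.Nodup) {p q : V} (h1 : Sc P p q) : ¬ Sc P q p := by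
  intro h2
  obtain ⟨a, b, e⟩ := sc_iff.1 h1
  obtain ⟨a', b', e'⟩ := sc_iff.1 h2
  have e'' : P = (a' ++ [q]) ++ p :: b' := by rw [e']; simp
  obtain ⟨ha, -⟩ := split_unique h e e''
  rw [e, ha] at h
  simp [List.nodup_append] at h

open Classical in
theorem count_ineq [Nonempty V] {G : SimpleGraph V} {π : Equiv.Perm V} {P : List V} {k : ℕ}
    (hP : HL G P) (hk : ∀ u : V, k ≤ (univ.filter (fun w => G.Adj u w)).card) :
    2 * k ≤ 4 + lev π P + (Fx G π P).card + (Fx G π P.reverse).card + (AB G π P).card := by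
  obtain ⟨u₀⟩ := ‹Nonempty V›
  have hne : P ≠ [] := List.ne_nil_of_mem (hP.all u₀)
  obtain ⟨v, hv⟩ : ∃ v, P.head? = some v := ⟨P.head hne, List.head?_eq_some_head hne⟩
  obtain ⟨x, hx⟩ : ∃ x, P.getLast? = some x := ⟨P.getLast hne, List.getLast?_eq_some_getLast hne⟩
  have hs0 : ∀ p, ∃ q', (∃ q, Sc P p q) → Sc P p q' := fun p => by
    by_cases h : ∃ q, Sc P p q
    · exact ⟨h.choose, fun _ => h.choose_spec⟩
    · exact ⟨p, fun h' => absurd h' h⟩
  choose s hs using hs0
  set X : Finset V := univ.filter (fun p => Ch G π p x) with hX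
  set Y : Finset V := univ.filter (fun p => ∃ q, Sc P p q ∧ Ch G π q v) with hY
  set D : Finset V := univ.filter (fun p => ∃ q, Sc P p q ∧ ¬ Hd π p q) with hD
  have key : ∀ z : V, k ≤ (univ.filter (fun p => Ch G π p z)).card + 2 := by
    intro z
    refine (hk z).trans ?_
    have h1 : univ.filter (fun w => G.Adj z w) ⊆
        univ.filter (fun p => Ch G π p z) ∪ {π z, π.symm z} := by
      intro w hw
      rw [mem_filter] at hw
      rw [mem_union, mem_filter, mem_insert, mem_singleton]
      by_cases h : Hd π w z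
      · right
        rcases h with h | h
        · right
          rw [← h, Equiv.symm_apply_apply]
        · left
          exact h.symm
      · left
        exact ⟨mem_univ _, hw.2.symm, h⟩
    refine (card_le_card h1).trans ((card_union_le _ _).trans ?_)
    exact Nat.add_le_add_left card_le_two _
  have hXk : k ≤ X.card + 2 := key x
  have hYk : k ≤ Y.card + 2 := by
    refine (key v).trans (Nat.add_le_add_right ?_ _)
    refine (card_le_card ?_).trans (card_image_le (s := Y) (f := s))
    intro q hq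
    rw [mem_filter] at hq
    have hqv : q ≠ v := hq.2.1.ne
    obtain ⟨p, hp⟩ := exists_pred (hP.all q) hv hqv
    refine mem_image.2 ⟨p, mem_filter.2 ⟨mem_univ _, q, hp, hq.2⟩, ?_⟩
    exact sc_right_unique hP.nd (hs p ⟨q, hp⟩) hp
  have hDc : D.card = lev π P := lev_card π hP.nd
  have hF1 : (X \ D).card ≤ (Fx G π P).card := by
    refine card_le_card fun p hp => ?_
    rw [mem_sdiff, hX, hD, mem_filter, mem_filter] at hp
    have hpx : p ≠ x := hp.1.2.1.ne
    obtain ⟨q, hq⟩ := exists_succ (hP.all p) hx hpx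
    have hh : Hd π p q := by
      by_contra h
      exact hp.2 ⟨mem_univ _, q, hq, h⟩
    unfold Fx
    exact mem_filter.2 ⟨mem_univ _, x, q, hx, hq, hp.1.2, hh⟩
  have hF2 : (Y \ D).card ≤ (Fx G π P.reverse).card := by
    refine card_le_card_of_injOn s ?_ ?_
    · intro p hp
      rw [mem_coe, mem_sdiff, hY, hD, mem_filter, mem_filter] at hp
      obtain ⟨⟨-, q, hq, hc⟩, hn⟩ := hp
      have e : s p = q := sc_right_unique hP.nd (hs p ⟨q, hq⟩) hq
      have hh : Hd π p q := by
        by_contra h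
        exact hn ⟨mem_univ _, q, hq, h⟩
      unfold Fx
      rw [e]
      refine mem_coe.2 (mem_filter.2 ⟨mem_univ _, v, p, ?_, sc_reverse.2 hq, hc, hd_comm.1 hh⟩)
      rw [List.getLast?_reverse]
      exact hv
    · intro p hp p' hp' e
      rw [mem_coe, mem_sdiff, hY, mem_filter] at hp hp'
      obtain ⟨⟨-, q, hq, -⟩, -⟩ := hp
      obtain ⟨⟨-, q', hq', -⟩, -⟩ := hp'
      have h1 := hs p ⟨q, hq⟩
      have h2 := hs p' ⟨q', hq'⟩
      rw [← e] at h2
      exact sc_left_unique hP.nd h1 h2
  have hAB : ((X ∩ D) ∩ (Y ∩ D)).card ≤ (AB G π P).card := by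
    refine card_le_card fun p hp => ?_
    rw [mem_inter, mem_inter, mem_inter, hX, hY, hD, mem_filter, mem_filter, mem_filter] at hp
    obtain ⟨⟨⟨-, hpx⟩, -, q, hq, hn⟩, ⟨-, q', hq', hc⟩, -⟩ := hp
    have e : q' = q := sc_right_unique hP.nd hq' hq
    subst e
    have hadj : G.Adj p q' := CntI_adj hP.ch hq
    unfold AB
    exact mem_filter.2 ⟨mem_univ _, v, x, q', hv, hx, hq, hpx, hc, hadj, hn⟩
  have e1 : X.card = (X \ D).card + (X ∩ D).card := by
    rw [card_sdiff_add_card_inter]
  have e2 : Y.card = (Y \ D).card + (Y ∩ D).card := by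
    rw [card_sdiff_add_card_inter]
  have e3 : ((X ∩ D) ∪ (Y ∩ D)).card + ((X ∩ D) ∩ (Y ∩ D)).card = (X ∩ D).card + (Y ∩ D).card :=
    card_union_add_card_inter _ _
  have e4 : ((X ∩ D) ∪ (Y ∩ D)).card ≤ D.card :=
    card_le_card (union_subset inter_subset_right inter_subset_right)
  omega

/-- excluding the recent chords costs at most `t` positions -/
theorem abr_ineq {G : SimpleGraph V} {π : Equiv.Perm V} {P : List V} {t : ℕ}
    {R : Finset (Sym2 V)} (hP : HL G P) (hR : R.card ≤ t) :
    (AB G π P).card ≤ (ABR G π P R).card + t := by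
  classical
  have hs0 : ∀ p, ∃ q', (∃ q, Sc P p q) → Sc P p q' := fun p => by
    by_cases h : ∃ q, Sc P p q
    · exact ⟨h.choose, fun _ => h.choose_spec⟩
    · exact ⟨p, fun h' => absurd h' h⟩
  choose s hs using hs0
  set S : Finset V := univ.filter (fun p => ∃ q, Sc P p q ∧ s(p, q) ∈ R) with hS
  have h1 : AB G π P ⊆ ABR G π P R ∪ S := by
    intro p hp
    unfold AB at hp
    rw [mem_filter] at hp
    obtain ⟨-, v, x, q, hv, hx, hq, h1, h2, h3⟩ := hp
    rw [mem_union]
    by_cases h : s(p, q) ∈ R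
    · right
      exact mem_filter.2 ⟨mem_univ _, q, hq, h⟩
    · left
      unfold ABR
      exact mem_filter.2 ⟨mem_univ _, v, x, q, hv, hx, hq, h1, h2, h3, h⟩
  have h2 : S.card ≤ R.card := by
    refine card_le_card_of_injOn (fun p => s(p, s p)) ?_ ?_
    · intro p hp
      rw [mem_coe, hS, mem_filter] at hp
      obtain ⟨-, q, hq, hr⟩ := hp
      have e : s p = q := sc_right_unique hP.nd (hs p ⟨q, hq⟩) hq
      show s(p, s p) ∈ (R : Set (Sym2 V))
      rw [e]
      exact mem_coe.2 hr
    · intro p hp p' hp' e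
      rw [mem_coe, hS, mem_filter] at hp hp'
      obtain ⟨-, q, hq, -⟩ := hp
      obtain ⟨-, q', hq', -⟩ := hp'
      have e1 : s p = q := sc_right_unique hP.nd (hs p ⟨q, hq⟩) hq
      have e2 : s p' = q' := sc_right_unique hP.nd (hs p' ⟨q', hq'⟩) hq'
      simp only [e1, e2] at e
      rcases Sym2.eq_iff.1 e with ⟨h, -⟩ | ⟨h, h'⟩
      · exact h
      · subst h
        subst h'
        exact absurd hq' (CntI_asymm hP.nd hq)
  have h3 := (card_le_card h1).trans (card_union_le _ _)
  omega

end Pool.Agent.H87.QK
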