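import Pool.Agent.H87.QK.MovK
import Pool.Agent.H87.QK.CntI

/-!
# Module CntK: counting closing moves

`n = card V`, `K = {P ∈ SS j t : not r ≤ 4 |Fx P|, not r ≤ 4 |Fx P.reverse|}`, `r + j + 4 = 2 k`. For `P ∈ K`, `count_ineq` gives
`2 |AB P| ≥ r` (`4 |Fx P| < r`, `4 |Fx P.reverse| < r`, so `2 |AB P| ≥ 2 r - 2 |Fx P| - 2 |Fx P.reverse| ≥ r`).
MOVES. For `P ∈ K`, `p ∈ AB P` with successor `q`, let `P' = rot P p` (`close_rot`: a Hamiltonian list, level `j`,
head `v`, last `q`, `Sc P' p x`). It has `n - 1 - j` vertices `c` with a successor `d`, `Hd c d`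
(`lev_card_hd`, `hl_length`), and `cut P' c ∈ SS (j+1) 0` (`st_cut`, `Ch q v`). So the number of triples `(P, p, c)` is at
least `|K| (r/2) (n-1-j)`.
PREIMAGES of `P'' = cut P' c` (`P' = a' ++ c :: d :: b'`, `P'' = (d :: b') ++ (a' ++ [c])`): `Sc P'' q v`, a successor pair
with `not Hd q v`: at most `j + 1` choices of `q` (`lev_card`, the level of `P''` is `j + 1`). Given `q`,
`cut P'' q = P'` (`cut_eq`), and `c` is the last vertex of `P''`. Then `p` has the successor `x` in `P'` with `not Hd p x`: at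
most `j` choices (`lev_card`, level `j`), and `rot P' p = P`. So `(P, p, c)` is determined by `P''`, `q`, `p`:
at most `(j+1) j` preimages (LONG).
-/

set_option autoImplicit false

open Finset

namespace Pool.Agent.H87.QK

variable {V : Type*} [Fintype V] [DecidableEq V]

/-- the states which have few rotations -/
noncomputable def KS (G : SimpleGraph V) (π : Equiv.Perm V) (j t r : ℕ) : Finset (List V) :=
  (SS G π j t).filter (fun P => ¬ r ≤ 4 * (Fx G π P).card ∧ ¬ r ≤ 4 * (Fx G π P.reverse).card)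

/-- the data of a closing move -/
private theorem CntK_move {G : SimpleGraph V} {π : Equiv.Perm V} {j t : ℕ} {P : List V} {p : V}
    (hP : P ∈ SS G π j t) (hp : p ∈ AB G π P) :
    ∃ v x q : V, HL G (rot P p) ∧ lev π (rot P p) = j ∧ (rot P p).head? = some v ∧
      (rot P p).getLast? = some q ∧ Sc (rot P p) p x ∧ ¬ Hd π p x ∧ Ch G π q v ∧
      rot (rot P p) p = P := by
  classical
  unfold SS at hP
  rw [Finset.mem_filter] at hP
  obtain ⟨-, v0, x0, R, hS⟩ := hP
  unfold AB at hp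
  rw [Finset.mem_filter] at hp
  obtain ⟨-, v, x, q, hv, hx, hs, h1, h2, h3⟩ := hp
  obtain ⟨g1, g2, g3, g4, g5⟩ := close_rot hS.hl hv hx hs h1 h3
  refine ⟨v, x, q, g1, g2.trans hS.lv, g3, g4, g5, h1.2, h2, ?_⟩
  obtain ⟨a, b, hab⟩ := sc_iff.1 hs
  have e1 := rot_eq hS.hl.nd hab
  have hx2 : (q :: b).getLast? = some x := by
    rw [hab] at hx
    rw [List.getLast?_append] at hx
    have h5 : (p :: q :: b).getLast? = (q :: b).getLast? := by
      rw [List.getLast?_cons_cons]
    rw [h5] at hx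
    have h6 : (q :: b).getLast? = some ((q :: b).getLast (List.cons_ne_nil _ _)) :=
      List.getLast?_eq_getLast_of_ne_nil (List.cons_ne_nil _ _)
    rw [h6] at hx ⊢
    simpa using hx
  obtain ⟨b4, hb4⟩ := List.getLast?_eq_some_iff.1 hx2
  have e2 : rot P p = a ++ p :: x :: b4.reverse := by
    rw [e1, hb4]
    simp
  have e3 := rot_eq g1.nd e2
  rw [e3, hab, hb4]
  simp

private theorem CntK_cut {G : SimpleGraph V} {P' : List V} {v q c d : V} (h : HL G P')
    (hv : P'.head? = some v) (hq : P'.getLast? = some q) (hs : Sc P' c d)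
    (h2 : (cut P' c).Nodup) : cut (cut P' c) q = P' := by
  obtain ⟨a, b, hab⟩ := sc_iff.1 hs
  have e1 := cut_eq h.nd hab
  have hq2 : (d :: b).getLast? = some q := by
    rw [hab] at hq
    rw [List.getLast?_append] at hq
    have h5 : (c :: d :: b).getLast? = (d :: b).getLast? := by
      rw [List.getLast?_cons_cons]
    rw [h5] at hq
    have h6 : (d :: b).getLast? = some ((d :: b).getLast (List.cons_ne_nil _ _)) :=
      List.getLast?_eq_getLast_of_ne_nil (List.cons_ne_nil _ _)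
    rw [h6] at hq ⊢
    simpa using hq
  have hv2 : (a ++ [c]).head? = some v := by
    rw [hab] at hv
    cases a with
    | nil => simpa using hv
    | cons y a' => simpa using hv
  obtain ⟨a2, ha2⟩ := List.getLast?_eq_some_iff.1 hq2
  obtain ⟨b2, hb2⟩ := List.head?_eq_some_iff.1 hv2
  have e2 : cut P' c = a2 ++ q :: v :: b2 := by
    rw [e1, ha2, hb2]
    simp
  have e3 := cut_eq h2 e2
  rw [e3, ← hb2, ← ha2, hab]
  simp

open Classical in
private noncomputable def CntK_C (π : Equiv.Perm V) (P : List V) : Finset V :=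
  univ.filter (fun c => ∃ d, Sc P c d ∧ Hd π c d)

open Classical in
private noncomputable def CntK_D (G : SimpleGraph V) (π : Equiv.Perm V) (j t r : ℕ) :
    Finset (Σ _ : List V, Σ _ : V, V) :=
  (KS G π j t r).sigma fun P => (AB G π P).sigma fun p => CntK_C π (rot P p)

private theorem CntK_memKS {G : SimpleGraph V} {π : Equiv.Perm V} {j t r : ℕ} {P : List V}
    (h : P ∈ KS G π j t r) : P ∈ SS G π j t := by
  classical
  unfold KS at h
  exact (Finset.mem_filter.1 h).1

private theorem CntK_cardC {G : SimpleGraph V} {π : Equiv.Perm V} {j t : ℕ} {P : List V} {p : V}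
    (hP : P ∈ SS G π j t) (hp : p ∈ AB G π P) :
    (CntK_C π (rot P p)).card = Fintype.card V - 1 - j := by
  obtain ⟨v, x, q, h1, h2, -⟩ := CntK_move hP hp
  have h3 := lev_card_hd π h1.nd
  unfold CntK_C
  rw [h3, hl_length h1, h2]

open Classical in
private theorem CntK_AB [Nonempty V] {G : SimpleGraph V} {π : Equiv.Perm V} {k : ℕ}
    (hk : ∀ u : V, k ≤ (univ.filter (fun w => G.Adj u w)).card) {j t r : ℕ}
    (hr : r + j + 4 = 2 * k) {P : List V} (hP : P ∈ KS G π j t r) :
    r ≤ 2 * (AB G π P).card := by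
  classical
  have h0 := CntK_memKS hP
  unfold KS at hP
  rw [Finset.mem_filter] at hP
  obtain ⟨-, h1, h2⟩ := hP
  unfold SS at h0
  rw [Finset.mem_filter] at h0
  obtain ⟨-, v, x, R, hS⟩ := h0
  have h3 := count_ineq (π := π) hS.hl hk
  rw [hS.lv] at h3
  omega

open Classical in
private theorem CntK_lower [Nonempty V] {G : SimpleGraph V} {π : Equiv.Perm V} {k : ℕ}
    (hk : ∀ u : V, k ≤ (univ.filter (fun w => G.Adj u w)).card) {j t r : ℕ}
    (hr : r + j + 4 = 2 * k) :
    r * (Fintype.card V - 1 - j) * (KS G π j t r).card ≤ 2 * (CntK_D G π j t r).card := by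
  classical
  unfold CntK_D
  rw [Finset.card_sigma, Finset.mul_sum]
  have h1 : ∀ P ∈ KS G π j t r, r * (Fintype.card V - 1 - j) ≤
      2 * ((AB G π P).sigma fun p => CntK_C π (rot P p)).card := by
    intro P hP
    rw [Finset.card_sigma, Finset.sum_congr rfl fun p hp => CntK_cardC (CntK_memKS hP) hp,
      Finset.sum_const, smul_eq_mul, ← mul_assoc]
    exact Nat.mul_le_mul_right _ (CntK_AB hk hr hP)
  calc r * (Fintype.card V - 1 - j) * (KS G π j t r).card
      = ∑ _P ∈ KS G π j t r, r * (Fintype.card V - 1 - j) := by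
        rw [Finset.sum_const, smul_eq_mul, mul_comm]
    _ ≤ _ := Finset.sum_le_sum h1

private theorem CntK_info {G : SimpleGraph V} {π : Equiv.Perm V} {j t r : ℕ}
    {T : Σ _ : List V, Σ _ : V, V} (hT : T ∈ CntK_D G π j t r) :
    ∃ x q d : V, HL G (rot T.1 T.2.1) ∧ lev π (rot T.1 T.2.1) = j ∧
      (rot T.1 T.2.1).getLast? = some q ∧
      Sc (rot T.1 T.2.1) T.2.1 x ∧ ¬ Hd π T.2.1 x ∧ rot (rot T.1 T.2.1) T.2.1 = T.1 ∧
      cut (cut (rot T.1 T.2.1) T.2.2) q = rot T.1 T.2.1 ∧
      St G π (j + 1) 0 (cut (rot T.1 T.2.1) T.2.2) d T.2.2 ∅ ∧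
      ∃ v, Sc (cut (rot T.1 T.2.1) T.2.2) q v ∧ ¬ Hd π q v := by
  classical
  obtain ⟨P, p, c⟩ := T
  unfold CntK_D at hT
  rw [Finset.mem_sigma, Finset.mem_sigma] at hT
  obtain ⟨h1, h2, h3⟩ := hT
  simp only at h1 h2 h3 ⊢
  obtain ⟨v, x, q, g1, g2, g3, g4, g5, g6, g7, g8⟩ := CntK_move (CntK_memKS h1) h2
  unfold CntK_C at h3
  rw [Finset.mem_filter] at h3
  obtain ⟨-, d, hd1, hd2⟩ := h3
  obtain ⟨k1, k2⟩ := st_cut g1 g2 g3 g4 hd1 hd2 g7
  exact ⟨x, q, d, g1, g2, g4, g5, g6, g8, CntK_cut g1 g3 g4 hd1 k1.hl.nd, k1, v, k2, g7.2⟩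

private theorem CntK_upper [Nonempty V] {G : SimpleGraph V} {π : Equiv.Perm V} {j t r : ℕ} :
    (CntK_D G π j t r).card ≤ ((j + 1) * j) * (SS G π (j + 1) 0).card := by
  classical
  refine Finset.card_le_mul_card_image_of_maps_to (f := fun T => cut (rot T.1 T.2.1) T.2.2) ?_ _ ?_
  · intro T hT
    obtain ⟨x, q, d, h1, h2, h3, h4, h5, h6, h7, h8, h9⟩ := CntK_info hT
    unfold SS
    rw [Finset.mem_filter]
    exact ⟨mem_ordF.2 ⟨h8.hl.nd, fun v => ⟨fun _ => Finset.mem_univ v, fun _ => h8.hl.all v⟩⟩,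
      d, T.2.2, ∅, h8⟩
  · intro P'' hP''
    have hlev : lev π P'' = j + 1 ∧ P''.Nodup := by
      unfold SS at hP''
      rw [Finset.mem_filter] at hP''
      obtain ⟨-, v, x, R, hS⟩ := hP''
      exact ⟨hS.lv, hS.hl.nd⟩
    have hQ := lev_card π hlev.2
    rw [hlev.1] at hQ
    rw [mul_comm (j + 1) j, ← hQ]
    refine Finset.card_le_mul_card_image_of_maps_to
      (f := fun T : (Σ _ : List V, Σ _ : V, V) =>
        ((rot T.1 T.2.1).getLast?).getD (Classical.arbitrary V)) ?_ _ ?_
    · intro T hT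
      rw [Finset.mem_filter] at hT
      obtain ⟨x, q, d, h1, h2, h3, h4, h5, h6, h7, h8, v, h9, h10⟩ := CntK_info hT.1
      rw [Finset.mem_filter]
      refine ⟨Finset.mem_univ _, v, ?_⟩
      simp only [h3, Option.getD_some]
      rw [hT.2] at h9
      exact ⟨h9, h10⟩
    · intro q0 _
      set F := {T ∈ {T ∈ CntK_D G π j t r | cut (rot T.1 T.2.1) T.2.2 = P''} |
        ((rot T.1 T.2.1).getLast?).getD (Classical.arbitrary V) = q0} with hF
      have hmem : ∀ T ∈ F, T ∈ CntK_D G π j t r ∧ cut (rot T.1 T.2.1) T.2.2 = P'' ∧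
          rot T.1 T.2.1 = cut P'' q0 := by
        intro T hT
        rw [hF, Finset.mem_filter, Finset.mem_filter] at hT
        obtain ⟨⟨h1, h2⟩, h3⟩ := hT
        obtain ⟨x, q, d, k1, k2, k3, k4, k5, k6, k7, k8, k9⟩ := CntK_info h1
        rw [k3, Option.getD_some] at h3
        rw [h2, h3] at k7
        exact ⟨h1, h2, k7.symm⟩
      rcases F.eq_empty_or_nonempty with h0 | ⟨T0, hT0⟩
      · rw [h0]
        simp
      · obtain ⟨a1, a2, a3⟩ := hmem T0 hT0
        obtain ⟨x, q, d, k1, k2, k3, k4, k5, k6, k7, k8, k9⟩ := CntK_info a1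
        rw [a3] at k1 k2
        have hJ := lev_card π k1.nd
        rw [k2] at hJ
        conv_rhs => rw [← hJ]
        refine Finset.card_le_card_of_injOn (fun T => T.2.1) ?_ ?_
        · intro T hT
          obtain ⟨b1, b2, b3⟩ := hmem T hT
          obtain ⟨x', q', d', m1, m2, m3, m4, m5, m6, m7, m8, m9⟩ := CntK_info b1
          rw [b3] at m4
          exact Finset.mem_coe.2 (Finset.mem_filter.2 ⟨Finset.mem_univ _, x', m4, m5⟩)
        · intro T1 hT1 T2 hT2 he
          obtain ⟨b1, b2, b3⟩ := hmem T1 hT1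
          obtain ⟨c1, c2, c3⟩ := hmem T2 hT2
          obtain ⟨x1, q1, d1, m1, m2, m3, m4, m5, m6, m7, m8, m9⟩ := CntK_info b1
          obtain ⟨x2, q2, d2, n1, n2, n3, n4, n5, n6, n7, n8, n9⟩ := CntK_info c1
          have e1 : T1.2.1 = T2.2.1 := he
          have e2 : T1.1 = T2.1 := by
            rw [← m6, ← n6, b3, c3, e1]
          have e3 : T1.2.2 = T2.2.2 := by
            have l1 := m8.la
            have l2 := n8.la
            rw [b2] at l1
            rw [c2, l1] at l2
            exact Option.some.inj l2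
          obtain ⟨P1, p1, c1'⟩ := T1
          obtain ⟨P2, p2, c2'⟩ := T2
          simp only at e1 e2 e3
          subst e1
          subst e2
          subst e3
          rfl

open Classical in
theorem cnt_long [Nonempty V] {G : SimpleGraph V} {π : Equiv.Perm V} {k : ℕ}
    (hk : ∀ u : V, k ≤ (univ.filter (fun w => G.Adj u w)).card) {j r : ℕ} (hr : r + j + 4 = 2 * k)
    (t : ℕ) :
    r * (Fintype.card V - 1 - j) * (KS G π j t r).card ≤
      2 * ((j + 1) * j) * (SS G π (j + 1) 0).card := by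
  have h1 := CntK_lower (π := π) (t := t) hk hr
  have h2 := CntK_upper (G := G) (π := π) (j := j) (t := t) (r := r)
  calc _ ≤ _ := h1
    _ ≤ 2 * (((j + 1) * j) * (SS G π (j + 1) 0).card) := Nat.mul_le_mul_left 2 h2
    _ = _ := by ring

end Pool.Agent.H87.QK
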