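import Pool.Agent.H87.QK.MovR
import Pool.Agent.H87.QK.CntI

/-!
# Module CntR: counting rotations

Let `S = SS j t`, `S' = SS (j+1) (t+1)`, `U = {P ∈ S : r ≤ 4 |Fx P|}`. Count the pairs `(P, p)`, `P ∈ U`, `p ∈ Fx P`:
at least `|U| r / 4`. The map `(P, p) ↦ rot P p` goes to `S'` (`st_rot`) and every `P'` has at most two
preimages: the last vertex `q` of `P'` satisfies `Hd p q`, so `p ∈ {π q, π⁻¹ q}`, and `P` is determined by `P'` and
`p`: `rot P' p = P` (`rot_eq` twice: `P' = a ++ p :: (q :: b).reverse`, reverse the part after `p` again).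
So `|U| r ≤ 4 * 2 |S'|` (`Finset.card_le_mul_card_image` or `Finset.card_biUnion_le_card_mul`).
* `cnt_rot_rev`: `P ↦ P.reverse` is an injective map of `{P ∈ S : r ≤ 4 |Fx P.reverse|}` into `U`
  (`st_reverse`).
-/

set_option autoImplicit false

open Finset

namespace Pool.Agent.H87.QK

variable {V : Type*} [Fintype V] [DecidableEq V]

private lemma cntR_rot_rot {P : List V} {p q : V} (h : P.Nodup) (hr : (rot P p).Nodup)
    (hs : Sc P p q) : rot (rot P p) p = P := by
  obtain ⟨a, b, hab⟩ := sc_iff.1 hs
  have h1 := rot_eq h hab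
  obtain ⟨x, y, hxy⟩ : ∃ x y, (q :: b).reverse = x :: y := by
    cases hc : (q :: b).reverse with
    | nil => simp at hc
    | cons x y => exact ⟨x, y, rfl⟩
  have h2 : rot P p = a ++ p :: x :: y := by rw [h1, hxy]
  have h3 := rot_eq hr h2
  rw [h3, ← hxy, List.reverse_reverse, ← hab]

omit [Fintype V] in
private lemma cntR_g_card (π : Equiv.Perm V) (o : Option V) :
    (match o with
      | some q => ({π q, π.symm q} : Finset V)
      | none => ∅).card ≤ 2 := by
  cases o with
  | none => simp
  | some q => exact Finset.card_le_two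

private lemma cntR_mem {G : SimpleGraph V} {π : Equiv.Perm V} {j t : ℕ} {P : List V} :
    P ∈ SS G π j t ↔ ∃ v x R, St G π j t P v x R := by
  classical
  unfold SS
  rw [Finset.mem_filter]
  constructor
  · rintro ⟨_, h⟩
    exact h
  · rintro ⟨v, x, R, h⟩
    refine ⟨?_, v, x, R, h⟩
    rw [mem_ordF]
    exact ⟨h.hl.nd, fun w => ⟨fun _ => Finset.mem_univ _, fun _ => h.hl.all w⟩⟩

theorem cnt_rot (G : SimpleGraph V) (π : Equiv.Perm V) (j t r : ℕ) :
    r * ((SS G π j t).filter (fun P => r ≤ 4 * (Fx G π P).card)).card ≤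
      8 * (SS G π (j + 1) (t + 1)).card := by
  classical
  set U := (SS G π j t).filter (fun P => r ≤ 4 * (Fx G π P).card) with hU
  set g : List V → Finset V := fun P' =>
    match P'.getLast? with
      | some q => ({π q, π.symm q} : Finset V)
      | none => ∅ with hg
  have h1 : r * U.card ≤ 4 * (U.sigma (fun P => Fx G π P)).card := by
    rw [Finset.card_sigma, Finset.mul_sum, mul_comm, ← smul_eq_mul]
    refine Finset.card_nsmul_le_sum U _ r ?_
    intro P hP
    exact (Finset.mem_filter.1 hP).2
  have h2 : (U.sigma (fun P => Fx G π P)).card ≤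
      ((SS G π (j + 1) (t + 1)).sigma g).card := by
    refine Finset.card_le_card_of_injOn (fun z => ⟨rot z.1 z.2, z.2⟩) ?_ ?_
    · rintro ⟨P, p⟩ hz
      have hz' := Finset.mem_sigma.1 (Finset.mem_coe.1 hz)
      obtain ⟨v, x, R, hst⟩ := cntR_mem.1 (Finset.mem_filter.1 hz'.1).1
      obtain ⟨x', q, hla, hs, hc, hd⟩ := (Finset.mem_filter.1 hz'.2).2
      have hx : x' = x := by
        have := hst.la
        simp only at hla
        rw [hla] at this
        exact Option.some.inj this
      subst hx
      have hst' := st_rot hst hs hc hd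
      apply Finset.mem_coe.2
      refine Finset.mem_sigma.2 ⟨cntR_mem.2 ⟨_, _, _, hst'⟩, ?_⟩
      simp only [hg]
      rw [hst'.la]
      simp only [Finset.mem_insert, Finset.mem_singleton]
      rcases hd with hd | hd
      · right
        rw [← hd]
        simp
      · left
        exact hd.symm
    · rintro ⟨P, p⟩ hz ⟨P2, p2⟩ hz2 he
      have hz' := Finset.mem_sigma.1 (Finset.mem_coe.1 hz)
      have hz2' := Finset.mem_sigma.1 (Finset.mem_coe.1 hz2)
      obtain ⟨v, x, R, hst⟩ := cntR_mem.1 (Finset.mem_filter.1 hz'.1).1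
      obtain ⟨x', q, hla, hs, hc, hd⟩ := (Finset.mem_filter.1 hz'.2).2
      obtain ⟨v2, x2, R2, hst2⟩ := cntR_mem.1 (Finset.mem_filter.1 hz2'.1).1
      obtain ⟨x2', q2, hla2, hs2, hc2, hd2⟩ := (Finset.mem_filter.1 hz2'.2).2
      have hx : x' = x := by
        have := hst.la
        simp only at hla
        rw [hla] at this
        exact Option.some.inj this
      have hx2 : x2' = x2 := by
        have := hst2.la
        simp only at hla2
        rw [hla2] at this
        exact Option.some.inj this
      subst hx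
      subst hx2
      have hn := (st_rot hst hs hc hd).hl.nd
      have hn2 := (st_rot hst2 hs2 hc2 hd2).hl.nd
      have e1 : rot (rot P p) p = P := cntR_rot_rot hst.hl.nd hn hs
      have e2 : rot (rot P2 p2) p2 = P2 := cntR_rot_rot hst2.hl.nd hn2 hs2
      simp only [Sigma.mk.injEq] at he
      obtain ⟨he1, he2⟩ := he
      have he3 : p = p2 := eq_of_heq he2
      subst he3
      have he4 : P = P2 := by
        calc P = rot (rot P p) p := e1.symm
          _ = rot (rot P2 p) p := by rw [show rot P p = rot P2 p from he1]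
          _ = P2 := e2
      subst he4
      rfl
  have h3 : ((SS G π (j + 1) (t + 1)).sigma g).card ≤ (SS G π (j + 1) (t + 1)).card * 2 := by
    rw [Finset.card_sigma, ← smul_eq_mul]
    refine Finset.sum_le_card_nsmul _ _ 2 ?_
    intro P' _
    exact cntR_g_card π P'.getLast?
  omega

theorem cnt_rot_rev (G : SimpleGraph V) (π : Equiv.Perm V) (j t r : ℕ) :
    r * ((SS G π j t).filter (fun P => r ≤ 4 * (Fx G π P.reverse).card)).card ≤
      8 * (SS G π (j + 1) (t + 1)).card := by
  classical
  refine le_trans (Nat.mul_le_mul_left r ?_) (cnt_rot G π j t r)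
  refine Finset.card_le_card_of_injOn List.reverse ?_ ?_
  · intro P hP
    have hP' := Finset.mem_filter.1 (Finset.mem_coe.1 hP)
    obtain ⟨v, x, R, hst⟩ := cntR_mem.1 hP'.1
    exact Finset.mem_coe.2 (Finset.mem_filter.2 ⟨cntR_mem.2 ⟨_, _, _, st_reverse hst⟩, hP'.2⟩)
  · intro P _ P2 _ he
    exact List.reverse_injective he

end Pool.Agent.H87.QK
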