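import Pool.Agent.H87.QK.CntK

/-!
# Module CntS: counting closing moves which avoid the recent chords

Notation and the first steps as in CntK (moves `(P, p, c)`, `P' = rot P p`, `P'' = cut P' c`, choice of `q` in at most
`j + 1` ways).
SHORT. Restrict to `p ∈ ABR P R` where `R` is the set of recent chords of `P` (chosen by `Classical.choose`); if
`4 t ≤ r` then `4 |ABR P R| ≥ 4 |AB P| - 4 t ≥ 2 r - r = r` (`abr_ineq`). Given `P''` and `q` (`j + 1` choices) `P'` is
determined, also `v` (its head), and `x` is reached from `v` by an alternating walk with `t` edges of `P'`: the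
recent chords are not `s(p, q)`, so they are edges of `P'` (`ed_rot`, `tw_mono`): at most `2 * 4^t` choices for `x`
(`tw_card`, `ed_card`); `x ≠ v`... and `p` is the predecessor of `x` in `P'` (`sc_left_unique`). So there are at most
`(j+1) * 2 * 4^t` preimages.
-/

set_option autoImplicit false

open Finset

namespace Pool.Agent.H87.QK

variable {V : Type*} [Fintype V] [DecidableEq V]

private theorem cntS_mem_SS {G : SimpleGraph V} {π : Equiv.Perm V} {j t : ℕ} {P : List V}
    {v x : V} {R : Finset (Sym2 V)} (h : St G π j t P v x R) : P ∈ SS G π j t := by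
  classical
  unfold SS
  rw [mem_filter]
  exact ⟨mem_ordF.2 ⟨h.hl.nd, fun w => ⟨fun _ => mem_univ w, fun _ => h.hl.all w⟩⟩, v, x, R, h⟩

private theorem cntS_SS {G : SimpleGraph V} {π : Equiv.Perm V} {j t : ℕ} {P : List V}
    (h : P ∈ SS G π j t) : ∃ v x R, St G π j t P v x R := by
  classical
  unfold SS at h
  rw [mem_filter] at h
  exact h.2

private theorem cntS_rot {P : List V} {p q : V} (h : P.Nodup) (hs : Sc P p q) :
    rot (rot P p) p = P := by
  obtain ⟨a, b, hP⟩ := sc_iff.1 hs
  have h1 := rot_eq h hP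
  rcases hL : (q :: b).reverse with _ | ⟨x, y⟩
  · exact absurd (List.reverse_eq_nil_iff.1 hL) (by simp)
  · rw [hL] at h1
    have h2 : (rot P p).Nodup := by
      rw [h1, ← hL]
      have h3 : (a ++ p :: (q :: b).reverse).Perm P := by
        rw [hP]
        exact ((List.reverse_perm (q :: b)).cons p).append_left a
      exact h3.nodup_iff.2 h
    rw [rot_eq h2 h1, ← hL, List.reverse_reverse]
    exact hP.symm

private theorem cntS_cut {P : List V} {v q c d : V} (h : P.Nodup) (hv : P.head? = some v)
    (hq : P.getLast? = some q) (hs : Sc P c d) : cut (cut P c) q = P := by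
  obtain ⟨a, b, hP⟩ := sc_iff.1 hs
  have h1 := cut_eq h hP
  have hP' : P = (a ++ [c]) ++ (d :: b) := by rw [hP]; simp
  obtain ⟨b', hb'⟩ : ∃ b', d :: b = b' ++ [q] := by
    have h2 : (d :: b).getLast? = some q := by
      rw [hP', List.getLast?_append] at hq
      rw [List.getLast?_cons] at hq ⊢
      simpa using hq
    exact List.getLast?_eq_some_iff.1 h2
  obtain ⟨a', ha'⟩ : ∃ a', a ++ [c] = v :: a' := by
    rcases h3 : a ++ [c] with _ | ⟨w, a'⟩
    · simp at h3
    · refine ⟨a', ?_⟩
      rw [hP', h3] at hv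
      simp at hv
      rw [hv]
  have h4 : cut P c = b' ++ q :: v :: a' := by
    rw [h1, hb', ha']; simp
  have h5 : (cut P c).Nodup := by
    rw [h1]
    have h6 : ((d :: b) ++ (a ++ [c])).Perm P := by
      rw [hP']
      exact List.perm_append_comm
    exact h6.nodup_iff.2 h
  rw [cut_eq h5 h4, ← ha', ← hb']
  exact hP'.symm

open Classical in
/-- the successor pairs of cycle edges -/
private noncomputable def cntS_H (π : Equiv.Perm V) (P : List V) : Finset V :=
  univ.filter (fun p => ∃ q, Sc P p q ∧ Hd π p q)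

open Classical in
/-- the recent chords -/
private noncomputable def cntS_R (G : SimpleGraph V) (π : Equiv.Perm V) (j t : ℕ) (P : List V) :
    Finset (Sym2 V) :=
  if h : ∃ R v x, St G π j t P v x R then h.choose else ∅

private theorem cntS_R_spec {G : SimpleGraph V} {π : Equiv.Perm V} {j t : ℕ} {P : List V}
    (h : P ∈ SS G π j t) : ∃ v x, St G π j t P v x (cntS_R G π j t P) := by
  obtain ⟨v, x, R, h1⟩ := cntS_SS h
  have h2 : ∃ R v x, St G π j t P v x R := ⟨R, v, x, h1⟩
  rw [cntS_R, dif_pos h2]
  exact h2.choose_spec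

open Classical in
/-- all the data of a closing move -/
private theorem cntS_move {G : SimpleGraph V} {π : Equiv.Perm V} {j t : ℕ} {P : List V} {p : V}
    (hP : P ∈ SS G π j t) (hp : p ∈ ABR G π P (cntS_R G π j t P)) :
    ∃ v x q, HL G P ∧ P.getLast? = some x ∧ Sc P p q ∧ HL G (rot P p) ∧ lev π (rot P p) = j ∧
      (rot P p).head? = some v ∧ (rot P p).getLast? = some q ∧ Sc (rot P p) p x ∧ Ch G π q v ∧
      Tw π (Ed (rot P p)) t v x := by
  obtain ⟨v, x, hS⟩ := cntS_R_spec hP
  unfold ABR at hp
  rw [mem_filter] at hp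
  obtain ⟨-, v', x', q, hv', hx', hs, hc, hqv, hpq, hR⟩ := hp
  obtain rfl : v = v' := by
    have := hS.hd.symm.trans hv'
    exact Option.some.inj this
  obtain rfl : x = x' := by
    have := hS.la.symm.trans hx'
    exact Option.some.inj this
  obtain ⟨h1, h2, h3, h4, h5⟩ := close_rot hS.hl hS.hd hS.la hs hc hpq
  refine ⟨v, x, q, hS.hl, hS.la, hs, h1, h2.trans hS.lv, h3, h4, h5, hqv, ?_⟩
  refine tw_mono ?_ hS.tw
  intro b c hbc
  refine ed_rot hS.hl.nd hs (hS.rc b c hbc).2 ?_
  intro he
  rw [he] at hbc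
  exact hR hbc

open Classical in
theorem cnt_short [Nonempty V] {G : SimpleGraph V} {π : Equiv.Perm V} {k : ℕ}
    (hk : ∀ u : V, k ≤ (univ.filter (fun w => G.Adj u w)).card) {j r : ℕ} (hr : r + j + 4 = 2 * k)
    {t : ℕ} (ht : 4 * t ≤ r) :
    r * (Fintype.card V - 1 - j) * (KS G π j t r).card ≤
      4 * ((j + 1) * (2 * 4 ^ t)) * (SS G π (j + 1) 0).card := by
  set T : Finset (Σ _ : List V, Σ _ : V, V) :=
    (KS G π j t r).sigma (fun P => (ABR G π P (cntS_R G π j t P)).sigma
      (fun p => cntS_H π (rot P p))) with hT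
  have hKS : ∀ P ∈ KS G π j t r, P ∈ SS G π j t ∧ ¬ r ≤ 4 * (Fx G π P).card ∧
      ¬ r ≤ 4 * (Fx G π P.reverse).card := by
    intro P hP
    unfold KS at hP
    exact mem_filter.1 hP
  have hH : ∀ P ∈ KS G π j t r, ∀ p ∈ ABR G π P (cntS_R G π j t P),
      (cntS_H π (rot P p)).card = Fintype.card V - 1 - j := by
    intro P hP p hp
    obtain ⟨v, x, q, h1, h2, h3, h4, h5, -⟩ := cntS_move (hKS P hP).1 hp
    have h6 := lev_card_hd π h4.nd
    rw [h5, hl_length h4] at h6
    exact h6
  -- lower bound
  have hlow : r * (Fintype.card V - 1 - j) * (KS G π j t r).card ≤ 4 * T.card := by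
    rw [hT, card_sigma, Finset.mul_sum, mul_comm, ← smul_eq_mul, ← Finset.sum_const]
    refine Finset.sum_le_sum fun P hP => ?_
    rw [card_sigma, Finset.sum_congr rfl fun p hp => hH P hP p hp, Finset.sum_const, smul_eq_mul,
      ← mul_assoc]
    refine Nat.mul_le_mul_right _ ?_
    obtain ⟨h1, h2, h3⟩ := hKS P hP
    obtain ⟨v, x, hS⟩ := cntS_R_spec h1
    have h4 := count_ineq (π := π) hS.hl hk
    rw [hS.lv] at h4
    have h5 := abr_ineq (π := π) hS.hl hS.cd
    omega
  -- the fibres
  have hfib : T.card ≤ ((j + 1) * (2 * 4 ^ t)) * (SS G π (j + 1) 0).card := by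
    have h1 := Finset.card_le_mul_card_image (f := fun m : (Σ _ : List V, Σ _ : V, V) =>
      cut (rot m.1 m.2.1) m.2.2) T ((j + 1) * (2 * 4 ^ t)) ?_
    · refine h1.trans (Nat.mul_le_mul_left _ (card_le_card ?_))
      intro P'' hP''
      obtain ⟨⟨P, p, c⟩, hm, rfl⟩ := mem_image.1 hP''
      rw [hT, mem_sigma, mem_sigma] at hm
      obtain ⟨hP, hp, hc⟩ := hm
      obtain ⟨v, x, q, h1, h2, h3, h4, h5, h6, h7, h8, h9, h10⟩ := cntS_move (hKS P hP).1 hp
      unfold cntS_H at hc
      obtain ⟨-, d, hcd, hcd'⟩ := mem_filter.1 hc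
      exact cntS_mem_SS (st_cut h4 h5 h6 h7 hcd hcd' h9).1
    · intro P'' hP''
      have hdata : ∀ m ∈ T.filter (fun m => cut (rot m.1 m.2.1) m.2.2 = P''),
          ∃ x q v, m.1.getLast? = some x ∧ (rot m.1 m.2.1).getLast? = some q ∧
            P''.Nodup ∧ lev π P'' = j + 1 ∧ Sc P'' q v ∧ ¬ Hd π q v ∧
            cut P'' q = rot m.1 m.2.1 ∧ P''.getLast? = some m.2.2 ∧
            (rot m.1 m.2.1).head? = some v ∧ Tw π (Ed (rot m.1 m.2.1)) t v x ∧
            Sc (rot m.1 m.2.1) m.2.1 x ∧ rot (rot m.1 m.2.1) m.2.1 = m.1 ∧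
            (rot m.1 m.2.1).Nodup := by
        rintro ⟨P, p, c⟩ hm
        rw [mem_filter, hT, mem_sigma, mem_sigma] at hm
        obtain ⟨⟨hP, hp, hc⟩, hcut⟩ := hm
        dsimp only at hP hp hc hcut ⊢
        obtain ⟨v, x, q, h1, h2, h3, h4, h5, h6, h7, h8, h9, h10⟩ := cntS_move (hKS P hP).1 hp
        unfold cntS_H at hc
        obtain ⟨-, d, hcd, hcd'⟩ := mem_filter.1 hc
        obtain ⟨hst, hsc⟩ := st_cut h4 h5 h6 h7 hcd hcd' h9
        have hcc := cntS_cut h4.nd h6 h7 hcd
        rw [hcut] at hst hsc hcc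
        exact ⟨x, q, v, h2, h7, hst.hl.nd, hst.lv, hsc, h9.2, hcc, hst.la, h6, h10, h8,
          cntS_rot h1.nd h3, h4.nd⟩
      set Q : Finset V := univ.filter (fun q => ∃ v, Sc P'' q v ∧ ¬ Hd π q v) with hQ
      set X : V → Finset V := fun q =>
        univ.filter (fun x => ∃ v, (cut P'' q).head? = some v ∧ (cut P'' q).Nodup ∧
          Tw π (Ed (cut P'' q)) t v x) with hX
      have hXc : ∀ q, (X q).card ≤ 2 * 4 ^ t := by
        intro q
        rcases hh : (cut P'' q).head? with _ | v
        · have : X q = ∅ := by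
            rw [hX]
            refine filter_eq_empty_iff.2 ?_
            rintro x - ⟨v, hv, -⟩
            rw [hh] at hv
            exact absurd hv (by simp)
          rw [this, card_empty]
          exact Nat.zero_le _
        · by_cases hnd : (cut P'' q).Nodup
          · refine le_trans (card_le_card ?_) (tw_card (π := π) (E := Ed (cut P'' q))
              (fun u => ed_card hnd u) t v)
            intro x hx
            rw [hX, mem_filter] at hx
            obtain ⟨-, v', hv', -, h2⟩ := hx
            rw [hh] at hv'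
            obtain rfl := Option.some.inj hv'
            exact mem_filter.2 ⟨mem_univ _, h2⟩
          · have : X q = ∅ := by
              rw [hX]
              refine filter_eq_empty_iff.2 ?_
              rintro x - ⟨v, hv, h2, -⟩
              exact hnd h2
            rw [this, card_empty]
            exact Nat.zero_le _
      rcases (T.filter (fun m => cut (rot m.1 m.2.1) m.2.2 = P'')).eq_empty_or_nonempty with
        hem | ⟨m0, hm0⟩
      · rw [hem, card_empty]
        exact Nat.zero_le _
      · have hQc : Q.card = j + 1 := by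
          obtain ⟨x, q, v, -, -, h3, h4, -⟩ := hdata m0 hm0
          have h5 := lev_card π h3
          rw [h4] at h5
          exact h5
        have hcard : ((Q.sigma X).image (fun m : (Σ _ : V, V) => (some m.1, some m.2))).card ≤
            (j + 1) * (2 * 4 ^ t) := by
          refine card_image_le.trans ?_
          rw [card_sigma]
          refine (Finset.sum_le_sum fun q _ => hXc q).trans ?_
          rw [Finset.sum_const, hQc, smul_eq_mul]
        refine le_trans (card_le_card_of_injOn (fun m : (Σ _ : List V, Σ _ : V, V) =>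
          ((rot m.1 m.2.1).getLast?, m.1.getLast?)) ?_ ?_) hcard
        · intro m hm
          obtain ⟨x, q, v, h1, h2, h3, h4, h5, h6, h7, h8, h9, h10, h11, h12, h13⟩ :=
            hdata m hm
          rw [mem_coe, mem_image]
          refine ⟨⟨q, x⟩, mem_sigma.2 ⟨mem_filter.2 ⟨mem_univ _, v, h5, h6⟩,
            mem_filter.2 ⟨mem_univ _, v, ?_, ?_, ?_⟩⟩, ?_⟩
          · dsimp only; rw [h7]; exact h9
          · dsimp only; rw [h7]; exact h13
          · dsimp only; rw [h7]; exact h10
          · dsimp only; rw [h1, h2]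
        · intro m hm m' hm' he
          obtain ⟨x, q, v, h1, h2, h3, h4, h5, h6, h7, h8, h9, h10, h11, h12, h13⟩ :=
            hdata m hm
          obtain ⟨x', q', v', g1, g2, g3, g4, g5, g6, g7, g8, g9, g10, g11, g12, g13⟩ :=
            hdata m' hm'
          obtain ⟨P, p, c⟩ := m
          obtain ⟨P', p', c'⟩ := m'
          dsimp only at *
          obtain ⟨he1, he2⟩ := Prod.mk.inj he
          rw [h2, g2] at he1
          rw [h1, g1] at he2
          obtain rfl := Option.some.inj he1
          obtain rfl := Option.some.inj he2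
          have hr1 : rot P p = rot P' p' := h7.symm.trans g7
          have hc1 : c = c' := Option.some.inj (h8.symm.trans g8)
          have hp1 : p = p' := by
            rw [hr1] at h11
            exact sc_left_unique g13 h11 g11
          subst hc1 hp1
          have hP1 : P = P' := by
            rw [← h12, ← g12, hr1]
          subst hP1
          rfl
  calc r * (Fintype.card V - 1 - j) * (KS G π j t r).card ≤ 4 * T.card := hlow
    _ ≤ 4 * (((j + 1) * (2 * 4 ^ t)) * (SS G π (j + 1) 0).card) := Nat.mul_le_mul_left _ hfib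
    _ = 4 * ((j + 1) * (2 * 4 ^ t)) * (SS G π (j + 1) 0).card := by ring

end Pool.Agent.H87.QK
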