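import Pool.Agent.H87.QK.HLL
import Pool.Agent.H87.QK.Blk

/-!
# Module Enc: counting orderings with two prescribed blocks

* `card_ordF`: `ordF s` has `s.card !` elements (`s.val.lists` is the multiset of permutations of `s.toList`,
  `List.length_permutations`).
* `expand`: if `M = m :: M'` is a block of the nodup list `P`, `P = a ++ M ++ b`, and `f = P.filter (· ∉ M')` then
  `f = a ++ [m] ++ b` and `P = f.flatMap (fun v => if v = m then M else [v])` (`m` is not in `a`, `b`).
-/

set_option autoImplicit false

open Finset

namespace Pool.Agent.H87.QK

variable {V : Type*} [Fintype V] [DecidableEq V]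

omit [Fintype V] [DecidableEq V] in
theorem card_ordF (s : Finset V) : (ordF s).card = s.card.factorial := by
  change Multiset.card (Multiset.lists s.val) = _
  rw [← Finset.coe_toList s, Multiset.lists_coe, Multiset.coe_card, List.length_permutations,
    Finset.length_toList]

omit [Fintype V] in
private theorem Enc_flat {m : V} {M' : List V} : ∀ l : List V, m ∉ l →
    l.flatMap (fun v => if v = m then m :: M' else [v]) = l := by
  intro l
  induction l with
  | nil => intro _; rfl
  | cons a l ih =>
    intro h
    rw [List.mem_cons, not_or] at h
    rw [List.flatMap_cons, ih h.2, if_neg (fun e => h.1 e.symm)]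
    rfl

omit [Fintype V] in
theorem expand {P M' : List V} {m : V} (h : P.Nodup) (hM : (m :: M') <:+: P) :
    P = (P.filter (fun v => v ∉ M')).flatMap (fun v => if v = m then m :: M' else [v]) := by
  obtain ⟨a, b, rfl⟩ := hM
  have hnd := h
  rw [List.append_assoc, List.nodup_append'] at hnd
  obtain ⟨_, h2, h3⟩ := hnd
  rw [List.nodup_append'] at h2
  obtain ⟨h4, _, h5⟩ := h2
  have hm : m ∉ M' := (List.nodup_cons.1 h4).1
  have hma : m ∉ a := fun hh => h3 hh (by simp)
  have hmb : m ∉ b := fun hh => h5 (List.mem_cons_self) hh
  have ha : a.filter (fun v => v ∉ M') = a := by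
    rw [List.filter_eq_self]
    intro v hv
    have : v ∉ M' := fun hh => h3 hv (by simp [hh])
    simpa using this
  have hb : b.filter (fun v => v ∉ M') = b := by
    rw [List.filter_eq_self]
    intro v hv
    have : v ∉ M' := fun hh => h5 (List.mem_cons_of_mem _ hh) hv
    simpa using this
  have hM0 : M'.filter (fun v => v ∉ M') = [] := by
    rw [List.filter_eq_nil_iff]
    intro v hv
    simpa using hv
  have hmm : (m :: M').filter (fun v => v ∉ M') = [m] := by
    rw [List.filter_cons_of_pos (by simpa using hm), hM0]
  rw [List.filter_append, List.filter_append, ha, hb, hmm, List.flatMap_append,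
    List.flatMap_append, Enc_flat a hma, Enc_flat b hmb]
  simp

end Pool.Agent.H87.QK
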