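import Pool.Agent.H87.QK.HLL
import Pool.Agent.H87.QK.Enc

/-!
# Module Cpa: orderings without adjacent couples

`c` is a list of couples; `Fr c l`: no couple of `c` is adjacent in `l`.
* `merge`: `a ≠ b` in `s`, not in the couples of `c`. The map `l ↦ l.erase b` is a bijection of
  `{l ∈ ordF s : Sc l a b, Fr c l}` onto `{l ∈ ordF (s.erase b) : Fr c l}`: `l = x ++ a :: b :: y`, `l.erase b = x ++ a :: y`
  (`b ∉ x`, `b ≠ a`); the inverse inserts `b` after `a` (`l' = x ++ a :: y`, unique). An adjacent pair of `l` different from `(a, b)` and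
  `(b, first of y)` is an adjacent pair of `l.erase b`, and conversely all but `(a, first of y)`; `a`, `b` are in no couple, so
  `Fr c` is preserved both ways.
* `merge'`: the same with `Sc l b a` (reverse the lists: `l ↦ l.reverse` preserves `ordF`, `Fr`, `sc_reverse`).
-/

set_option autoImplicit false

open Finset

namespace Pool.Agent.H87.QK

variable {V : Type*} [Fintype V] [DecidableEq V]

/-- no couple of `c` is adjacent in `l` -/
def Fr (c : List (V × V)) (l : List V) : Prop := ∀ e ∈ c, ¬ Ed l e.1 e.2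

/-- the vertices of a list of couples -/
def vts (c : List (V × V)) : List V := c.flatMap (fun e => [e.1, e.2])

/-- the exact number -/
def cf (m n : ℕ) : ℤ := ∑ j ∈ range (m + 1), (-2) ^ j * (m.choose j : ℤ) * ((n - j).factorial : ℤ)

omit [Fintype V] [DecidableEq V] in
private theorem Cpa_sc_split {x y : List V} {a u w : V} (hu : u ≠ a) (hw : w ≠ a) :
    Sc (x ++ a :: y) u w ↔ Sc x u w ∨ Sc y u w := by
  constructor
  · intro h
    obtain ⟨p, q, hpq⟩ := sc_iff.1 h
    rcases List.append_eq_append_iff.1 hpq with ⟨t, ht1, ht2⟩ | ⟨t, ht1, ht2⟩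
    · rcases t with _ | ⟨t0, t'⟩
      · rw [List.nil_append, List.cons.injEq] at ht2
        exact absurd ht2.1.symm hu
      · rw [List.cons_append, List.cons.injEq] at ht2
        exact Or.inr (sc_iff.2 ⟨t', q, ht2.2⟩)
    · rcases t with _ | ⟨t0, t'⟩
      · rw [List.nil_append, List.cons.injEq] at ht2
        exact absurd ht2.1 hu
      · rw [List.cons_append, List.cons.injEq] at ht2
        obtain ⟨rfl, ht3⟩ := ht2
        rcases t' with _ | ⟨t1, t''⟩
        · rw [List.nil_append, List.cons.injEq] at ht3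
          exact absurd ht3.1 hw
        · rw [List.cons_append, List.cons.injEq] at ht3
          obtain ⟨rfl, -⟩ := ht3
          exact Or.inl (sc_iff.2 ⟨p, t'', ht1⟩)
  · rintro (h | h)
    · obtain ⟨p, q, rfl⟩ := sc_iff.1 h
      exact sc_iff.2 ⟨p, q ++ a :: y, by simp⟩
    · obtain ⟨p, q, rfl⟩ := sc_iff.1 h
      exact sc_iff.2 ⟨x ++ a :: p, q, by simp⟩

omit [Fintype V] [DecidableEq V] in
private theorem Cpa_ed_split {x y : List V} {a u w : V} (hu : u ≠ a) (hw : w ≠ a) :
    Ed (x ++ a :: y) u w ↔ Ed x u w ∨ Ed y u w := by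
  unfold Ed
  rw [Cpa_sc_split hu hw, Cpa_sc_split hw hu]
  tauto

omit [Fintype V] [DecidableEq V] in
private theorem Cpa_ed_two {x y : List V} {a b u w : V} (hu : u ≠ a) (hw : w ≠ a) (hu' : u ≠ b)
    (hw' : w ≠ b) : Ed (x ++ a :: b :: y) u w ↔ Ed (x ++ a :: y) u w := by
  rw [Cpa_ed_split hu hw, Cpa_ed_split hu hw]
  have h1 : Ed (b :: y) u w ↔ Ed y u w := by
    have h2 := Cpa_ed_split (x := []) (y := y) hu' hw'
    rw [List.nil_append] at h2
    rw [h2]
    constructor
    · rintro (h | h)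
      · rcases h with h | h
        · obtain ⟨p, q, hpq⟩ := sc_iff.1 h
          exact absurd hpq (by simp)
        · obtain ⟨p, q, hpq⟩ := sc_iff.1 h
          exact absurd hpq (by simp)
      · exact h
    · exact Or.inr
  rw [h1]

omit [Fintype V] [DecidableEq V] in
private theorem Cpa_mem {c : List (V × V)} {e : V × V} (he : e ∈ c) {a : V} (ha : a ∉ vts c) :
    e.1 ≠ a ∧ e.2 ≠ a := by
  constructor
  · rintro rfl
    apply ha
    unfold vts
    rw [List.mem_flatMap]
    exact ⟨e, he, by simp⟩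
  · rintro rfl
    apply ha
    unfold vts
    rw [List.mem_flatMap]
    exact ⟨e, he, by simp⟩

omit [Fintype V] [DecidableEq V] in
private theorem Cpa_fr {x y : List V} {a b : V} {c : List (V × V)} (hac : a ∉ vts c)
    (hbc : b ∉ vts c) : Fr c (x ++ a :: b :: y) ↔ Fr c (x ++ a :: y) := by
  unfold Fr
  refine forall_congr' fun e => forall_congr' fun he => ?_
  obtain ⟨h1, h2⟩ := Cpa_mem he hac
  obtain ⟨h3, h4⟩ := Cpa_mem he hbc
  rw [Cpa_ed_two h1 h2 h3 h4]

omit [Fintype V] in
private theorem Cpa_erase {x y : List V} {a b : V} (h : (x ++ a :: b :: y).Nodup) :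
    (x ++ a :: b :: y).erase b = x ++ a :: y := by
  have hb : b ∉ x := by
    intro hbx
    rw [List.nodup_append] at h
    exact h.2.2 b hbx b (by simp) rfl
  have hab : a ≠ b := by
    rintro rfl
    rw [List.nodup_append] at h
    have h1 := h.2.1
    rw [List.nodup_cons] at h1
    exact h1.1 (by simp)
  rw [List.erase_append_right _ hb]
  rw [List.erase_cons_tail (by simpa using hab), List.erase_cons_head]

open Classical in
theorem merge {s : Finset V} {a b : V} {c : List (V × V)} (ha : a ∈ s) (hb : b ∈ s) (hab : a ≠ b)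
    (hac : a ∉ vts c) (hbc : b ∉ vts c) :
    ((ordF s).filter (fun l => Sc l a b ∧ Fr c l)).card =
      ((ordF (s.erase b)).filter (Fr c)).card := by
  refine Finset.card_bij (fun l _ => l.erase b) ?_ ?_ ?_
  · intro l hl
    rw [Finset.mem_filter, mem_ordF] at hl
    obtain ⟨⟨hnd, hmem⟩, hsc, hfr⟩ := hl
    obtain ⟨x, y, rfl⟩ := sc_iff.1 hsc
    rw [Finset.mem_filter, mem_ordF]
    refine ⟨⟨hnd.erase b, ?_⟩, ?_⟩
    · intro v
      rw [hnd.mem_erase_iff, hmem v, Finset.mem_erase]
    · rw [Cpa_erase hnd]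
      exact (Cpa_fr hac hbc).1 hfr
  · intro l hl l' hl' h
    rw [Finset.mem_filter, mem_ordF] at hl hl'
    obtain ⟨⟨hnd, -⟩, hsc, -⟩ := hl
    obtain ⟨⟨hnd', -⟩, hsc', -⟩ := hl'
    obtain ⟨x, y, rfl⟩ := sc_iff.1 hsc
    obtain ⟨x', y', rfl⟩ := sc_iff.1 hsc'
    have hnde := hnd.erase b
    rw [Cpa_erase hnd] at h hnde
    rw [Cpa_erase hnd'] at h
    obtain ⟨h1, h2⟩ := split_unique hnde rfl h
    rw [h1, h2]
  · intro l' hl'
    rw [Finset.mem_filter, mem_ordF] at hl'
    obtain ⟨⟨hnd, hmem⟩, hfr⟩ := hl'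
    have hal : a ∈ l' := (hmem a).2 (Finset.mem_erase.2 ⟨hab, ha⟩)
    have hbl : b ∉ l' := fun h => (Finset.mem_erase.1 ((hmem b).1 h)).1 rfl
    obtain ⟨x, y, rfl⟩ := List.append_of_mem hal
    have hnd2 : (x ++ a :: b :: y).Nodup := by
      have h1 : (x ++ a :: b :: y).Perm (b :: (x ++ a :: y)) := by
        have h2 : x ++ a :: b :: y = (x ++ [a]) ++ b :: y := by simp
        have h3 : b :: (x ++ a :: y) = b :: ((x ++ [a]) ++ y) := by simp
        rw [h2, h3]
        exact List.perm_middle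
      rw [h1.nodup_iff, List.nodup_cons]
      exact ⟨hbl, hnd⟩
    refine ⟨x ++ a :: b :: y, ?_, Cpa_erase hnd2⟩
    rw [Finset.mem_filter, mem_ordF]
    refine ⟨⟨hnd2, ?_⟩, sc_iff.2 ⟨x, y, rfl⟩, (Cpa_fr hac hbc).2 hfr⟩
    intro v
    by_cases hvb : v = b
    · subst hvb
      simp [hb]
    · have h1 := hmem v
      rw [Finset.mem_erase] at h1
      have h2 : v ∈ x ++ a :: b :: y ↔ v ∈ x ++ a :: y := by
        simp [hvb]
      rw [h2, h1]
      simp [hvb]

omit [Fintype V] [DecidableEq V] in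
private theorem Cpa_fr_reverse {c : List (V × V)} {l : List V} : Fr c l.reverse ↔ Fr c l := by
  unfold Fr
  refine forall_congr' fun e => forall_congr' fun _ => ?_
  rw [ed_reverse]

open Classical in
theorem merge' {s : Finset V} {a b : V} {c : List (V × V)} (ha : a ∈ s) (hb : b ∈ s) (hab : a ≠ b)
    (hac : a ∉ vts c) (hbc : b ∉ vts c) :
    ((ordF s).filter (fun l => Sc l b a ∧ Fr c l)).card =
      ((ordF (s.erase b)).filter (Fr c)).card := by
  rw [← merge ha hb hab hac hbc]
  refine Finset.card_bij (fun l _ => l.reverse) ?_ ?_ ?_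
  · intro l hl
    rw [Finset.mem_filter, mem_ordF] at hl ⊢
    obtain ⟨⟨hnd, hmem⟩, hsc, hfr⟩ := hl
    refine ⟨⟨List.nodup_reverse.2 hnd, fun v => ?_⟩, sc_reverse.2 hsc, Cpa_fr_reverse.2 hfr⟩
    rw [List.mem_reverse, hmem v]
  · intro l _ l' _ h
    exact List.reverse_injective h
  · intro l hl
    rw [Finset.mem_filter, mem_ordF] at hl
    obtain ⟨⟨hnd, hmem⟩, hsc, hfr⟩ := hl
    refine ⟨l.reverse, ?_, List.reverse_reverse l⟩
    rw [Finset.mem_filter, mem_ordF]
    refine ⟨⟨List.nodup_reverse.2 hnd, fun v => ?_⟩, sc_reverse.2 hsc, Cpa_fr_reverse.2 hfr⟩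
    rw [List.mem_reverse, hmem v]

end Pool.Agent.H87.QK
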