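import Pool.Agent.H87.QK.Cpf

/-!
# Module Cpb: monotonicity

`cf m n - cf (m+1) n = 2 cf m (n-1)` for `1 ≤ n` (Pascal), and `cf m (n-1) ≥ 0` for `2 m ≤ n - 1` because it is a number of
orderings (`cpl_formula` with `V = Fin (n-1)` and the couples `(2i, 2i+1)`, `i < m`). So `cf` decreases in `m` as long as
`2 (m+1) ≤ n`: then `2 m ≤ n - 2 ≤ n - 1`.
-/

set_option autoImplicit false

open Finset

namespace Pool.Agent.H87.QK

private theorem cpb_couples {n : ℕ} (m : ℕ) (h : 2 * m ≤ n) :
    ∃ c : List (Fin n × Fin n), c.length = m ∧ (vts c).Nodup ∧ ∀ v ∈ vts c, v.val < 2 * m := by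
  induction m with
  | zero => exact ⟨[], rfl, by simp [vts], by simp [vts]⟩
  | succ m ih =>
    obtain ⟨c, h1, h2, h3⟩ := ih (by omega)
    have ha : 2 * m < n := by omega
    have hb : 2 * m + 1 < n := by omega
    refine ⟨(⟨2 * m, ha⟩, ⟨2 * m + 1, hb⟩) :: c, by simp [h1], ?_, ?_⟩
    · have e : vts ((⟨2 * m, ha⟩, ⟨2 * m + 1, hb⟩) :: c) =
          (⟨2 * m, ha⟩ : Fin n) :: (⟨2 * m + 1, hb⟩ : Fin n) :: vts c := by
        simp [vts]
      rw [e, List.nodup_cons, List.nodup_cons]
      refine ⟨?_, ?_, h2⟩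
      · intro hm
        rw [List.mem_cons] at hm
        rcases hm with hm | hm
        · have := congrArg Fin.val hm
          simp at this
        · have := h3 _ hm
          simp at this
      · intro hm
        have := h3 _ hm
        simp at this
    · intro v hv
      have e : vts ((⟨2 * m, ha⟩, ⟨2 * m + 1, hb⟩) :: c) =
          (⟨2 * m, ha⟩ : Fin n) :: (⟨2 * m + 1, hb⟩ : Fin n) :: vts c := by
        simp [vts]
      rw [e, List.mem_cons, List.mem_cons] at hv
      rcases hv with rfl | rfl | hv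
      · show 2 * m < 2 * (m + 1)
        omega
      · show 2 * m + 1 < 2 * (m + 1)
        omega
      · have := h3 _ hv
        omega

theorem cf_nonneg {m n : ℕ} (h : 2 * m ≤ n) : 0 ≤ cf m n := by
  classical
  obtain ⟨c, h1, h2, -⟩ := cpb_couples m h
  have key := cpl_formula c (Finset.univ : Finset (Fin n)) h2 (fun v _ => Finset.mem_univ v)
  rw [h1, Finset.card_univ, Fintype.card_fin] at key
  rw [← key]
  exact Int.natCast_nonneg _

private theorem cpb_rec (m n : ℕ) : cf (m + 1) n = cf m n - 2 * cf m (n - 1) := by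
  unfold cf
  rw [Finset.sum_range_succ' _ (m + 1)]
  have h1 : ∑ j ∈ range (m + 1 + 1), (-2 : ℤ) ^ j * (m.choose j : ℤ) * ((n - j).factorial : ℤ) =
      ∑ j ∈ range (m + 1), (-2 : ℤ) ^ j * (m.choose j : ℤ) * ((n - j).factorial : ℤ) := by
    rw [Finset.sum_range_succ, Nat.choose_succ_self]
    simp
  rw [← h1, Finset.sum_range_succ' _ (m + 1), Finset.mul_sum, add_sub_right_comm,
    ← Finset.sum_sub_distrib]
  congr 1
  · refine Finset.sum_congr rfl (fun j _ => ?_)
    rw [Nat.choose_succ_succ', show n - (j + 1) = n - 1 - j by omega]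
    push_cast
    ring
  · simp

theorem cf_anti {m n : ℕ} (h : 2 * (m + 1) ≤ n) : cf (m + 1) n ≤ cf m n := by
  rw [cpb_rec]
  have := cf_nonneg (m := m) (n := n - 1) (by omega)
  linarith

theorem cf_le {m m' n : ℕ} (h : m ≤ m') (h' : 2 * m' ≤ n) : cf m' n ≤ cf m n := by
  induction m', h using Nat.le_induction with
  | base => exact le_rfl
  | succ k hk ih => exact (cf_anti h').trans (ih (by omega))

end Pool.Agent.H87.QK
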