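import Pool.Agent.H87.QK.Defs

/-!
# Module Grf: the graphs

* `ham_std`: build the closed walk `0, 1, ..., n-1, 0`: `SimpleGraph.Walk.ofSupport` for the list
  `List.finRange n ++ [0]` (or `List.finRange n`, then `cons`), it is a cycle of length `n`
  (`SimpleGraph.Walk.isHamiltonianCycle_iff_isCycle_and_length_eq`, `SimpleGraph.Walk.cons_isCycle_iff`); or induct.
* `GU`: the extremal graph for `2 k ≤ n`: `B = {0, 2, ..., 2k-2}`, the other vertices are `1, 3, ..., 2k-3` and the path
  `2k-1, ..., n-1`; all edges between `B` and the rest. Consecutive numbers are adjacent, `n-1` and `0` are adjacent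
  (`n - 1 ≥ 2k-1` is not in `B`). A vertex of `B` has degree `n - k ≥ k`, the others are adjacent to the `k` vertices of `B`,
  and the vertex `1` (`k ≥ 2`) exactly to those: minimum degree `k` (`|B| = k`).
* `GE`: complete graph on the vertices `≠ 0`; `0` is adjacent to `1, ..., k-1` and `n-1`: degree `k`; the others have degree
  at least `n - 2 ≥ k`.
-/

set_option autoImplicit false

open Finset

namespace Pool.Agent.H87.QK

/-- a graph on `Fin n` containing the standard cycle is Hamiltonian -/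
theorem ham_std {n : ℕ} (h3 : 3 ≤ n) {G : SimpleGraph (Fin n)}
    (h : ∀ i j : Fin n, i.val + 1 = j.val → G.Adj i j)
    (h0 : ∀ i j : Fin n, i.val = 0 → j.val + 1 = n → G.Adj i j) : G.IsHamiltonian := by
  obtain ⟨m, rfl⟩ : ∃ m, n = m + 3 := ⟨n - 3, by omega⟩
  have hle : SimpleGraph.cycleGraph (m + 3) ≤ G := by
    intro u v huv
    rw [SimpleGraph.cycleGraph_adj'] at huv
    have key : ∀ a b : Fin (m + 3), (a - b).val = 1 → G.Adj a b := by
      intro a b hab
      rw [Fin.val_sub] at hab
      have ha := a.isLt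
      have hb := b.isLt
      rcases le_or_gt b.val a.val with hle | hlt
      · have e : m + 3 - b.val + a.val = (a.val - b.val) + (m + 3) := by omega
        rw [e, Nat.add_mod_right, Nat.mod_eq_of_lt (by omega)] at hab
        exact (h b a (by omega)).symm
      · rw [Nat.mod_eq_of_lt (by omega)] at hab
        exact h0 a b (by omega) (by omega)
    rcases huv with h1 | h1
    · exact key u v h1
    · exact (key v u h1).symm
  refine SimpleGraph.IsHamiltonian.mono hle ?_
  intro _
  refine ⟨0, SimpleGraph.cycleGraph.cycle m, ?_⟩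
  rw [SimpleGraph.Walk.isHamiltonianCycle_iff_isCycle_and_length_eq]
  exact ⟨SimpleGraph.cycleGraph.isCycle_cycle, by
    rw [SimpleGraph.cycleGraph.length_cycle, Fintype.card_fin]⟩

/-- the independent set -/
def isB (k u : ℕ) : Prop := u < 2 * k ∧ u % 2 = 0

/-- the extremal graph -/
def GU (n k : ℕ) : SimpleGraph (Fin n) where
  Adj u v := (isB k u ∧ ¬ isB k v) ∨ (isB k v ∧ ¬ isB k u) ∨
    (2 * k - 1 ≤ u.val ∧ 2 * k - 1 ≤ v.val ∧ (u.val + 1 = v.val ∨ v.val + 1 = u.val))
  symm := ⟨by
    intro u v h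
    rcases h with h | h | ⟨h1, h2, h3⟩
    · exact Or.inr (Or.inl h)
    · exact Or.inl h
    · exact Or.inr (Or.inr ⟨h2, h1, h3.symm⟩)⟩
  loopless := ⟨by
    intro u h
    rcases h with h | h | ⟨_, _, h3⟩
    · exact h.2 h.1
    · exact h.2 h.1
    · omega⟩

/-- a dense Hamiltonian graph of minimum degree `k` -/
def GE (n k : ℕ) : SimpleGraph (Fin n) where
  Adj u v := u ≠ v ∧ ((u.val ≠ 0 ∧ v.val ≠ 0) ∨ (u.val = 0 ∧ (v.val < k ∨ v.val + 1 = n)) ∨
    (v.val = 0 ∧ (u.val < k ∨ u.val + 1 = n)))
  symm := ⟨by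
    intro u v h
    refine ⟨h.1.symm, ?_⟩
    rcases h.2 with h | h | h
    · exact Or.inl h.symm
    · exact Or.inr (Or.inr h)
    · exact Or.inr (Or.inl h)⟩
  loopless := ⟨by
    intro u h
    exact h.1 rfl⟩

end Pool.Agent.H87.QK
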