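import Pool.Agent.H87.QK.Cpb
import Pool.Agent.H87.QK.Grf

/-!
# Module Cpc: minimum degree n - 2

* `couples`: `G` on `V` with every degree at least `n - 2`: every vertex has at most one non-neighbour. So there is a
  list `c` of couples with `vts c` nodup and, for `u ≠ v`: `G.Adj u v` iff neither `(u, v)` nor `(v, u)` is in `c`: induction, or:
  take a list of the edges of the complement graph (`Gᶜ.edgeFinset.toList` with representatives `Sym2`: each edge
  `s(u, v)` gives a couple; two edges of the complement share no vertex).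
* `hamF_couples`: here `HL G l ↔ l ∈ ordF univ ∧ Fr c l` (`l` nodup; chain of `G.Adj`: all successor pairs are adjacent,
  `List.isChain_iff_forall_getElem...` or `List.isChain_split`), so `|hamF G| = cf |c| n` (`cpl_formula`).
* `hamF_dense`: `couples` and `hamF_couples`; `2 |c| = |vts c| ≤ n`.
-/

set_option autoImplicit false

open Finset

namespace Pool.Agent.H87.QK

variable {V : Type*} [Fintype V] [DecidableEq V]

private theorem Cpc_ne_of_sc {l : List V} (hl : l.Nodup) {a b : V} (h : [a, b] <:+: l) : a ≠ b := by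
  have h1 : [a, b].Nodup := hl.sublist h.sublist
  simp at h1
  exact h1

private theorem Cpc_adj_of_sc {G : SimpleGraph V} {l : List V} (hl : l.IsChain G.Adj) {a b : V}
    (h : [a, b] <:+: l) : G.Adj a b := by
  obtain ⟨a', b', e⟩ := sc_iff.1 (show Sc l a b from h)
  rw [e, List.isChain_append] at hl
  exact (List.isChain_cons_cons.1 hl.2.1).1

private theorem Cpc_hl_iff {G : SimpleGraph V} {c : List (V × V)}
    (hG : ∀ u v : V, u ≠ v → (G.Adj u v ↔ (u, v) ∉ c ∧ (v, u) ∉ c)) (l : List V) :
    HL G l ↔ l ∈ ordF (univ : Finset V) ∧ Fr c l := by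
  constructor
  · intro h
    refine ⟨mem_ordF.2 ⟨h.nd, fun v => ⟨fun _ => mem_univ v, fun _ => h.all v⟩⟩, ?_⟩
    intro e he hEd
    rcases hEd with hs | hs
    · have h1 := Cpc_adj_of_sc h.ch hs
      exact ((hG _ _ h1.ne).1 h1).1 he
    · have h1 := Cpc_adj_of_sc h.ch hs
      exact ((hG _ _ h1.ne).1 h1).2 he
  · rintro ⟨h1, h2⟩
    obtain ⟨hnd, hall⟩ := mem_ordF.1 h1
    refine ⟨hnd, fun v => (hall v).2 (mem_univ v), ?_⟩
    rw [List.isChain_iff_forall_rel_of_append_cons_cons]
    intro a b l₁ l₂ hl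
    have hsc : [a, b] <:+: l := ⟨l₁, l₂, by rw [hl]; simp⟩
    rw [hG a b (Cpc_ne_of_sc hnd hsc)]
    refine ⟨fun he => h2 _ he (Or.inl hsc), fun he => h2 _ he (Or.inr hsc)⟩

/-- the graph whose non-adjacent pairs are the couples of `c` -/
theorem hamF_couples {G : SimpleGraph V} {c : List (V × V)} (hnd : (vts c).Nodup)
    (hG : ∀ u v : V, u ≠ v → (G.Adj u v ↔ (u, v) ∉ c ∧ (v, u) ∉ c)) :
    ((hamF G).card : ℤ) = cf c.length (Fintype.card V) := by
  classical
  have h := cpl_formula c (univ : Finset V) hnd (fun v _ => mem_univ v)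
  rw [Finset.card_univ] at h
  rw [← h]
  congr 2
  ext l
  rw [mem_hamF, Finset.mem_filter]
  exact Cpc_hl_iff hG l

private theorem Cpc_vts_length (c : List (V × V)) : (vts c).length = 2 * c.length := by
  induction c with
  | nil => rfl
  | cons e c ih =>
    have : vts (e :: c) = e.1 :: e.2 :: vts c := rfl
    rw [this, List.length_cons, List.length_cons, ih, List.length_cons]
    ring

open Classical in
private theorem Cpc_unique {G : SimpleGraph V} {n : ℕ} (hn : Fintype.card V = n)
    (hk : ∀ u : V, n - 2 ≤ (univ.filter (fun w => G.Adj u w)).card) {u v w : V}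
    (huv : u ≠ v) (huw : u ≠ w) (h1 : ¬ G.Adj u v) (h2 : ¬ G.Adj u w) : v = w := by
  by_contra hne
  have hsub : (univ.filter (fun x => G.Adj u x)) ⊆ (univ : Finset V) \ {u, v, w} := by
    intro x hx
    rw [mem_filter] at hx
    rw [mem_sdiff]
    refine ⟨mem_univ x, ?_⟩
    intro hx2
    simp only [mem_insert, mem_singleton] at hx2
    rcases hx2 with rfl | rfl | rfl
    · exact G.loopless.irrefl _ hx.2
    · exact h1 hx.2
    · exact h2 hx.2
  have hcard : ({u, v, w} : Finset V).card = 3 := by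
    rw [card_eq_three]
    exact ⟨u, v, w, huv, huw, hne, rfl⟩
  have h3 := card_le_card hsub
  have h4 : ((univ : Finset V) \ {u, v, w}).card = Fintype.card V - 3 := by
    rw [card_sdiff_of_subset (subset_univ _), card_univ, hcard]
  have h5 : ({u, v, w} : Finset V).card ≤ Fintype.card V := card_le_univ _
  have h6 := hk u
  omega

private theorem Cpc_couples {G : SimpleGraph V}
    (hu : ∀ u v w : V, u ≠ v → u ≠ w → ¬ G.Adj u v → ¬ G.Adj u w → v = w) :
    ∃ c : List (V × V), (vts c).Nodup ∧
      ∀ u v : V, u ≠ v → (G.Adj u v ↔ (u, v) ∉ c ∧ (v, u) ∉ c) := by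
  classical
  let e := Fintype.equivFin V
  have hmem : ∀ p : V × V, p ∈ ((univ : Finset (V × V)).filter
      (fun p => ¬ G.Adj p.1 p.2 ∧ e p.1 < e p.2)).toList ↔ (¬ G.Adj p.1 p.2 ∧ e p.1 < e p.2) := by
    intro p
    rw [Finset.mem_toList, mem_filter]
    simp
  refine ⟨((univ : Finset (V × V)).filter
      (fun p => ¬ G.Adj p.1 p.2 ∧ e p.1 < e p.2)).toList, ?_, ?_⟩
  · unfold vts
    rw [List.nodup_flatMap]
    constructor
    · intro p hp
      have h1 := ((hmem p).1 hp).2
      have h2 : p.1 ≠ p.2 := fun h => by rw [h] at h1; exact lt_irrefl _ h1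
      simp [h2]
    · have hnd := Finset.nodup_toList ((univ : Finset (V × V)).filter
        (fun p => ¬ G.Adj p.1 p.2 ∧ e p.1 < e p.2))
      refine List.Pairwise.imp_of_mem ?_ hnd
      intro p q hp hq hpq
      obtain ⟨hp1, hp2⟩ := (hmem p).1 hp
      obtain ⟨hq1, hq2⟩ := (hmem q).1 hq
      have hpne : p.1 ≠ p.2 := fun h => by rw [h] at hp2; exact lt_irrefl _ hp2
      have hqne : q.1 ≠ q.2 := fun h => by rw [h] at hq2; exact lt_irrefl _ hq2
      have hp1' : ¬ G.Adj p.2 p.1 := fun h => hp1 h.symm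
      have hq1' : ¬ G.Adj q.2 q.1 := fun h => hq1 h.symm
      obtain ⟨a, b⟩ := p
      obtain ⟨a', b'⟩ := q
      simp only at *
      simp only [Function.onFun, List.disjoint_cons_left, List.mem_cons, List.not_mem_nil, or_false,
        List.disjoint_nil_left, and_true, not_or]
      refine ⟨⟨?_, ?_⟩, ?_, ?_⟩
      · rintro rfl
        exact hpq (by rw [hu a b b' hpne hqne hp1 hq1])
      · rintro rfl
        have := hu a b a' hpne hqne.symm hp1 hq1'
        subst this
        exact lt_irrefl _ (hp2.trans hq2)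
      · rintro rfl
        have := hu b a b' hpne.symm hqne hp1' hq1
        subst this
        exact lt_irrefl _ (hp2.trans hq2)
      · rintro rfl
        exact hpq (by rw [hu b a a' hpne.symm hqne.symm hp1' hq1'])
  · intro u v huv
    rw [hmem, hmem]
    constructor
    · intro h
      exact ⟨fun h1 => h1.1 h, fun h1 => h1.1 h.symm⟩
    · rintro ⟨h1, h2⟩
      by_contra h3
      have h4 : ¬ G.Adj v u := fun h => h3 h.symm
      have h5 : e u ≠ e v := fun h => huv (e.injective h)
      rcases lt_or_gt_of_ne h5 with h6 | h6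
      · exact h1 ⟨h3, h6⟩
      · exact h2 ⟨h4, h6⟩

open Classical in
theorem hamF_dense {G : SimpleGraph V} {n : ℕ} (hn : Fintype.card V = n) (h2 : 2 ≤ n)
    (hk : ∀ u : V, n - 2 ≤ (univ.filter (fun w => G.Adj u w)).card) :
    ∃ m : ℕ, 2 * m ≤ n ∧ ((hamF G).card : ℤ) = cf m n := by
  obtain ⟨c, hnd, hG⟩ := Cpc_couples (G := G)
    (fun u v w h1 h2 h3 h4 => Cpc_unique hn hk h1 h2 h3 h4)
  refine ⟨c.length, ?_, ?_⟩
  · rw [← Cpc_vts_length, ← hn]
    exact hnd.length_le_card
  · rw [← hn]
    exact hamF_couples hnd hG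

end Pool.Agent.H87.QK
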