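import Pool.Agent.H87.QK.Cpc

/-!
# Module Cpd: the complement of a maximum matching

* `GC`: on `Fin n`, `n ≥ 5`, `h = n / 2`: all pairs adjacent except `i, i + h`, `i < h`. Hamiltonian by `ham_std` (`h ≥ 2`,
  `n - 1 ≥ h + 2`...: `0` and `n - 1` are adjacent because `n - 1 ≠ h`), minimum degree `n - 2` (`0` misses `h`; everyone misses at
  most one), and its list of couples has length `h`: `|hamF| = cf h n`.
Use `hamF_couples` of Cpc for the count.
-/

set_option autoImplicit false

open Finset

namespace Pool.Agent.H87.QK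

/-- the complement of a maximum matching -/
def GC (n : ℕ) : SimpleGraph (Fin n) where
  Adj u v := u ≠ v ∧ ¬ (u.val < n / 2 ∧ v.val = u.val + n / 2) ∧
    ¬ (v.val < n / 2 ∧ u.val = v.val + n / 2)
  symm := ⟨fun _ _ h => ⟨h.1.symm, h.2.2, h.2.1⟩⟩
  loopless := ⟨fun _ h => h.1 rfl⟩

theorem gc_ham {n : ℕ} (hn : 5 ≤ n) : (GC n).IsHamiltonian := by
  refine ham_std (by omega) ?_ ?_
  · intro i j hij
    refine ⟨fun h => ?_, fun h => ?_, fun h => ?_⟩
    · rw [h] at hij
      omega
    · omega
    · omega
  · intro i j hi hj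
    refine ⟨fun h => ?_, fun h => ?_, fun h => ?_⟩
    · rw [h] at hi
      omega
    · omega
    · omega

private theorem Cpd_low {n : ℕ} (hn : 5 ≤ n) (u : Fin n) :
    ∃ p : Fin n, ∀ v : Fin n, v ≠ u → v ≠ p → (GC n).Adj u v := by
  have hu := u.isLt
  by_cases h1 : u.val < n / 2
  · refine ⟨⟨u.val + n / 2, by omega⟩, fun v hv hp => ⟨hv.symm, fun h => ?_, fun h => ?_⟩⟩
    · exact hp (Fin.ext h.2)
    · omega
  · refine ⟨⟨u.val - n / 2, by omega⟩, fun v hv hp => ⟨hv.symm, fun h => ?_, fun h => ?_⟩⟩
    · exact h1 h.1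
    · apply hp
      apply Fin.ext
      change v.val = u.val - n / 2
      omega

open Classical in
theorem gc_deg {n : ℕ} (hn : 5 ≤ n) : (GC n).minDegree = n - 2 := by
  haveI : Nonempty (Fin n) := ⟨⟨0, by omega⟩⟩
  apply le_antisymm
  · refine ((GC n).minDegree_le_degree ⟨0, by omega⟩).trans ?_
    rw [← SimpleGraph.card_neighborFinset_eq_degree]
    have hsub : (GC n).neighborFinset ⟨0, by omega⟩ ⊆
        (univ : Finset (Fin n)) \ {⟨0, by omega⟩, ⟨n / 2, by omega⟩} := by
      intro v hv
      rw [SimpleGraph.mem_neighborFinset] at hv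
      rw [mem_sdiff]
      refine ⟨mem_univ v, fun h => ?_⟩
      rw [mem_insert, mem_singleton] at h
      rcases h with h | h
      · exact hv.1 h.symm
      · apply hv.2.1
        rw [h]
        refine ⟨?_, ?_⟩
        · change 0 < n / 2
          omega
        · change n / 2 = 0 + n / 2
          omega
    refine (card_le_card hsub).trans ?_
    rw [card_sdiff_of_subset (subset_univ _), card_univ, Fintype.card_fin, card_pair]
    intro h
    have := congrArg Fin.val h
    change 0 = n / 2 at this
    omega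
  · refine (GC n).le_minDegree_of_forall_le_degree _ fun u => ?_
    obtain ⟨p, hp⟩ := Cpd_low hn u
    rw [← SimpleGraph.card_neighborFinset_eq_degree]
    have hsub : (univ : Finset (Fin n)) \ {u, p} ⊆ (GC n).neighborFinset u := by
      intro v hv
      rw [mem_sdiff, mem_insert, mem_singleton, not_or] at hv
      rw [SimpleGraph.mem_neighborFinset]
      exact hp v hv.2.1 hv.2.2
    refine le_trans ?_ (card_le_card hsub)
    rw [card_sdiff_of_subset (subset_univ _), card_univ, Fintype.card_fin]
    have : ({u, p} : Finset (Fin n)).card ≤ 2 := card_le_two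
    omega

private def Cpd_c (n : ℕ) : List (Fin n × Fin n) :=
  (List.finRange (n / 2)).map (fun i => (⟨i.val, by omega⟩, ⟨i.val + n / 2, by omega⟩))

private theorem Cpd_mem {n : ℕ} (u v : Fin n) :
    (u, v) ∈ Cpd_c n ↔ (u.val < n / 2 ∧ v.val = u.val + n / 2) := by
  unfold Cpd_c
  rw [List.mem_map]
  constructor
  · rintro ⟨i, _, hi⟩
    have h1 := congrArg (fun e => e.1.val) hi
    have h2 := congrArg (fun e => e.2.val) hi
    simp only at h1 h2
    have := i.isLt
    omega
  · rintro ⟨h1, h2⟩
    refine ⟨⟨u.val, h1⟩, List.mem_finRange _, ?_⟩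
    apply Prod.ext
    · exact Fin.ext rfl
    · exact Fin.ext h2.symm

private theorem Cpd_nodup (n : ℕ) : (vts (Cpd_c n)).Nodup := by
  unfold vts Cpd_c
  rw [List.nodup_flatMap]
  constructor
  · intro e he
    rw [List.mem_map] at he
    obtain ⟨i, _, rfl⟩ := he
    have := i.isLt
    have h : (⟨i.val, by omega⟩ : Fin n) ≠ ⟨i.val + n / 2, by omega⟩ := by
      intro h
      have h2 := congrArg Fin.val h
      simp only at h2
      omega
    simp only [List.nodup_cons, List.mem_singleton, List.not_mem_nil, not_false_eq_true,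
      List.nodup_nil, and_self, and_true]
    exact h
  · rw [List.pairwise_map]
    refine List.Pairwise.imp ?_ (List.nodup_finRange (n / 2))
    intro i j hij
    have h1 := i.isLt
    have h2 := j.isLt
    have h3 : i.val ≠ j.val := fun h => hij (Fin.ext h)
    simp only [Function.onFun, List.disjoint_cons_left, List.mem_cons, List.not_mem_nil, or_false,
      List.disjoint_nil_left, and_true, not_or, Fin.mk.injEq]
    omega

theorem gc_card {n : ℕ} (hn : 5 ≤ n) : ((hamF (GC n)).card : ℤ) = cf (n / 2) n := by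
  have h := hamF_couples (G := GC n) (c := Cpd_c n) (Cpd_nodup n) (by
    intro u v huv
    rw [Cpd_mem, Cpd_mem]
    exact ⟨fun h => ⟨h.2.1, h.2.2⟩, fun h => ⟨huv, h.1, h.2⟩⟩)
  rw [h]
  unfold Cpd_c
  rw [List.length_map, List.length_finRange, Fintype.card_fin]

end Pool.Agent.H87.QK
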