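import Pool.Agent.H87.QK.Cpa

/-!
# Module Cpf: the formula for orderings without adjacent couples

* `cpl_formula`: induction on `c` for all `s`. `c = []`: `card_ordF`. `c = (a, b) :: c'`: the orderings of `s` which are free for
  `c'` split into those with `Sc l a b`, those with `Sc l b a` (not both: nodup) and those which are free for `c`. So
  `cnt s c = cnt s c' - 2 cnt (s.erase b) c'` (with `cnt (s.erase a) c'` equal by the formula, same cardinality), and
  `Σ_j (-2)^j C(m,j) (n-j)! - 2 Σ_j (-2)^j C(m,j) (n-1-j)! = Σ_j (-2)^j C(m+1,j) (n-j)!` (Pascal, `Finset.sum_range_succ'`).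
-/

set_option autoImplicit false

open Finset

namespace Pool.Agent.H87.QK

variable {V : Type*} [Fintype V] [DecidableEq V]

private theorem Cpf_pascal (m n : ℕ) : cf (m + 1) n = cf m n - 2 * cf m (n - 1) := by
  have h1 : cf m n = ∑ j ∈ range (m + 1), (-2) ^ (j + 1) * (m.choose (j + 1) : ℤ) *
      ((n - (j + 1)).factorial : ℤ) + (n.factorial : ℤ) := by
    have h2 : cf m n = ∑ j ∈ range (m + 1 + 1), (-2) ^ j * (m.choose j : ℤ) *
        ((n - j).factorial : ℤ) := by
      rw [Finset.sum_range_succ, Nat.choose_succ_self]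
      unfold cf
      simp
    rw [h2, Finset.sum_range_succ']
    simp
  rw [h1]
  unfold cf
  rw [Finset.sum_range_succ', Finset.mul_sum]
  have h3 : ∀ j ∈ range (m + 1), (-2 : ℤ) ^ (j + 1) * ((m + 1).choose (j + 1) : ℤ) *
      ((n - (j + 1)).factorial : ℤ) =
      (-2) ^ (j + 1) * (m.choose (j + 1) : ℤ) * ((n - (j + 1)).factorial : ℤ) -
        2 * ((-2) ^ j * (m.choose j : ℤ) * ((n - 1 - j).factorial : ℤ)) := by
    intro j _
    rw [Nat.choose_succ_succ]
    have e : n - (j + 1) = n - 1 - j := by omega
    rw [e]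
    push_cast
    ring
  rw [Finset.sum_congr rfl h3, Finset.sum_sub_distrib]
  simp
  ring

omit [Fintype V] [DecidableEq V] in
private theorem Cpf_notboth {l : List V} (h : l.Nodup) {a b : V} (h1 : Sc l a b)
    (h2 : Sc l b a) : False := by
  obtain ⟨x, y, e1⟩ := sc_iff.1 h1
  obtain ⟨x', y', e2⟩ := sc_iff.1 h2
  have e3 : l = (x ++ [a]) ++ b :: y := by rw [e1]; simp
  have e4 : l = x' ++ b :: (a :: y') := e2
  obtain ⟨-, e5⟩ := split_unique h e3 e4
  rw [e1, e5, List.nodup_append] at h
  have h6 := h.2.1
  rw [List.nodup_cons] at h6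
  exact h6.1 (by simp)

open Classical in
theorem cpl_formula (c : List (V × V)) (s : Finset V) (hnd : (vts c).Nodup)
    (hs : ∀ v ∈ vts c, v ∈ s) :
    (((ordF s).filter (Fr c)).card : ℤ) = cf c.length s.card := by
  induction c generalizing s with
  | nil =>
    have h1 : (ordF s).filter (Fr ([] : List (V × V))) = ordF s := by
      apply Finset.filter_true_of_mem
      intro l _ e he
      exact absurd he (by simp)
    rw [h1, card_ordF]
    simp [cf]
  | cons e c ih =>
    obtain ⟨a, b⟩ := e
    have hv : vts ((a, b) :: c) = a :: b :: vts c := by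
      simp [vts]
    rw [hv] at hnd hs
    rw [List.nodup_cons, List.nodup_cons] at hnd
    obtain ⟨ha1, hb1, hc1⟩ := hnd
    rw [List.mem_cons, not_or] at ha1
    obtain ⟨hab, hac⟩ := ha1
    have has : a ∈ s := hs a (by simp)
    have hbs : b ∈ s := hs b (by simp)
    have hcs : ∀ v ∈ vts c, v ∈ s := fun v h => hs v (by simp [h])
    have i1 := ih s hc1 hcs
    have i2 := ih (s.erase b) hc1 (fun v h => Finset.mem_erase.2
      ⟨fun hvb => hb1 (hvb ▸ h), hcs v h⟩)
    rw [Finset.card_erase_of_mem hbs] at i2
    have m1 := merge (c := c) has hbs hab hac hb1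
    have m2 := merge' (c := c) has hbs hab hac hb1
    have hsplit : ((ordF s).filter (Fr c)).card =
        ((ordF s).filter (fun l => Sc l a b ∧ Fr c l)).card +
        ((ordF s).filter (fun l => Sc l b a ∧ Fr c l)).card +
        ((ordF s).filter (Fr ((a, b) :: c))).card := by
      have hd1 : Disjoint ((ordF s).filter (fun l => Sc l a b ∧ Fr c l))
          ((ordF s).filter (fun l => Sc l b a ∧ Fr c l)) := by
        rw [Finset.disjoint_left]
        intro l h1 h2
        rw [Finset.mem_filter] at h1 h2
        have hnd : l.Nodup := ((mem_ordF).1 h1.1).1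
        exact Cpf_notboth hnd h1.2.1 h2.2.1
      have hd2 : Disjoint ((ordF s).filter (fun l => Sc l a b ∧ Fr c l) ∪
          (ordF s).filter (fun l => Sc l b a ∧ Fr c l))
          ((ordF s).filter (Fr ((a, b) :: c))) := by
        rw [Finset.disjoint_left]
        intro l h1 h2
        rw [Finset.mem_union, Finset.mem_filter, Finset.mem_filter] at h1
        rw [Finset.mem_filter] at h2
        have h3 : ¬ Ed l a b := h2.2 (a, b) (by simp)
        rcases h1 with h1 | h1
        · exact h3 (Or.inl h1.2.1)
        · exact h3 (Or.inr h1.2.1)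
      rw [← Finset.card_union_of_disjoint hd1, ← Finset.card_union_of_disjoint hd2]
      congr 1
      ext l
      rw [Finset.mem_union, Finset.mem_union, Finset.mem_filter, Finset.mem_filter,
        Finset.mem_filter, Finset.mem_filter]
      have h4 : Fr ((a, b) :: c) l ↔ ¬ Ed l a b ∧ Fr c l := by
        unfold Fr
        rw [List.forall_mem_cons]
      rw [h4]
      unfold Ed
      tauto
    have hlen : ((a, b) :: c).length = c.length + 1 := rfl
    rw [hlen, Cpf_pascal, ← i1, ← i2, hsplit, m1, m2]
    push_cast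
    ring

end Pool.Agent.H87.QK
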