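import Pool.Agent.H87.QK.Det

/-!
# Module DeB: the number of detours

* `card_detours`: a path has at most `n - 1` edges (`SimpleGraph.Walk.IsPath.length_lt`), and there is one with
  `n - 1` edges (`hamF_nonempty`, `walk_of_hl`), so the detours are exactly the subgraphs `p.toSubgraph` of the paths with
  `n - 1` edges, whose supports are the Hamiltonian lists. The map `hamF G → detours G`, `l ↦ toSubgraph` of the
  walk of `l`, is surjective, and the fibre of `l` is `{l, l.reverse}` (`ed_unique`, `adj_toSubgraph`, `hl_reverse`, all vertices),
  with `l ≠ l.reverse` (different first vertices, length at least 2). `Finset.card_eq_sum_card_fiberwise`.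
-/

set_option autoImplicit false

open Finset

namespace Pool.Agent.H87.QK

variable {V : Type*} [Fintype V] [DecidableEq V]

/-- the subgraph of a Hamiltonian list -/
private def DeB_sub (G : SimpleGraph V) (l : List V) (h : HL G l) : G.Subgraph where
  verts := Set.univ
  Adj a b := Ed l a b
  adj_sub := by
    intro a b hab
    have key : ∀ x y, Sc l x y → G.Adj x y := by
      intro x y hxy
      obtain ⟨a', b', hl⟩ := sc_iff.1 hxy
      have h1 := h.ch
      rw [hl, List.isChain_append] at h1
      exact (List.isChain_cons_cons.1 h1.2.1).1
    rcases hab with h1 | h1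
    · exact key _ _ h1
    · exact (key _ _ h1).symm
  edge_vert := fun _ => Set.mem_univ _
  symm := ⟨fun _ _ hab => hab.symm⟩

private theorem DeB_toSubgraph {G : SimpleGraph V} {l : List V} (h : HL G l) {u v : V}
    (p : G.Walk u v) (hp : p.support = l) : p.toSubgraph = DeB_sub G l h := by
  apply SimpleGraph.Subgraph.ext
  · rw [SimpleGraph.Walk.verts_toSubgraph, hp]
    ext w
    simp [DeB_sub, h.all w]
  · funext a b
    apply propext
    rw [adj_toSubgraph p, hp]
    exact Iff.rfl

private theorem DeB_ne_reverse {G : SimpleGraph V} {l : List V} (h : HL G l)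
    (h3 : 3 ≤ Fintype.card V) : l ≠ l.reverse := by
  intro he
  have hl := hl_length h
  match l, h, he, hl with
  | [], _, _, hl => simp at hl; omega
  | [_], _, _, hl => simp at hl; omega
  | a :: b :: t, h, he, _ =>
    have h1 : (a :: b :: t).getLast? = some a := by
      rw [← List.head?_reverse, ← he]
      rfl
    have h2 : (b :: t).getLast? = some a := by
      rw [← h1, List.getLast?_cons_cons]
    have h4 : a ∈ b :: t := List.mem_of_getLast? h2
    exact (List.nodup_cons.1 h.nd).1 h4

theorem card_detours {G : SimpleGraph V} (hG : G.IsHamiltonian) (h3 : 3 ≤ Fintype.card V) :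
    2 * (detours G).ncard = (hamF G).card := by
  classical
  -- the map from lists to subgraphs
  let f : List V → G.Subgraph := fun l => if h : HL G l then DeB_sub G l h else ⊥
  have hf : ∀ l (h : HL G l), f l = DeB_sub G l h := fun l h => dif_pos h
  have him : detours G = ((hamF G).image f : Finset G.Subgraph) := by
    ext S
    rw [Finset.coe_image, Set.mem_image]
    constructor
    · rintro ⟨u, v, p, hp, hmax, rfl⟩
      obtain ⟨l0, hl0⟩ := hamF_nonempty hG h3
      obtain ⟨u', v', p', hs', hp', hlen'⟩ := walk_of_hl (mem_hamF.1 hl0) h3
      have h1 := hmax u' v' p' hp'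
      have h2 := hp.length_lt
      have hlen : p.length = Fintype.card V - 1 := by omega
      have hHL : HL G p.support := by
        refine ⟨hp.support_nodup, ?_, p.isChain_adj_support⟩
        have hc : p.support.toFinset = univ := by
          rw [← Finset.card_eq_iff_eq_univ, List.toFinset_card_of_nodup hp.support_nodup,
            SimpleGraph.Walk.length_support, hlen]
          omega
        intro w
        have := Finset.mem_univ w
        rw [← hc, List.mem_toFinset] at this
        exact this
      refine ⟨p.support, mem_hamF.2 hHL, ?_⟩
      rw [hf _ hHL, DeB_toSubgraph hHL p rfl]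
    · rintro ⟨l, hl, rfl⟩
      have hHL := mem_hamF.1 hl
      obtain ⟨u, v, p, hs, hp, hlen⟩ := walk_of_hl hHL h3
      refine ⟨u, v, p, hp, ?_, ?_⟩
      · intro u' v' p' hp'
        have := hp'.length_lt
        omega
      · rw [hf _ hHL, DeB_toSubgraph hHL p hs]
  rw [him, Set.ncard_coe_finset]
  have hfib : ∀ S ∈ (hamF G).image f, ((hamF G).filter (fun l => f l = S)).card = 2 := by
    intro S hS
    rw [Finset.mem_image] at hS
    obtain ⟨l, hl, rfl⟩ := hS
    have hHL := mem_hamF.1 hl
    have : (hamF G).filter (fun l' => f l' = f l) = {l, l.reverse} := by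
      ext l'
      rw [Finset.mem_filter, Finset.mem_insert, Finset.mem_singleton]
      constructor
      · rintro ⟨hl', he⟩
        have hHL' := mem_hamF.1 hl'
        rw [hf _ hHL, hf _ hHL'] at he
        refine ed_unique hHL.nd hHL'.nd (fun v => ⟨fun _ => hHL'.all v, fun _ => hHL.all v⟩) ?_
        intro a b
        have h1 : (DeB_sub G l' hHL').Adj a b ↔ (DeB_sub G l hHL).Adj a b := by rw [he]
        exact h1.symm
      · rintro (rfl | rfl)
        · exact ⟨hl, rfl⟩
        · have hR := hl_reverse hHL
          refine ⟨mem_hamF.2 hR, ?_⟩
          rw [hf _ hHL, hf _ hR]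
          apply SimpleGraph.Subgraph.ext
          · rfl
          · funext a b
            exact propext ed_reverse
    rw [this, Finset.card_pair (DeB_ne_reverse hHL h3)]
  rw [Finset.card_eq_sum_card_image f (hamF G), Finset.sum_congr rfl hfib, Finset.sum_const,
    smul_eq_mul, mul_comm]

end Pool.Agent.H87.QK
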