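import Mathlib

/-!
# MP_1bb854_co: the minimum number of Hamiltonian paths, definitions

Directed Hamiltonian paths are lists. `π` is the cyclic permutation of a fixed Hamiltonian cycle
(`C`-edges are the pairs with `Hd π`), the other edges of `G` are chords.
-/

set_option autoImplicit false

open Finset

namespace Pool.Agent.H87.QK

variable {V : Type*} [Fintype V] [DecidableEq V]

/-- `u v` is an edge of the cycle of `π` -/
def Hd (π : Equiv.Perm V) (u v : V) : Prop := π u = v ∨ π v = u

instance (π : Equiv.Perm V) : DecidableRel (Hd π) :=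
  fun u v => inferInstanceAs (Decidable (π u = v ∨ π v = u))

/-- chords: edges of `G` which are not edges of the cycle -/
def Ch (G : SimpleGraph V) (π : Equiv.Perm V) (u v : V) : Prop := G.Adj u v ∧ ¬ Hd π u v

/-- directed Hamiltonian paths, as lists of vertices -/
structure HL (G : SimpleGraph V) (l : List V) : Prop where
  nd : l.Nodup
  all : ∀ v : V, v ∈ l
  ch : l.IsChain G.Adj

/-- all orderings of a finite set -/
def ordF (s : Finset V) : Finset (List V) := ⟨s.val.lists, Multiset.lists_nodup_finset s⟩

open Classical in
/-- the finite set of directed Hamiltonian paths -/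
noncomputable def hamF (G : SimpleGraph V) : Finset (List V) :=
  (ordF (univ : Finset V)).filter (HL G)

/-- number of chords of a list -/
def lev (π : Equiv.Perm V) : List V → ℕ
  | [] => 0
  | [_] => 0
  | a :: b :: l => (if Hd π a b then 0 else 1) + lev π (b :: l)

/-- `q` is the successor of `p` in the list -/
def Sc (P : List V) (p q : V) : Prop := [p, q] <:+: P

/-- `p q` is an edge of the path -/
def Ed (P : List V) (p q : V) : Prop := Sc P p q ∨ Sc P q p

/-- alternating walks: cycle edge, `E`-edge, cycle edge, ..., cycle edge, with `t` edges of `E` -/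
inductive Tw (π : Equiv.Perm V) (E : V → V → Prop) : ℕ → V → V → Prop
  | base {a b : V} : Hd π a b → Tw π E 0 a b
  | step {t : ℕ} {a b c d : V} : Tw π E t a b → E b c → Hd π c d → Tw π E (t + 1) a d

/-- a directed Hamiltonian path with `j` chords from `v` to `x` of age `t`; `R` is the set of recent
chords -/
structure St (G : SimpleGraph V) (π : Equiv.Perm V) (j t : ℕ) (P : List V) (v x : V)
    (R : Finset (Sym2 V)) : Prop where
  hl : HL G P
  lv : lev π P = j
  hd : P.head? = some v
  la : P.getLast? = some x
  cd : R.card ≤ t
  rc : ∀ b c : V, s(b, c) ∈ R → ¬ Hd π b c ∧ Ed P b c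
  tw : Tw π (fun b c => s(b, c) ∈ R) t v x

open Classical in
/-- the paths with `j` chords and age `t` -/
noncomputable def SS (G : SimpleGraph V) (π : Equiv.Perm V) (j t : ℕ) : Finset (List V) :=
  (ordF (univ : Finset V)).filter (fun P => ∃ v x R, St G π j t P v x R)

open Classical in
/-- good rotations at the last vertex -/
noncomputable def Fx (G : SimpleGraph V) (π : Equiv.Perm V) (P : List V) : Finset V :=
  univ.filter (fun p => ∃ x q, P.getLast? = some x ∧ Sc P p q ∧ Ch G π p x ∧ Hd π p q)

open Classical in
/-- closable positions -/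
noncomputable def AB (G : SimpleGraph V) (π : Equiv.Perm V) (P : List V) : Finset V :=
  univ.filter (fun p => ∃ v x q, P.head? = some v ∧ P.getLast? = some x ∧ Sc P p q ∧
    Ch G π p x ∧ Ch G π q v ∧ Ch G π p q)

open Classical in
/-- closable positions whose edge is not recent -/
noncomputable def ABR (G : SimpleGraph V) (π : Equiv.Perm V) (P : List V) (R : Finset (Sym2 V)) :
    Finset V :=
  univ.filter (fun p => ∃ v x q, P.head? = some v ∧ P.getLast? = some x ∧ Sc P p q ∧
    Ch G π p x ∧ Ch G π q v ∧ Ch G π p q ∧ s(p, q) ∉ R)

/-- rotation: reverse the part of the list after `p` -/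
def rot (P : List V) (p : V) : List V :=
  P.take (P.idxOf p + 1) ++ (P.drop (P.idxOf p + 1)).reverse

/-- cut the cyclic list after `c` -/
def cut (P : List V) (c : V) : List V :=
  P.drop (P.idxOf c + 1) ++ P.take (P.idxOf c + 1)

/-- the detours of a graph: the longest paths, as subgraphs -/
def detours (G : SimpleGraph V) : Set G.Subgraph :=
  {S | ∃ (u v : V) (p : G.Walk u v), p.IsPath ∧
    (∀ (u' v' : V) (p' : G.Walk u' v'), p'.IsPath → p'.length ≤ p.length) ∧ S = p.toSubgraph}

open Classical in
/-- `q k n`: the minimum number of detours of a Hamiltonian graph of order `n` with minimum degree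
`k` -/
noncomputable def q (k n : ℕ) : ℕ :=
  sInf {c : ℕ | ∃ G : SimpleGraph (Fin n), G.IsHamiltonian ∧ G.minDegree = k ∧
    c = (detours G).ncard}

end Pool.Agent.H87.QK
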