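import Pool.Agent.H87.QK.ScL

/-!
# Module EdU: a path is determined by its edges up to reversal

* `eq_of_head`: induction on `s` (for all `v`, `s'`). If `s = []` then `v :: s` has no edge; if `s'` were `w' :: s''` it would
  have the edge `v w'`. If `s = w :: s1`: `Ed (v :: s) v w`, so `Ed (v :: s') v w`, and `v` is the head of a nodup list, so
  `Sc (v :: s') v w` and `s' = w :: s1'`. The edges of `w :: s1` are the edges `a b` of `v :: w :: s1` with `a ≠ v`, `b ≠ v`
  (nodup); the same for `s1'`. Induction hypothesis with `w`.
* `ed_unique`: `l = []` or `l = [v]`: clear from `hv` (the lists are nodup with the same members). Otherwise let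
  `v = head l'`; it has exactly one neighbour in `l'` (`sc_ne_head`, uniqueness), a vertex of `l` which is neither the first nor the
  last has two different neighbours (`exists_succ`, `exists_pred`, `split_unique`), so `v` is the head or the last vertex of `l`.
  In the first case `eq_of_head`, in the second case `eq_of_head` for `l.reverse` (`ed_reverse`).
-/

set_option autoImplicit false

open Finset

namespace Pool.Agent.H87.QK

variable {V : Type*}

theorem sc_cons_iff {v a b : V} {t : List V} :
    Sc (v :: t) a b ↔ (a = v ∧ ∃ t', t = b :: t') ∨ Sc t a b := by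
  unfold Sc
  rw [List.infix_cons_iff]
  constructor
  · rintro (h | h)
    · left
      rw [List.cons_prefix_cons] at h
      refine ⟨h.1, ?_⟩
      obtain ⟨t', ht⟩ := h.2
      exact ⟨t', by rw [← ht]; rfl⟩
    · exact Or.inr h
  · rintro (⟨rfl, t', rfl⟩ | h)
    · left
      exact ⟨t', rfl⟩
    · exact Or.inr h

theorem ed_tail {v : V} {t : List V} (h : (v :: t).Nodup) (a b : V) :
    Ed t a b ↔ Ed (v :: t) a b ∧ a ≠ v ∧ b ≠ v := by
  have hv : v ∉ t := (List.nodup_cons.1 h).1
  have hm : ∀ p q, Sc t p q → p ∈ t ∧ q ∈ t := by
    intro p q hpq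
    have := hpq.subset
    exact ⟨this (by simp), this (by simp)⟩
  unfold Ed
  rw [sc_cons_iff, sc_cons_iff]
  constructor
  · rintro (h1 | h1)
    · have := hm _ _ h1
      exact ⟨Or.inl (Or.inr h1), fun e => hv (e ▸ this.1), fun e => hv (e ▸ this.2)⟩
    · have := hm _ _ h1
      exact ⟨Or.inr (Or.inr h1), fun e => hv (e ▸ this.2), fun e => hv (e ▸ this.1)⟩
  · rintro ⟨(⟨h1, -⟩ | h1) | (⟨h1, -⟩ | h1), h2, h3⟩
    · exact absurd h1 h2
    · exact Or.inl h1
    · exact absurd h1 h3
    · exact Or.inr h1

theorem eq_of_head {v : V} {s s' : List V} (h : (v :: s).Nodup) (h' : (v :: s').Nodup)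
    (hE : ∀ a b, Ed (v :: s) a b ↔ Ed (v :: s') a b) : s = s' := by
  induction s generalizing v s' with
  | nil =>
    cases s' with
    | nil => rfl
    | cons w' s'' =>
      exfalso
      have h1 : Ed (v :: w' :: s'') v w' := Or.inl (sc_cons_iff.2 (Or.inl ⟨rfl, s'', rfl⟩))
      have h2 := (hE v w').2 h1
      have hsub : ∀ p q, ¬ Sc [v] p q := by
        intro p q hpq
        rcases sc_cons_iff.1 hpq with ⟨-, t', ht⟩ | h3
        · cases ht
        · exact absurd (h3.subset (show p ∈ [p, q] by simp)) (by simp)
      rcases h2 with h2 | h2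
      · exact hsub _ _ h2
      · exact hsub _ _ h2
  | cons w s1 ih =>
    have h1 : Ed (v :: w :: s1) v w := Or.inl (sc_cons_iff.2 (Or.inl ⟨rfl, s1, rfl⟩))
    have h2 := (hE v w).1 h1
    have hv' : v ∉ s' := (List.nodup_cons.1 h').1
    have hwv : w ≠ v := by
      rintro rfl
      exact (List.nodup_cons.1 h).1 (by simp)
    have h3 : ∃ t', s' = w :: t' := by
      rcases h2 with h2 | h2
      · rcases sc_cons_iff.1 h2 with ⟨-, h3⟩ | h3
        · exact h3
        · exact absurd (h3.subset (show v ∈ [v, w] by simp)) hv'
      · rcases sc_cons_iff.1 h2 with ⟨h3, -⟩ | h3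
        · exact absurd h3 hwv
        · exact absurd (h3.subset (show v ∈ [w, v] by simp)) hv'
    obtain ⟨t', rfl⟩ := h3
    have := ih (v := w) (s' := t') (List.nodup_cons.1 h).2 (List.nodup_cons.1 h').2 (by
      intro a b
      rw [ed_tail h, ed_tail h', hE])
    rw [this]

theorem ed_unique {l l' : List V} (h : l.Nodup) (h' : l'.Nodup) (hv : ∀ v, v ∈ l ↔ v ∈ l')
    (hE : ∀ a b, Ed l a b ↔ Ed l' a b) : l' = l ∨ l' = l.reverse := by
  cases l' with
  | nil =>
    left
    symm
    rw [List.eq_nil_iff_forall_not_mem]
    intro a ha
    exact absurd ((hv a).1 ha) (by simp)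
  | cons v t' =>
    have hvl : v ∈ l := (hv v).2 (by simp)
    have hne : l ≠ [] := by
      rintro rfl
      simp at hvl
    obtain ⟨u, hu⟩ : ∃ u, l.head? = some u := by
      cases l with
      | nil => exact absurd rfl hne
      | cons a l => exact ⟨a, rfl⟩
    obtain ⟨x, hx⟩ : ∃ x, l.getLast? = some x := ⟨l.getLast hne, List.getLast?_eq_some_getLast hne⟩
    by_cases h1 : v = u
    · subst h1
      left
      cases l with
      | nil => exact absurd rfl hne
      | cons a l =>
        have ha : a = v := by simpa using hu
        subst ha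
        rw [eq_of_head h h' hE]
    · by_cases h2 : v = x
      · subst h2
        right
        have hr : l.reverse.head? = some v := by rw [List.head?_reverse]; exact hx
        have hn : l.reverse.Nodup := List.nodup_reverse.2 h
        have hE' : ∀ a b, Ed l.reverse a b ↔ Ed (v :: t') a b := by
          intro a b
          rw [ed_reverse]
          exact hE a b
        generalize l.reverse = m at hr hn hE'
        cases m with
        | nil => simp at hr
        | cons a m =>
          have ha : a = v := by simpa using hr
          subst ha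
          rw [eq_of_head hn h' hE']
      · exfalso
        obtain ⟨q, hq⟩ := exists_succ hvl hx h2
        obtain ⟨p, hp⟩ := exists_pred hvl hu h1
        have hhd : (v :: t').head? = some v := rfl
        have hq' : Sc (v :: t') v q := by
          rcases (hE v q).1 (Or.inl hq) with h3 | h3
          · exact h3
          · exact absurd rfl (sc_ne_head h' h3 hhd)
        have hp' : Sc (v :: t') v p := by
          rcases (hE v p).1 (Or.inr hp) with h3 | h3
          · exact h3
          · exact absurd rfl (sc_ne_head h' h3 hhd)
        have hpq : q = p := sc_right_unique h' hq' hp'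
        subst hpq
        obtain ⟨a, b, hab⟩ := sc_iff.1 hq
        obtain ⟨a', b', hab'⟩ := sc_iff.1 hp
        have h4 : l = (a ++ [v]) ++ q :: b := by rw [hab]; simp
        have h5 := split_unique h h4 hab'
        rw [h5.2] at hab
        rw [hab] at h
        have := (List.nodup_append.1 h).2.1
        simp at this

end Pool.Agent.H87.QK
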