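import Pool.Agent.H87.QK.Ini

/-!
# Module InB: the starting paths

For every `i < n` the rotated list `c.rotate i` is a Hamiltonian list: nodup, all vertices, consecutive vertices are `u, π u` with
`π = c.formPerm` (`List.formPerm_rotate`: `(c.rotate i).formPerm = c.formPerm`, and `List.formPerm_apply_lt_getElem`), adjacent by
`ha`. All its consecutive pairs satisfy `Hd`, so `lev = 0`. Its head `v` and last vertex `x` satisfy `π x = v`
(`List.formPerm_apply_getLast` or `List.formPerm_apply_getElem`). So it is in `SS 0 0` (`v`, `x`, `R = ∅`, `Tw.base`). The `n` lists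
`c.rotate i`, `i < n`, have different heads `c[i]`. Image of `range n` under an injective map.
-/

set_option autoImplicit false

open Finset

namespace Pool.Agent.H87.QK

variable {V : Type*} [Fintype V] [DecidableEq V]

private theorem inB_lev {π : Equiv.Perm V} : ∀ (l : List V), l.IsChain (fun u v => π u = v) → lev π l = 0
  | [], _ => rfl
  | [_], _ => rfl
  | a :: b :: l, h => by
      rw [List.isChain_cons_cons] at h
      have h1 : Hd π a b := Or.inl h.1
      simp only [lev, if_pos h1, inB_lev (b :: l) h.2]

theorem start_card {G : SimpleGraph V} {c : List V} (hc : c.Nodup) (hv : ∀ v, v ∈ c)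
    (h3 : 3 ≤ Fintype.card V) (ha : ∀ u : V, G.Adj u (c.formPerm u)) :
    Fintype.card V ≤ (SS G c.formPerm 0 0).card := by
  classical
  have hlen : c.length = Fintype.card V := by
    rw [← List.toFinset_card_of_nodup hc]
    have : c.toFinset = (univ : Finset V) := by
      ext v
      simp [hv v]
    rw [this, Finset.card_univ]
  have hmem : ∀ i, c.rotate i ∈ SS G c.formPerm 0 0 := by
    intro i
    set l := c.rotate i with hl
    have hnd : l.Nodup := List.nodup_rotate.2 hc
    have hall : ∀ v, v ∈ l := fun v => List.mem_rotate.2 (hv v)
    have hperm : l.formPerm = c.formPerm := List.formPerm_rotate c hc i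
    have hchain : l.IsChain (fun u v => c.formPerm u = v) := by
      rw [List.isChain_iff_getElem]
      intro j hj
      rw [← hperm]
      exact List.formPerm_apply_lt_getElem l hnd j hj
    have hne : l ≠ [] := by
      intro h0
      have : l.length = Fintype.card V := by rw [hl, List.length_rotate, hlen]
      rw [h0] at this
      simp at this
      omega
    obtain ⟨v, l', hvl⟩ := List.exists_cons_of_ne_nil hne
    have hlast : c.formPerm (l.getLast hne) = v := by
      rw [← hperm]
      simp only [hvl]
      exact List.formPerm_apply_getLast v l'
    unfold SS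
    rw [Finset.mem_filter]
    refine ⟨?_, v, l.getLast hne, ∅, ?_⟩
    · show l ∈ (univ : Finset V).val.lists
      rw [Multiset.mem_lists_iff]
      refine (Multiset.Nodup.ext univ.nodup (by simpa using hnd)).2 ?_
      intro w
      simp [hall w]
    · refine ⟨⟨hnd, hall, ?_⟩, inB_lev l hchain, ?_, ?_, ?_, ?_, ?_⟩
      · refine hchain.imp ?_
        intro a b hab
        rw [← hab]
        exact ha a
      · rw [hvl]; rfl
      · exact List.getLast?_eq_some_getLast hne
      · simp
      · intro b d hbd
        simp at hbd
      · exact Tw.base (Or.inr hlast)
  have hinj : Set.InjOn (fun i => c.rotate i) (↑(Finset.range (Fintype.card V)) : Set ℕ) := by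
    intro i hi j hj hij
    simp only [Finset.coe_range, Set.mem_Iio] at hi hj
    have hi' : i < c.length := by omega
    have hj' : j < c.length := by omega
    have h1 : (c.rotate i).head? = (c.rotate j).head? := congrArg List.head? hij
    rw [List.head?_rotate hi', List.head?_rotate hj'] at h1
    rw [List.getElem?_eq_getElem hi', List.getElem?_eq_getElem hj'] at h1
    exact (List.Nodup.getElem_inj_iff hc).1 (Option.some.inj h1)
  calc Fintype.card V = (Finset.range (Fintype.card V)).card := (Finset.card_range _).symm
    _ = ((Finset.range (Fintype.card V)).image (fun i => c.rotate i)).card :=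
        (Finset.card_image_of_injOn hinj).symm
    _ ≤ (SS G c.formPerm 0 0).card := by
        apply Finset.card_le_card
        intro l hl
        rw [Finset.mem_image] at hl
        obtain ⟨i, _, rfl⟩ := hl
        exact hmem i

end Pool.Agent.H87.QK
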