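import Pool.Agent.H87.QK.HLL
import Pool.Agent.H87.QK.EdU
import Pool.Agent.H87.QK.InB

/-!
# Module Det: detours and Hamiltonian lists

* `walk_of_hl`: `SimpleGraph.Walk.ofSupport`, `SimpleGraph.Walk.support_ofSupport`; it is a path since its support is
  nodup, its length is `l.length - 1` (`SimpleGraph.Walk.length_support`).
* `adj_toSubgraph`: for a walk `p`, `p.toSubgraph.Adj a b ↔ Ed p.support a b` (induction on `p`;
  `SimpleGraph.Walk.toSubgraph`, `Sc (u :: v :: l) a b ↔ (a = u ∧ b = v) ∨ Sc (v :: l) a b`).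
* `hamF_nonempty`: `start_card` (a state is a Hamiltonian list).
-/

set_option autoImplicit false

open Finset

namespace Pool.Agent.H87.QK

variable {V : Type*} [Fintype V] [DecidableEq V]

theorem walk_of_hl {G : SimpleGraph V} {l : List V} (h : HL G l) (h3 : 3 ≤ Fintype.card V) :
    ∃ (u v : V) (p : G.Walk u v), p.support = l ∧ p.IsPath ∧ p.length = Fintype.card V - 1 := by
  have hne : l ≠ [] := by
    rintro rfl
    have := hl_length h
    simp at this
    omega
  have hs : (SimpleGraph.Walk.ofSupport l hne h.ch).support = l :=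
    SimpleGraph.Walk.support_ofSupport hne h.ch
  refine ⟨_, _, SimpleGraph.Walk.ofSupport l hne h.ch, hs, ?_, ?_⟩
  · rw [SimpleGraph.Walk.isPath_def, hs]
    exact h.nd
  · rw [SimpleGraph.Walk.length_ofSupport hne h.ch, hl_length h]

omit [Fintype V] [DecidableEq V] in
private theorem Det_sc_cons {u v a b : V} {l : List V} :
    Sc (u :: v :: l) a b ↔ (a = u ∧ b = v) ∨ Sc (v :: l) a b := by
  unfold Sc
  rw [List.infix_cons_iff]
  simp [List.cons_prefix_cons]

omit [Fintype V] [DecidableEq V] in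
theorem adj_toSubgraph {G : SimpleGraph V} {u v : V} (p : G.Walk u v) {a b : V} :
    p.toSubgraph.Adj a b ↔ Ed p.support a b := by
  induction p with
  | nil =>
    have h1 : ∀ x y z : V, ¬ Sc [x] y z := by
      intro x y z h
      have := h.length_le
      simp at this
    simp [SimpleGraph.Walk.toSubgraph, Ed, h1]
  | @cons u w v h p ih =>
    rw [SimpleGraph.Walk.support_cons]
    obtain ⟨t, ht⟩ : ∃ t, p.support = w :: t := ⟨_, (SimpleGraph.Walk.cons_tail_support p).symm⟩
    rw [ht] at ih ⊢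
    unfold Ed at ih ⊢
    rw [Det_sc_cons, Det_sc_cons]
    simp only [SimpleGraph.Walk.toSubgraph, SimpleGraph.Subgraph.sup_adj, ih,
      SimpleGraph.subgraphOfAdj_adj, Sym2.eq_iff]
    constructor
    · rintro ((⟨h1, h2⟩ | ⟨h1, h2⟩) | (h1 | h1))
      · exact Or.inl (Or.inl ⟨h1.symm, h2.symm⟩)
      · exact Or.inr (Or.inl ⟨h1.symm, h2.symm⟩)
      · exact Or.inl (Or.inr h1)
      · exact Or.inr (Or.inr h1)
    · rintro ((⟨h1, h2⟩ | h1) | (⟨h1, h2⟩ | h1))
      · exact Or.inl (Or.inl ⟨h1.symm, h2.symm⟩)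
      · exact Or.inr (Or.inl h1)
      · exact Or.inl (Or.inr ⟨h1.symm, h2.symm⟩)
      · exact Or.inr (Or.inr h1)

theorem hamF_nonempty {G : SimpleGraph V} (hG : G.IsHamiltonian) (h3 : 3 ≤ Fintype.card V) :
    (hamF G).Nonempty := by
  classical
  obtain ⟨c, hc, hv, ha⟩ := exists_perm hG h3
  have h1 := start_card hc hv h3 ha
  have h2 : (SS G c.formPerm 0 0).Nonempty := by
    rw [← Finset.card_pos]
    omega
  obtain ⟨P, hP⟩ := h2
  unfold SS at hP
  rw [Finset.mem_filter] at hP
  obtain ⟨-, v, x, R, hst⟩ := hP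
  exact ⟨P, mem_hamF.2 hst.hl⟩

end Pool.Agent.H87.QK
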