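import Pool.Agent.H87.QK.Enc

/-!
# Module EnB: counting orderings with two prescribed blocks

* `card_two`: `M1 = m1 :: M1'`, `M2 = m2 :: M2'` disjoint nodup. For `P` with both blocks: `P1 = P.filter (· ∉ M1')`, `P` is
  recovered from `P1` by `expand`; `M2` is a block of `P1` (write `P = a ++ M1 ++ b`; the block `M2` is disjoint from `M1`, so it lies
  in `a` or in `b`, or use `block` for `P1`), `P2 = P1.filter (· ∉ M2')` is an ordering of `univ \ (M1' ∪ M2')`, and `P1` is recovered from
  `P2`. So the set is contained in the image of `ordF (univ \ (M1' ∪ M2'))` under a map: at most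
  `(n - |M1'| - |M2'|)!` elements (`Finset.card_image_le`).
* `card_blocks`: the union over the four orientations.
-/

set_option autoImplicit false

open Finset

namespace Pool.Agent.H87.QK

variable {V : Type*} [Fintype V] [DecidableEq V]

open Classical in
theorem card_two {M1 M2 : List V} (h1 : M1 ≠ []) (h2 : M2 ≠ []) (hnd : (M1 ++ M2).Nodup) :
    ((ordF (univ : Finset V)).filter (fun P => M1 <:+: P ∧ M2 <:+: P)).card ≤
      (Fintype.card V - M1.length - M2.length + 2).factorial := by
  obtain ⟨m1, M1', rfl⟩ := List.exists_cons_of_ne_nil h1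
  obtain ⟨m2, M2', rfl⟩ := List.exists_cons_of_ne_nil h2
  have hnd' := hnd
  rw [List.nodup_append'] at hnd'
  obtain ⟨k1, k2, k3⟩ := hnd'
  have k1' : M1'.Nodup := (List.nodup_cons.1 k1).2
  have k2' : M2'.Nodup := (List.nodup_cons.1 k2).2
  have hdis : ∀ v ∈ M1', v ∉ M2' := fun v hv hv' =>
    k3 (List.mem_cons_of_mem _ hv) (List.mem_cons_of_mem _ hv')
  set T : Finset V := univ \ (M1'.toFinset ∪ M2'.toFinset) with hT
  have hle : (m1 :: M1').length + (m2 :: M2').length ≤ Fintype.card V := by
    rw [← List.length_append, ← List.toFinset_card_of_nodup hnd]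
    exact Finset.card_le_univ _
  have hTc : T.card = Fintype.card V - (m1 :: M1').length - (m2 :: M2').length + 2 := by
    have e1 : (M1'.toFinset ∪ M2'.toFinset).card = M1'.length + M2'.length := by
      rw [Finset.card_union_of_disjoint, List.toFinset_card_of_nodup k1',
        List.toFinset_card_of_nodup k2']
      rw [Finset.disjoint_left]
      intro v hv hv'
      exact hdis v (List.mem_toFinset.1 hv) (List.mem_toFinset.1 hv')
    rw [hT, Finset.card_sdiff_of_subset (Finset.subset_univ _), Finset.card_univ, e1]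
    simp only [List.length_cons] at hle ⊢
    omega
  rw [← hTc, ← card_ordF T]
  refine le_trans (Finset.card_le_card (t := (ordF T).image (fun L =>
    (L.flatMap (fun v => if v = m2 then m2 :: M2' else [v])).flatMap
      (fun v => if v = m1 then m1 :: M1' else [v]))) ?_) Finset.card_image_le
  intro P hP
  rw [Finset.mem_filter, mem_ordF] at hP
  obtain ⟨⟨hPn, hPa⟩, hb1, hb2⟩ := hP
  rw [Finset.mem_image]
  have hf : (m2 :: M2').filter (fun v => decide (v ∉ M1')) = m2 :: M2' := by
    rw [List.filter_eq_self]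
    intro v hv
    have : v ∉ M1' := fun hh => k3 (List.mem_cons_of_mem _ hh) hv
    simpa using this
  have hb3 : (m2 :: M2') <:+: P.filter (fun v => decide (v ∉ M1')) := by
    obtain ⟨s, t, hst⟩ := hb2
    refine ⟨s.filter (fun v => decide (v ∉ M1')), t.filter (fun v => decide (v ∉ M1')), ?_⟩
    rw [← hst, List.filter_append, List.filter_append, hf]
  have hP1 : (P.filter (fun v => decide (v ∉ M1'))).Nodup := hPn.filter _
  refine ⟨(P.filter (fun v => decide (v ∉ M1'))).filter (fun v => decide (v ∉ M2')), ?_, ?_⟩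
  · rw [mem_ordF]
    refine ⟨hP1.filter _, fun v => ?_⟩
    rw [hT, Finset.mem_sdiff, Finset.mem_union, List.mem_toFinset, List.mem_toFinset,
      List.mem_filter, List.mem_filter, hPa v]
    simp only [Finset.mem_univ, decide_eq_true_eq, true_and, not_or]
  · have e1 := expand hPn hb1
    have e2 := expand hP1 hb3
    rw [← e2, ← e1]

open Classical in
theorem card_blocks {M1 M2 : List V} (h1 : M1 ≠ []) (h2 : M2 ≠ []) (hnd : (M1 ++ M2).Nodup) :
    ((ordF (univ : Finset V)).filter (fun P => (M1 <:+: P ∨ M1.reverse <:+: P) ∧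
      (M2 <:+: P ∨ M2.reverse <:+: P))).card ≤
      4 * (Fintype.card V - M1.length - M2.length + 2).factorial := by
  have hnd' := hnd
  rw [List.nodup_append'] at hnd'
  obtain ⟨k1, k2, k3⟩ := hnd'
  have r1 : M1.reverse ≠ [] := fun h => h1 (List.reverse_eq_nil_iff.1 h)
  have r2 : M2.reverse ≠ [] := fun h => h2 (List.reverse_eq_nil_iff.1 h)
  have n12 : (M1 ++ M2.reverse).Nodup := by
    rw [List.nodup_append']
    refine ⟨k1, List.nodup_reverse.2 k2, fun v hv hv' => k3 hv (List.mem_reverse.1 hv')⟩
  have n21 : (M1.reverse ++ M2).Nodup := by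
    rw [List.nodup_append']
    refine ⟨List.nodup_reverse.2 k1, k2, fun v hv hv' => k3 (List.mem_reverse.1 hv) hv'⟩
  have n22 : (M1.reverse ++ M2.reverse).Nodup := by
    rw [List.nodup_append']
    refine ⟨List.nodup_reverse.2 k1, List.nodup_reverse.2 k2,
      fun v hv hv' => k3 (List.mem_reverse.1 hv) (List.mem_reverse.1 hv')⟩
  have c11 := card_two h1 h2 hnd
  have c12 := card_two h1 r2 n12
  have c21 := card_two r1 h2 n21
  have c22 := card_two r1 r2 n22
  rw [List.length_reverse] at c12 c21
  rw [List.length_reverse, List.length_reverse] at c22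
  have hsub : ((ordF (univ : Finset V)).filter (fun P => (M1 <:+: P ∨ M1.reverse <:+: P) ∧
      (M2 <:+: P ∨ M2.reverse <:+: P))) ⊆
      (((ordF (univ : Finset V)).filter (fun P => M1 <:+: P ∧ M2 <:+: P)) ∪
        ((ordF (univ : Finset V)).filter (fun P => M1 <:+: P ∧ M2.reverse <:+: P))) ∪
      (((ordF (univ : Finset V)).filter (fun P => M1.reverse <:+: P ∧ M2 <:+: P)) ∪
        ((ordF (univ : Finset V)).filter (fun P => M1.reverse <:+: P ∧ M2.reverse <:+: P))) := by
    intro P hP
    rw [Finset.mem_filter] at hP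
    obtain ⟨hPo, ha, hb⟩ := hP
    rw [Finset.mem_union, Finset.mem_union, Finset.mem_union, Finset.mem_filter,
      Finset.mem_filter, Finset.mem_filter, Finset.mem_filter]
    rcases ha with ha | ha <;> rcases hb with hb | hb
    · exact Or.inl (Or.inl ⟨hPo, ha, hb⟩)
    · exact Or.inl (Or.inr ⟨hPo, ha, hb⟩)
    · exact Or.inr (Or.inl ⟨hPo, ha, hb⟩)
    · exact Or.inr (Or.inr ⟨hPo, ha, hb⟩)
  refine (Finset.card_le_card hsub).trans ?_
  refine (Finset.card_union_le _ _).trans ?_
  have u1 := Finset.card_union_le ((ordF (univ : Finset V)).filter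
    (fun P => M1 <:+: P ∧ M2 <:+: P))
    ((ordF (univ : Finset V)).filter (fun P => M1 <:+: P ∧ M2.reverse <:+: P))
  have u2 := Finset.card_union_le ((ordF (univ : Finset V)).filter
    (fun P => M1.reverse <:+: P ∧ M2 <:+: P))
    ((ordF (univ : Finset V)).filter (fun P => M1.reverse <:+: P ∧ M2.reverse <:+: P))
  omega

end Pool.Agent.H87.QK
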