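import Pool.Agent.H87.QK.Grf

/-!
# Module GrE: dense Hamiltonian graphs

`GE n k`: consecutive numbers are adjacent (`0` and `1`: `1 < k`), `0` and `n - 1` are adjacent: `ham_std`. The neighbours of `0` are
`1, ..., k-1` and `n-1` (`n - 1 ≥ k + 1`): degree `k`. A vertex `u ≠ 0` is adjacent to all vertices `≠ 0, u`: degree at least
`n - 2 ≥ k`.
-/

set_option autoImplicit false

open Finset

namespace Pool.Agent.H87.QK

theorem ge_ham {n k : ℕ} (hk : 3 ≤ k) (hn : k + 2 ≤ n) : (GE n k).IsHamiltonian := by
  refine ham_std (by omega) ?_ ?_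
  · intro i j hij
    have hj := j.isLt
    show i ≠ j ∧ ((i.val ≠ 0 ∧ j.val ≠ 0) ∨ (i.val = 0 ∧ (j.val < k ∨ j.val + 1 = n)) ∨
      (j.val = 0 ∧ (i.val < k ∨ i.val + 1 = n)))
    refine ⟨fun h => ?_, ?_⟩
    · have := congrArg Fin.val h
      omega
    · omega
  · intro i j hi hj
    show i ≠ j ∧ ((i.val ≠ 0 ∧ j.val ≠ 0) ∨ (i.val = 0 ∧ (j.val < k ∨ j.val + 1 = n)) ∨
      (j.val = 0 ∧ (i.val < k ∨ i.val + 1 = n)))
    refine ⟨fun h => ?_, ?_⟩
    · have := congrArg Fin.val h
      omega
    · omega

open Classical in
private lemma GrE_zero {n k : ℕ} (hk : 3 ≤ k) (hn : k + 2 ≤ n) (z : Fin n) (hz : z.val = 0) :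
    (GE n k).degree z = k := by
  rw [← SimpleGraph.card_neighborFinset_eq_degree]
  have h : (Finset.range k).card = ((GE n k).neighborFinset z).card := by
    refine Finset.card_bij (fun i hi => if h0 : i = 0 then (⟨n - 1, by omega⟩ : Fin n) else
      (⟨i, by have := Finset.mem_range.mp hi; omega⟩ : Fin n)) ?_ ?_ ?_
    · intro i hi
      have hik := Finset.mem_range.mp hi
      rw [SimpleGraph.mem_neighborFinset]
      by_cases h0 : i = 0
      · simp only [h0, dif_pos]
        refine ⟨fun h => ?_, Or.inr (Or.inl ⟨hz, Or.inr ?_⟩)⟩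
        · have := congrArg Fin.val h
          simp only at this
          omega
        · show n - 1 + 1 = n
          omega
      · simp only [h0, dif_neg, not_false_eq_true]
        refine ⟨fun h => ?_, Or.inr (Or.inl ⟨hz, Or.inl hik⟩)⟩
        have := congrArg Fin.val h
        simp only at this
        omega
    · intro i hi j hj hij
      have hik := Finset.mem_range.mp hi
      have hjk := Finset.mem_range.mp hj
      by_cases h0 : i = 0 <;> by_cases h1 : j = 0
      · omega
      · simp only [h0, h1, dif_pos, dif_neg, not_false_eq_true] at hij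
        have := congrArg Fin.val hij
        simp only at this
        omega
      · simp only [h0, h1, dif_pos, dif_neg, not_false_eq_true] at hij
        have := congrArg Fin.val hij
        simp only at this
        omega
      · simp only [h0, h1, dif_neg, not_false_eq_true] at hij
        have := congrArg Fin.val hij
        simp only at this
        exact this
    · intro b hb
      rw [SimpleGraph.mem_neighborFinset] at hb
      obtain ⟨h1, h2⟩ := hb
      have hb0 : b.val ≠ 0 := fun h => h1 (Fin.ext (by omega))
      have h3 : b.val < k ∨ b.val + 1 = n := by omega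
      rcases h3 with h3 | h3
      · refine ⟨b.val, Finset.mem_range.mpr h3, ?_⟩
        simp only [hb0, dif_neg, not_false_eq_true]
      · refine ⟨0, Finset.mem_range.mpr (by omega), ?_⟩
        simp only [dif_pos]
        apply Fin.ext
        show n - 1 = b.val
        omega
  rw [← h, Finset.card_range]

open Classical in
theorem ge_deg {n k : ℕ} (hk : 3 ≤ k) (hn : k + 2 ≤ n) : (GE n k).minDegree = k := by
  have hne : Nonempty (Fin n) := ⟨⟨0, by omega⟩⟩
  apply le_antisymm
  · calc (GE n k).minDegree ≤ (GE n k).degree ⟨0, by omega⟩ := (GE n k).minDegree_le_degree _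
      _ = k := GrE_zero hk hn _ rfl
  · refine (GE n k).le_minDegree_of_forall_le_degree k fun v => ?_
    by_cases hv : v.val = 0
    · exact (GrE_zero hk hn v hv).ge
    · rw [← SimpleGraph.card_neighborFinset_eq_degree]
      have h2 : (univ : Finset (Fin n)) \ {⟨0, by omega⟩, v} ⊆ (GE n k).neighborFinset v := by
        intro u hu
        rw [SimpleGraph.mem_neighborFinset]
        rw [Finset.mem_sdiff, Finset.mem_insert, Finset.mem_singleton, not_or] at hu
        refine ⟨fun h => hu.2.2 h.symm, Or.inl ⟨hv, fun h => hu.2.1 (Fin.ext h)⟩⟩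
      have h3 := Finset.card_le_card h2
      have h4 := Finset.card_sdiff_add_card_inter (univ : Finset (Fin n)) {⟨0, by omega⟩, v}
      have h5 := Finset.card_le_card
        (Finset.inter_subset_right (s₁ := (univ : Finset (Fin n))) (s₂ := {⟨0, by omega⟩, v}))
      have h6 := Finset.card_le_two (a := (⟨0, by omega⟩ : Fin n)) (b := v)
      rw [Finset.card_univ, Fintype.card_fin] at h4
      omega

end Pool.Agent.H87.QK
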