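import Pool.Agent.H87.QK.Grf

/-!
# Module GrU: the extremal graph

`B = {0, 2, ..., 2k-2}` (`isB k`), `2 k ≤ n`. Consecutive numbers are adjacent (one of them is in `B` and the other is not if the
smaller is `< 2k-1`, otherwise both are `≥ 2k-1`), `0 ∈ B` and `n-1 ∉ B` are adjacent: `ham_std`. `|B| = k`. A vertex of `B` has degree
`n - k ≥ k`, every other vertex is adjacent to the `k` vertices of `B`, and the vertex `1` (`1 < 2k - 1`) exactly to those.
`SimpleGraph.le_minDegree_of_forall_le_degree`, `SimpleGraph.minDegree_le_degree`.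
-/

set_option autoImplicit false

open Finset

namespace Pool.Agent.H87.QK

theorem gu_ham {n k : ℕ} (hk : 3 ≤ k) (hn : 2 * k ≤ n) : (GU n k).IsHamiltonian := by
  refine ham_std (by omega) ?_ ?_
  · intro i j hij
    have hj := j.isLt
    show (isB k i ∧ ¬ isB k j) ∨ (isB k j ∧ ¬ isB k i) ∨
      (2 * k - 1 ≤ i.val ∧ 2 * k - 1 ≤ j.val ∧ (i.val + 1 = j.val ∨ j.val + 1 = i.val))
    unfold isB
    omega
  · intro i j hi hj
    show (isB k i ∧ ¬ isB k j) ∨ (isB k j ∧ ¬ isB k i) ∨
      (2 * k - 1 ≤ i.val ∧ 2 * k - 1 ≤ j.val ∧ (i.val + 1 = j.val ∨ j.val + 1 = i.val))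
    unfold isB
    omega

open Classical in
private lemma GrU_cardB {n k : ℕ} (hn : 2 * k ≤ n) :
    ((univ : Finset (Fin n)).filter (fun u => isB k u.val)).card = k := by
  have h : (Finset.range k).card = ((univ : Finset (Fin n)).filter (fun u => isB k u.val)).card := by
    refine Finset.card_bij (fun i hi => (⟨2 * i, by have := Finset.mem_range.mp hi; omega⟩ : Fin n))
      ?_ ?_ ?_
    · intro i hi
      have := Finset.mem_range.mp hi
      simp only [Finset.mem_filter, Finset.mem_univ, true_and]
      unfold isB
      omega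
    · intro i hi j hj hij
      have h1 := congrArg Fin.val hij
      simp only at h1
      omega
    · intro b hb
      have h1 : isB k b.val := (Finset.mem_filter.mp hb).2
      obtain ⟨h2, h3⟩ := h1
      refine ⟨b.val / 2, Finset.mem_range.mpr (by omega), ?_⟩
      apply Fin.ext
      show 2 * (b.val / 2) = b.val
      omega
  rw [← h, Finset.card_range]

open Classical in
theorem gu_deg {n k : ℕ} (hk : 3 ≤ k) (hn : 2 * k ≤ n) : (GU n k).minDegree = k := by
  have hne : Nonempty (Fin n) := ⟨⟨0, by omega⟩⟩
  apply le_antisymm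
  · have h1 : (GU n k).degree ⟨1, by omega⟩ = k := by
      rw [← SimpleGraph.card_neighborFinset_eq_degree]
      refine Eq.trans (congrArg Finset.card ?_) (GrU_cardB (n := n) (k := k) hn)
      ext v
      rw [SimpleGraph.mem_neighborFinset, Finset.mem_filter]
      constructor
      · intro h
        refine ⟨Finset.mem_univ _, ?_⟩
        have h' : (isB k 1 ∧ ¬ isB k v) ∨ (isB k v ∧ ¬ isB k 1) ∨
          (2 * k - 1 ≤ 1 ∧ 2 * k - 1 ≤ v.val ∧ (1 + 1 = v.val ∨ v.val + 1 = 1)) := h
        unfold isB at h' ⊢
        omega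
      · rintro ⟨_, h⟩
        refine Or.inr (Or.inl ⟨h, ?_⟩)
        show ¬ isB k 1
        unfold isB
        omega
    calc (GU n k).minDegree ≤ (GU n k).degree ⟨1, by omega⟩ := (GU n k).minDegree_le_degree _
      _ = k := h1
  · refine (GU n k).le_minDegree_of_forall_le_degree k fun v => ?_
    rw [← SimpleGraph.card_neighborFinset_eq_degree]
    have hsum := Finset.card_filter_add_card_filter_not (s := (univ : Finset (Fin n)))
      (fun u : Fin n => isB k u.val)
    rw [GrU_cardB hn, Finset.card_univ, Fintype.card_fin] at hsum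
    by_cases hv : isB k v.val
    · have h2 : (univ : Finset (Fin n)).filter (fun u => ¬ isB k u.val) ⊆
          (GU n k).neighborFinset v := by
        intro u hu
        rw [SimpleGraph.mem_neighborFinset]
        exact Or.inl ⟨hv, (Finset.mem_filter.mp hu).2⟩
      have h3 := Finset.card_le_card h2
      omega
    · have h2 : (univ : Finset (Fin n)).filter (fun u => isB k u.val) ⊆
          (GU n k).neighborFinset v := by
        intro u hu
        rw [SimpleGraph.mem_neighborFinset]
        exact Or.inr (Or.inl ⟨(Finset.mem_filter.mp hu).2, hv⟩)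
      have h3 := Finset.card_le_card h2
      rw [GrU_cardB hn] at h3
      exact h3

end Pool.Agent.H87.QK
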