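import Pool.Agent.H87.QK.Lev

/-!
# Module HLL: Hamiltonian lists, rotations and cuts

* `mem_ordF`: `Multiset.mem_lists_iff`; for nodup lists equality of multisets is equality of membership
  (`List.perm_ext_iff_of_nodup`, `Finset.nodup_toList`).
* `mem_hamF`: `mem_ordF`.
* `hl_length`: nodup and all vertices: `List.toFinset` is `univ`, `List.toFinset_card_of_nodup`.
* `rot_eq`, `cut_eq`: in `P = a ++ p :: q :: b` (nodup) `P.idxOf p = a.length`
  (`List.idxOf_append_of_notMem`), then `List.take_left'`, `List.drop_left'`.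
* `hl_reverse`: `List.isChain_reverse`, symmetry.
-/

set_option autoImplicit false

open Finset

namespace Pool.Agent.H87.QK

variable {V : Type*} [Fintype V] [DecidableEq V]

theorem mem_ordF {s : Finset V} {l : List V} : l ∈ ordF s ↔ l.Nodup ∧ ∀ v, v ∈ l ↔ v ∈ s := by
  have h0 : l ∈ ordF s ↔ (l : Multiset V) = s.val := by
    change l ∈ s.val.lists ↔ _
    rw [Multiset.mem_lists_iff]
    exact ⟨fun h => h.symm, fun h => h.symm⟩
  rw [h0]
  constructor
  · intro h
    have hn : (l : Multiset V).Nodup := h ▸ s.nodup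
    refine ⟨Multiset.coe_nodup.1 hn, fun v => ?_⟩
    rw [← Multiset.mem_coe, h, Finset.mem_val]
  · rintro ⟨h1, h2⟩
    refine (Multiset.Nodup.ext (Multiset.coe_nodup.2 h1) s.nodup).2 fun v => ?_
    rw [Multiset.mem_coe, h2, Finset.mem_val]

theorem mem_hamF {G : SimpleGraph V} {l : List V} : l ∈ hamF G ↔ HL G l := by
  classical
  unfold hamF
  rw [Finset.mem_filter, mem_ordF]
  constructor
  · rintro ⟨-, h⟩
    exact h
  · intro h
    exact ⟨⟨h.nd, fun v => ⟨fun _ => Finset.mem_univ v, fun _ => h.all v⟩⟩, h⟩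

theorem hl_length {G : SimpleGraph V} {l : List V} (h : HL G l) : l.length = Fintype.card V := by
  have h1 : l.toFinset = univ := by
    ext v
    simp [h.all v]
  rw [← List.toFinset_card_of_nodup h.nd, h1, Finset.card_univ]

private theorem HLL_idx {P a b : List V} {p q : V} (h : P.Nodup) (hP : P = a ++ p :: q :: b) :
    P.idxOf p = a.length := by
  rw [hP] at h ⊢
  have hpa : p ∉ a := by
    intro hp
    have h2 := (List.nodup_append.1 h).2.2 p hp p (List.mem_cons_self ..)
    exact h2 rfl
  rw [List.idxOf_append_of_notMem hpa, List.idxOf_cons_self, Nat.add_zero]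

theorem rot_eq {P a b : List V} {p q : V} (h : P.Nodup) (hP : P = a ++ p :: q :: b) :
    rot P p = a ++ p :: (q :: b).reverse := by
  have hi : P.idxOf p = a.length := HLL_idx h hP
  have h1 : P.take (P.idxOf p + 1) = a ++ [p] := by
    rw [hi, hP, show a ++ p :: q :: b = (a ++ [p]) ++ (q :: b) by simp]
    exact List.take_left' (by simp)
  have h2 : P.drop (P.idxOf p + 1) = q :: b := by
    rw [hi, hP, show a ++ p :: q :: b = (a ++ [p]) ++ (q :: b) by simp]
    exact List.drop_left' (by simp)
  unfold rot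
  rw [h1, h2]
  simp

theorem cut_eq {P a b : List V} {c d : V} (h : P.Nodup) (hP : P = a ++ c :: d :: b) :
    cut P c = (d :: b) ++ (a ++ [c]) := by
  have hi : P.idxOf c = a.length := HLL_idx h hP
  have h1 : P.take (P.idxOf c + 1) = a ++ [c] := by
    rw [hi, hP, show a ++ c :: d :: b = (a ++ [c]) ++ (d :: b) by simp]
    exact List.take_left' (by simp)
  have h2 : P.drop (P.idxOf c + 1) = d :: b := by
    rw [hi, hP, show a ++ c :: d :: b = (a ++ [c]) ++ (d :: b) by simp]
    exact List.drop_left' (by simp)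
  unfold cut
  rw [h1, h2]

theorem hl_reverse {G : SimpleGraph V} {P : List V} (h : HL G P) : HL G P.reverse := by
  refine ⟨List.nodup_reverse.2 h.nd, fun v => List.mem_reverse.2 (h.all v), ?_⟩
  rw [List.isChain_reverse]
  refine h.ch.imp ?_
  intro x y hxy
  exact hxy.symm

end Pool.Agent.H87.QK
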