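import Pool.Agent.H87.QK.HLL

/-!
# Module HLM: rotations and cuts of Hamiltonian lists

Write `P = a ++ p :: q :: b` (`sc_iff`) and use `rot_eq`, `cut_eq`.
* `hl_rot`: nodup and membership by permutation; the chain: `List.isChain_append`: the chain on
  `a ++ [p]`, the chain on `(q :: b).reverse`, the link `p x` with `x` the last of `q :: b`. Last vertex: the last of
  `(q :: b).reverse` is `q`; the successor of `p` is the first of `(q :: b).reverse`, which is `x`.
* `hl_cut`: the same with the pieces `d :: b` and `a ++ [c]`, link: last of `d :: b` is the last of `P`,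
  first of `a ++ [c]` is the head of `P`.
* `lev_rot`, `lev_cut`: `lev_append` and `lev_reverse` (write `(q :: b).reverse = x :: y`).
* `ed_rot`: `ed_split` for `P` and for the rotated list, `ed_reverse`.
-/

set_option autoImplicit false

open Finset

namespace Pool.Agent.H87.QK

variable {V : Type*} [Fintype V] [DecidableEq V]

omit [Fintype V] [DecidableEq V] in
private theorem HLM_last {a b : List V} {p q x : V}
    (hx : (a ++ p :: q :: b).getLast? = some x) : (q :: b).getLast? = some x := by
  have h1 : a ++ p :: q :: b = (a ++ [p]) ++ (q :: b) := by simp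
  rw [h1, List.getLast?_append] at hx
  obtain ⟨y, hy⟩ : ∃ y, (q :: b).getLast? = some y := by
    cases h : (q :: b).getLast? with
    | none => exact absurd (List.getLast?_eq_none_iff.1 h) (List.cons_ne_nil _ _)
    | some y => exact ⟨y, rfl⟩
  rw [hy] at hx
  rw [hy]
  simpa using hx

omit [Fintype V] [DecidableEq V] in
private theorem HLM_rev {l : List V} {x : V} (h : l.getLast? = some x) :
    ∃ y, l.reverse = x :: y := by
  have h1 : l.reverse.head? = some x := by rw [List.head?_reverse, h]
  cases h2 : l.reverse with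
  | nil => rw [h2] at h1; simp at h1
  | cons z y =>
    rw [h2] at h1
    have h3 : z = x := by simpa using h1
    exact ⟨y, by rw [h3]⟩

omit [Fintype V] [DecidableEq V] in
private theorem HLM_end {l : List V} {x : V} (h : l.getLast? = some x) :
    ∃ y, l = y ++ [x] := by
  obtain ⟨y, hy⟩ := HLM_rev h
  refine ⟨y.reverse, ?_⟩
  have h2 := congrArg List.reverse hy
  rw [List.reverse_reverse, List.reverse_cons] at h2
  exact h2

omit [Fintype V] [DecidableEq V] in
private theorem HLM_start {a b : List V} {c d v : V}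
    (hv : (a ++ c :: d :: b).head? = some v) : ∃ z, a ++ [c] = v :: z := by
  cases a with
  | nil =>
    have h1 : c = v := by simpa using hv
    exact ⟨[], by rw [h1]; rfl⟩
  | cons e a =>
    have h1 : e = v := by simpa using hv
    exact ⟨a ++ [c], by rw [h1]; rfl⟩

theorem hl_rot {G : SimpleGraph V} {P : List V} {v p q x : V} (h : HL G P)
    (hv : P.head? = some v) (hx : P.getLast? = some x) (hs : Sc P p q) (ha : G.Adj p x) :
    HL G (rot P p) ∧ (rot P p).head? = some v ∧ (rot P p).getLast? = some q ∧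
      Sc (rot P p) p x := by
  obtain ⟨a, b, hP⟩ := sc_iff.1 hs
  have hr := rot_eq h.nd hP
  have hx' : (q :: b).getLast? = some x := HLM_last (by rw [← hP]; exact hx)
  obtain ⟨y, hy⟩ := HLM_rev hx'
  have hperm : (rot P p).Perm P := by
    rw [hr, hP]
    exact List.Perm.append_left _ (List.Perm.cons _ (List.reverse_perm _))
  have hch := h.ch
  rw [hP, List.isChain_split] at hch
  obtain ⟨hc1, hc2⟩ := hch
  have hc3 : (q :: b).IsChain G.Adj := (List.isChain_cons_cons.1 hc2).2
  have hc4 : ((q :: b).reverse).IsChain G.Adj := by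
    rw [List.isChain_reverse]
    exact hc3.imp fun _ _ hxy => hxy.symm
  refine ⟨⟨hperm.nodup_iff.2 h.nd, fun w => hperm.mem_iff.2 (h.all w), ?_⟩, ?_, ?_, ?_⟩
  · rw [hr, List.isChain_split]
    refine ⟨hc1, ?_⟩
    rw [hy] at hc4 ⊢
    exact List.isChain_cons_cons.2 ⟨ha, hc4⟩
  · rw [hr]
    rw [hP] at hv
    cases a with
    | nil => simpa using hv
    | cons e a => simpa using hv
  · rw [hr, List.reverse_cons]
    rw [show a ++ p :: (b.reverse ++ [q]) = (a ++ p :: b.reverse) ++ [q] by simp]
    exact List.getLast?_concat ..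
  · exact sc_iff.2 ⟨a, y, by rw [hr, hy]⟩

theorem hl_cut {G : SimpleGraph V} {P : List V} {v c d x : V} (h : HL G P)
    (hv : P.head? = some v) (hx : P.getLast? = some x) (hs : Sc P c d) (ha : G.Adj x v) :
    HL G (cut P c) ∧ (cut P c).head? = some d ∧ (cut P c).getLast? = some c ∧
      Sc (cut P c) x v := by
  obtain ⟨a, b, hP⟩ := sc_iff.1 hs
  have hr := cut_eq h.nd hP
  have hx' : (d :: b).getLast? = some x := HLM_last (by rw [← hP]; exact hx)
  obtain ⟨y, hy⟩ := HLM_end hx'
  obtain ⟨z, hz⟩ := HLM_start (by rw [← hP]; exact hv)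
  have hperm : (cut P c).Perm P := by
    rw [hr, hP, show a ++ c :: d :: b = (a ++ [c]) ++ (d :: b) by simp]
    exact List.perm_append_comm
  have hch := h.ch
  rw [hP, List.isChain_split] at hch
  obtain ⟨hc1, hc2⟩ := hch
  have hc3 : (d :: b).IsChain G.Adj := (List.isChain_cons_cons.1 hc2).2
  have hcut : cut P c = y ++ x :: v :: z := by
    rw [hr, hy, hz]
    simp
  refine ⟨⟨hperm.nodup_iff.2 h.nd, fun w => hperm.mem_iff.2 (h.all w), ?_⟩, ?_, ?_, ?_⟩
  · rw [hcut, List.isChain_split]
    refine ⟨?_, List.isChain_cons_cons.2 ⟨ha, ?_⟩⟩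
    · rw [← hy]; exact hc3
    · rw [← hz]; exact hc1
  · rw [hr]; rfl
  · rw [hr, ← List.append_assoc]
    exact List.getLast?_concat ..
  · exact sc_iff.2 ⟨y, z, hcut⟩

theorem lev_rot {π : Equiv.Perm V} {P : List V} {v p q x : V} (h : P.Nodup)
    (hv : P.head? = some v) (hx : P.getLast? = some x) (hs : Sc P p q) :
    lev π (rot P p) + (if Hd π p q then 0 else 1) = lev π P + (if Hd π p x then 0 else 1) := by
  obtain ⟨a, b, hP⟩ := sc_iff.1 hs
  have hr := rot_eq h hP
  have hx' : (q :: b).getLast? = some x := HLM_last (by rw [← hP]; exact hx)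
  obtain ⟨y, hy⟩ := HLM_rev hx'
  have h1 : lev π (rot P p) =
      lev π (a ++ [p]) + (if Hd π p x then 0 else 1) + lev π (x :: y) := by
    rw [hr, hy, lev_append]
  have h2 : lev π P = lev π (a ++ [p]) + (if Hd π p q then 0 else 1) + lev π (q :: b) := by
    rw [hP, lev_append]
  have h3 : lev π (x :: y) = lev π (q :: b) := by
    rw [← hy, lev_reverse]
  rw [h1, h2, h3]
  omega

theorem lev_cut {π : Equiv.Perm V} {P : List V} {v c d x : V} (h : P.Nodup)
    (hv : P.head? = some v) (hx : P.getLast? = some x) (hs : Sc P c d) :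
    lev π (cut P c) + (if Hd π c d then 0 else 1) = lev π P + (if Hd π x v then 0 else 1) := by
  obtain ⟨a, b, hP⟩ := sc_iff.1 hs
  have hr := cut_eq h hP
  have hx' : (d :: b).getLast? = some x := HLM_last (by rw [← hP]; exact hx)
  obtain ⟨y, hy⟩ := HLM_end hx'
  obtain ⟨z, hz⟩ := HLM_start (by rw [← hP]; exact hv)
  have hcut : cut P c = y ++ x :: v :: z := by
    rw [hr, hy, hz]
    simp
  have h1 : lev π (cut P c) =
      lev π (y ++ [x]) + (if Hd π x v then 0 else 1) + lev π (v :: z) := by
    rw [hcut, lev_append]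
  have h2 : lev π P = lev π (a ++ [c]) + (if Hd π c d then 0 else 1) + lev π (d :: b) := by
    rw [hP, lev_append]
  rw [h1, h2, ← hy, ← hz]
  omega

/-- the edges of the rotated path contain the other edges of `P` -/
theorem ed_rot {P : List V} {p q u w : V} (h : P.Nodup) (hs : Sc P p q) (he : Ed P u w)
    (hne : s(u, w) ≠ s(p, q)) : Ed (rot P p) u w := by
  obtain ⟨a, b, hP⟩ := sc_iff.1 hs
  have hr := rot_eq h hP
  obtain ⟨x, hx⟩ : ∃ x, (q :: b).getLast? = some x := by
    cases h : (q :: b).getLast? with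
    | none => exact absurd (List.getLast?_eq_none_iff.1 h) (List.cons_ne_nil _ _)
    | some y => exact ⟨y, rfl⟩
  obtain ⟨y, hy⟩ := HLM_rev hx
  rw [hP, ed_split] at he
  rw [hr, hy, ed_split]
  rcases he with he | ⟨rfl, rfl⟩ | ⟨rfl, rfl⟩ | he
  · exact Or.inl he
  · exact absurd rfl hne
  · exact absurd Sym2.eq_swap hne
  · refine Or.inr (Or.inr (Or.inr ?_))
    rw [← hy, ed_reverse]
    exact he

end Pool.Agent.H87.QK
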