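import Pool.Agent.H87.QK.MovR

/-!
# Module Ini: the starting paths

From `G.IsHamiltonian`, `3 ≤ card V`: a Hamiltonian cycle `p : G.Walk a a`. Let `c = p.support.tail` (nodup, all
vertices, length `n`), `π = c.formPerm`: `π (c[i]) = c[(i+1) % n]` (`List.formPerm_apply_getElem`), and
`G.Adj u (π u)` for all `u` (consecutive vertices of the closed walk). For every `i < n` the rotated list
`c.rotate i` (`List.rotate`) is a Hamiltonian list, its consecutive pairs are `(u, π u)`, so its level is `0`, its head
`v` and last vertex `x` satisfy `π x = v`: it is in `SS 0 0` (`R = ∅`, `Tw.base`). The `n` rotations have different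
heads. So `n ≤ |SS 0 0|`.
-/

set_option autoImplicit false

open Finset

namespace Pool.Agent.H87.QK

variable {V : Type*} [Fintype V] [DecidableEq V]

/-- the cyclic permutation of a Hamiltonian cycle -/
theorem exists_perm {G : SimpleGraph V} (hG : G.IsHamiltonian) (h3 : 3 ≤ Fintype.card V) :
    ∃ c : List V, c.Nodup ∧ (∀ v, v ∈ c) ∧ ∀ u : V, G.Adj u (c.formPerm u) := by
  obtain ⟨a, p, hp⟩ := hG (by omega)
  have hnd : p.support.tail.Nodup := hp.isCycle.support_nodup
  have hmem : ∀ v, v ∈ p.support.tail := by
    intro v
    have h1 := hp.isHamiltonian_tail.mem_support v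
    rwa [SimpleGraph.Walk.support_tail_of_not_nil p hp.isCycle.not_nil] at h1
  refine ⟨p.support.tail, hnd, hmem, ?_⟩
  intro u
  obtain ⟨i, hi, rfl⟩ := List.getElem_of_mem (hmem u)
  rw [List.formPerm_apply_getElem _ hnd]
  have hlen : p.support.tail.length = p.length := by
    rw [List.length_tail, SimpleGraph.Walk.length_support]
    omega
  have hi' : i < p.length := by omega
  have key : ∀ (k : ℕ) (hk : k < p.support.tail.length), p.support.tail[k] = p.getVert (k + 1) := by
    intro k hk
    rw [List.getElem_tail, SimpleGraph.Walk.support_getElem_eq_getVert]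
  rw [key i hi, key _ (Nat.mod_lt _ (by omega))]
  rcases Nat.lt_or_ge (i + 1) p.length with h | h
  · have e1 : (i + 1) % p.support.tail.length = i + 1 := by
      rw [hlen]
      exact Nat.mod_eq_of_lt h
    rw [e1]
    exact p.adj_getVert_succ h
  · have e0 : i + 1 = p.length := by omega
    have e1 : (i + 1) % p.support.tail.length = 0 := by
      rw [hlen, e0]
      exact Nat.mod_self _
    have e2 : p.getVert (i + 1) = p.getVert 0 := by
      rw [e0, SimpleGraph.Walk.getVert_length, SimpleGraph.Walk.getVert_zero]
    rw [e1, e2]
    exact p.adj_getVert_succ (by omega)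

end Pool.Agent.H87.QK
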