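import Pool.Agent.H87.QK.ScL

/-!
# Module Lev: the number of chords of a list

* `lev_append`: induction on `a` (cases `a = []`, `a = [c]`, `a = c :: c' :: a'`).
* `lev_reverse`: induction on `l`; for `a :: b :: l`: `(a :: b :: l).reverse = l.reverse ++ b :: a :: []`,
  `lev_append`, `Hd` is symmetric, `lev [a] = 0`, and `l.reverse ++ [b] = (b :: l).reverse`.
* `lev_card`: induction on `l`; the successor pairs of `a :: b :: l` are `(a, b)` and those of `b :: l`
  (`sc_iff`, nodup), `a` is not in `b :: l`, so the filter set of `a :: b :: l` is the one of `b :: l` with `a`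
  inserted or not.
* `lev_card_hd`: the same count for the pairs with `Hd`; or: the vertices with a successor are
  all but the last one (`l.length - 1` of them), split into the two kinds.
-/

set_option autoImplicit false

open Finset

namespace Pool.Agent.H87.QK

variable {V : Type*} [Fintype V] [DecidableEq V]

omit [Fintype V] in
theorem hd_comm {π : Equiv.Perm V} {u v : V} : Hd π u v ↔ Hd π v u := by
  unfold Hd
  exact or_comm

omit [Fintype V] in
theorem lev_append (π : Equiv.Perm V) (a : List V) (p q : V) (b : List V) :
    lev π (a ++ p :: q :: b) =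
      lev π (a ++ [p]) + (if Hd π p q then 0 else 1) + lev π (q :: b) := by
  induction a with
  | nil =>
    simp only [List.nil_append, lev]
    omega
  | cons c a' ih =>
    cases a' with
    | nil =>
      simp only [List.nil_append, List.cons_append, lev]
      omega
    | cons c' a'' =>
      simp only [List.cons_append] at ih ⊢
      have h1 : lev π (c :: c' :: (a'' ++ p :: q :: b)) =
          (if Hd π c c' then 0 else 1) + lev π (c' :: (a'' ++ p :: q :: b)) := rfl
      have h2 : lev π (c :: c' :: (a'' ++ [p])) =
          (if Hd π c c' then 0 else 1) + lev π (c' :: (a'' ++ [p])) := rfl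
      rw [h1, h2, ih]
      omega

omit [Fintype V] in
theorem lev_reverse (π : Equiv.Perm V) (l : List V) : lev π l.reverse = lev π l := by
  induction l with
  | nil => rfl
  | cons a l' ih =>
    cases l' with
    | nil => rfl
    | cons b l =>
      have h1 : (a :: b :: l).reverse = l.reverse ++ b :: a :: [] := by simp
      have h2 : l.reverse ++ [b] = (b :: l).reverse := by simp
      rw [h1, lev_append, h2, ih]
      have h3 : lev π (a :: b :: l) = (if Hd π a b then 0 else 1) + lev π (b :: l) := rfl
      have h4 : lev π [a] = 0 := rfl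
      rw [h3, h4]
      have h5 : (if Hd π b a then 0 else 1) = (if Hd π a b then 0 else 1 : ℕ) := by
        by_cases h : Hd π a b
        · rw [if_pos h, if_pos (hd_comm.1 h)]
        · rw [if_neg h, if_neg (fun h' => h (hd_comm.1 h'))]
      rw [h5]
      omega

omit [Fintype V] in
theorem lev_le (π : Equiv.Perm V) (l : List V) : lev π l ≤ l.length - 1 := by
  induction l with
  | nil => exact Nat.zero_le _
  | cons a l' ih =>
    cases l' with
    | nil => exact Nat.zero_le _
    | cons b l =>
      have h3 : lev π (a :: b :: l) = (if Hd π a b then 0 else 1) + lev π (b :: l) := rfl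
      rw [h3]
      simp only [List.length_cons] at ih ⊢
      split_ifs <;> omega

omit [Fintype V] [DecidableEq V] in
private theorem Lev_sc_cons {a b : V} {l : List V} {p q : V} :
    Sc (a :: b :: l) p q ↔ (p = a ∧ q = b) ∨ Sc (b :: l) p q := by
  rw [sc_iff, sc_iff]
  constructor
  · rintro ⟨x, y, h⟩
    cases x with
    | nil =>
      simp only [List.nil_append, List.cons.injEq] at h
      exact Or.inl ⟨h.1.symm, h.2.1.symm⟩
    | cons c x' =>
      simp only [List.cons_append, List.cons.injEq] at h
      exact Or.inr ⟨x', y, h.2⟩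
  · rintro (⟨rfl, rfl⟩ | ⟨x, y, h⟩)
    · exact ⟨[], l, rfl⟩
    · exact ⟨a :: x, y, by rw [h]; rfl⟩

omit [Fintype V] [DecidableEq V] in
private theorem Lev_sc_mem {l : List V} {p q : V} (h : Sc l p q) : p ∈ l := by
  obtain ⟨a, b, rfl⟩ := sc_iff.1 h
  simp

open Classical in
omit [DecidableEq V] in
private theorem Lev_cnt (D : V → V → Prop) {a b : V} {l : List V} (h : (a :: b :: l).Nodup) :
    (univ.filter (fun p => ∃ q, Sc (a :: b :: l) p q ∧ D p q)).card =
      (if D a b then 1 else 0) + (univ.filter (fun p => ∃ q, Sc (b :: l) p q ∧ D p q)).card := by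
  by_cases hD : D a b
  · have h1 : (univ.filter (fun p => ∃ q, Sc (a :: b :: l) p q ∧ D p q)) =
        insert a (univ.filter (fun p => ∃ q, Sc (b :: l) p q ∧ D p q)) := by
      ext p
      simp only [mem_filter, mem_univ, true_and, mem_insert, Lev_sc_cons]
      constructor
      · rintro ⟨q, ⟨rfl, rfl⟩ | h2, h3⟩
        · exact Or.inl rfl
        · exact Or.inr ⟨q, h2, h3⟩
      · rintro (rfl | ⟨q, h2, h3⟩)
        · exact ⟨b, Or.inl ⟨rfl, rfl⟩, hD⟩
        · exact ⟨q, Or.inr h2, h3⟩
    rw [h1, if_pos hD, card_insert_of_notMem]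
    · omega
    · simp only [mem_filter, mem_univ, true_and]
      rintro ⟨q, h2, -⟩
      exact (List.nodup_cons.1 h).1 (Lev_sc_mem h2)
  · have h1 : (univ.filter (fun p => ∃ q, Sc (a :: b :: l) p q ∧ D p q)) =
        (univ.filter (fun p => ∃ q, Sc (b :: l) p q ∧ D p q)) := by
      ext p
      simp only [mem_filter, mem_univ, true_and, Lev_sc_cons]
      constructor
      · rintro ⟨q, ⟨rfl, rfl⟩ | h2, h3⟩
        · exact absurd h3 hD
        · exact ⟨q, h2, h3⟩
      · rintro ⟨q, h2, h3⟩
        exact ⟨q, Or.inr h2, h3⟩
    rw [h1, if_neg hD]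
    omega

omit [Fintype V] [DecidableEq V] in
private theorem Lev_sc_nil {p q : V} : ¬ Sc ([] : List V) p q := by
  rw [sc_iff]
  rintro ⟨a, b, h⟩
  have h1 := congrArg List.length h
  simp at h1

omit [Fintype V] [DecidableEq V] in
private theorem Lev_sc_one {a p q : V} : ¬ Sc [a] p q := by
  rw [sc_iff]
  rintro ⟨x, y, h⟩
  have h1 := congrArg List.length h
  simp only [List.length_cons, List.length_nil, List.length_append] at h1
  omega

open Classical in
theorem lev_card (π : Equiv.Perm V) {l : List V} (h : l.Nodup) :
    (univ.filter (fun p => ∃ q, Sc l p q ∧ ¬ Hd π p q)).card = lev π l := by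
  induction l with
  | nil =>
    rw [show lev π ([] : List V) = 0 from rfl, card_eq_zero, filter_eq_empty_iff]
    rintro p - ⟨q, h1, -⟩
    exact Lev_sc_nil h1
  | cons a l' ih =>
    cases l' with
    | nil =>
      rw [show lev π [a] = 0 from rfl, card_eq_zero, filter_eq_empty_iff]
      rintro p - ⟨q, h1, -⟩
      exact Lev_sc_one h1
    | cons b l =>
      have h3 : lev π (a :: b :: l) = (if Hd π a b then 0 else 1) + lev π (b :: l) := rfl
      have h5 := Lev_cnt (fun p q => ¬ Hd π p q) h
      have h6 := ih (List.nodup_cons.1 h).2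
      have h7 : (univ.filter (fun p => ∃ q, Sc (a :: b :: l) p q ∧ ¬ Hd π p q)).card =
          (if ¬ Hd π a b then 1 else 0) +
            (univ.filter (fun p => ∃ q, Sc (b :: l) p q ∧ ¬ Hd π p q)).card := by
        refine Eq.trans ?_ (h5.trans ?_)
        · congr
        · congr
      rw [h7, h6, h3]
      by_cases hd : Hd π a b
      · rw [if_neg (not_not.2 hd), if_pos hd]
      · rw [if_pos hd, if_neg hd]

open Classical in
theorem lev_card_hd (π : Equiv.Perm V) {l : List V} (h : l.Nodup) :
    (univ.filter (fun p => ∃ q, Sc l p q ∧ Hd π p q)).card = l.length - 1 - lev π l := by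
  induction l with
  | nil =>
    rw [show lev π ([] : List V) = 0 from rfl, List.length_nil, card_eq_zero.2]
    rw [filter_eq_empty_iff]
    rintro p - ⟨q, h1, -⟩
    exact Lev_sc_nil h1
  | cons a l' ih =>
    cases l' with
    | nil =>
      rw [show lev π [a] = 0 from rfl, card_eq_zero.2]
      · rfl
      rw [filter_eq_empty_iff]
      rintro p - ⟨q, h1, -⟩
      exact Lev_sc_one h1
    | cons b l =>
      have h3 : lev π (a :: b :: l) = (if Hd π a b then 0 else 1) + lev π (b :: l) := rfl
      have h4 := lev_le π (b :: l)
      have h5 := Lev_cnt (fun p q => Hd π p q) h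
      have h6 := ih (List.nodup_cons.1 h).2
      have h7 : (univ.filter (fun p => ∃ q, Sc (a :: b :: l) p q ∧ Hd π p q)).card =
          (if Hd π a b then 1 else 0) +
            (univ.filter (fun p => ∃ q, Sc (b :: l) p q ∧ Hd π p q)).card := by
        refine Eq.trans ?_ (h5.trans ?_)
        · congr
        · congr
      rw [h7, h6, h3]
      simp only [List.length_cons] at h4 ⊢
      by_cases hd : Hd π a b
      · rw [if_pos hd, if_pos hd]
        omega
      · rw [if_neg hd, if_neg hd]
        omega

end Pool.Agent.H87.QK
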