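import Mathlib

/-!
# Module Num: numerical estimates

* `num_prod`: for `J ≤ N`: `N^J J! ≤ J^J ∏_{j<J} (N - j)`, because `N (J - j) ≤ J (N - j)` for `j < J`
  (`Finset.prod_range_id_eq...`, `∏_{j<J} (J - j) = J!`: `Finset.prod_range_reflect`, `Nat.descFactorial`).
* `num_self`: `J^J ≤ 3^J J!`: `Real.pow_div_factorial_le_exp` at `x = J`, `exp 1 < 3`; or induction with
  `(1 + 1/J)^J ≤ 3`.
* `num_low`: with `J = min (n-1) (2k-4-s)`, `s = sqrt (2k)`, `m = min (2k) n`, `3 ≤ k`, `k + 2 ≤ n`: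
  `∏_{j<J} (2k-4-j) (n-1-j) / (8192 n) ≥ J! * ((n-1)/n)^J * 3^(-J) * 8192^(-J) ≥ J! / 2^(17 J)` (`2k-4-j ≥ J-j`;
  `(n-1)/n ≥ 1/2`; `num_prod` with `N = n-1`, `num_self`), and `m! ≤ J! m^(m-J)`, `m - J ≤ s + 5`,
  `m ≤ 2k < (s+1)^2 ≤ 2^(2s)`, `m^(s+5) ≤ 2^(2s(s+5)) ≤ 2^(4k + 20k) ≤ 2^(24 m)` (`s^2 ≤ 2k`, `s ≤ 2k`, `k ≤ m`).
  Together `m! ≤ 2^(24 m) J! ≤ 2^(24 m) 2^(17 m) ∏`.
* `num_up`: `(2k+1)! = (2k+1) (2k)!` and `2k+1 ≤ 2^(2k)` (`Nat.lt_two_pow_self`).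
-/

set_option autoImplicit false

open Finset

namespace Pool.Agent.H87.QK

theorem num_prod {J N : ℕ} (h : J ≤ N) :
    N ^ J * J.factorial ≤ J ^ J * ∏ j ∈ range J, (N - j) := by
  have h1 : J.factorial = ∏ j ∈ range J, (J - j) := by
    rw [← Nat.descFactorial_eq_prod_range, Nat.descFactorial_self]
  have h2 : N ^ J * J.factorial = ∏ j ∈ range J, (N * (J - j)) := by
    rw [Finset.prod_mul_distrib, ← h1, Finset.prod_const, Finset.card_range]
  have h3 : J ^ J * ∏ j ∈ range J, (N - j) = ∏ j ∈ range J, (J * (N - j)) := by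
    rw [Finset.prod_mul_distrib, Finset.prod_const, Finset.card_range]
  rw [h2, h3]
  apply Finset.prod_le_prod'
  intro j hj
  have hjJ : j < J := Finset.mem_range.1 hj
  rw [Nat.mul_sub, Nat.mul_sub, Nat.mul_comm J N]
  exact Nat.sub_le_sub_left (Nat.mul_le_mul_right j h) (N * J)

theorem num_self (J : ℕ) : J ^ J ≤ 3 ^ J * J.factorial := by
  have h1 := Real.pow_div_factorial_le_exp (J : ℝ) (Nat.cast_nonneg J) J
  have hf : (0 : ℝ) < (J.factorial : ℝ) := by exact_mod_cast Nat.factorial_pos J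
  have h2 : Real.exp (J : ℝ) ≤ 3 ^ J := by
    have h3 : Real.exp (J : ℝ) = Real.exp 1 ^ J := by
      rw [← Real.exp_nat_mul, mul_one]
    rw [h3]
    exact pow_le_pow_left₀ (Real.exp_pos 1).le Real.exp_one_lt_three.le J
  have h4 : (J : ℝ) ^ J ≤ 3 ^ J * (J.factorial : ℝ) := by
    have h5 := le_trans h1 h2
    rwa [div_le_iff₀ hf] at h5
  exact_mod_cast h4

private lemma Num_fac {J m : ℕ} (h : J ≤ m) : m.factorial ≤ J.factorial * m ^ (m - J) := by
  have h1 := Nat.factorial_mul_descFactorial (Nat.sub_le m J)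
  rw [Nat.sub_sub_self h] at h1
  rw [← h1]
  exact Nat.mul_le_mul_left _ (Nat.descFactorial_le_pow m (m - J))

private lemma Num_prodlow {k n J : ℕ} (hn : 2 ≤ n) (hJ1 : J ≤ n - 1) (hJ2 : J ≤ 2 * k - 4) :
    (J.factorial : ℝ) ≤ 2 ^ (16 * J) *
      ∏ j ∈ range J, (((2 * k - 4 - j : ℕ) : ℝ) * ((n - 1 - j : ℕ) : ℝ) / (8192 * n)) := by
  have hn0 : (0 : ℝ) < (n : ℝ) := by
    have : 0 < n := by omega
    exact_mod_cast this
  have hs : ∏ j ∈ range J, (((2 * k - 4 - j : ℕ) : ℝ) * ((n - 1 - j : ℕ) : ℝ) / (8192 * n))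
      = ((∏ j ∈ range J, ((2 * k - 4 - j : ℕ) : ℝ)) * (∏ j ∈ range J, ((n - 1 - j : ℕ) : ℝ)))
        / (8192 * n) ^ J := by
    rw [Finset.prod_div_distrib, Finset.prod_mul_distrib, Finset.prod_const, Finset.card_range]
  have hA : (J.factorial : ℝ) ≤ ∏ j ∈ range J, ((2 * k - 4 - j : ℕ) : ℝ) := by
    have h1 : J.factorial ≤ ∏ j ∈ range J, (2 * k - 4 - j) := by
      have h2 : J.factorial = ∏ j ∈ range J, (J - j) := by
        rw [← Nat.descFactorial_eq_prod_range, Nat.descFactorial_self]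
      rw [h2]
      apply Finset.prod_le_prod'
      intro j _
      omega
    exact_mod_cast h1
  have hB : ((n - 1 : ℕ) : ℝ) ^ J ≤ 3 ^ J * ∏ j ∈ range J, ((n - 1 - j : ℕ) : ℝ) := by
    have h1 := num_prod hJ1
    have h2 := num_self J
    have h3 : (n - 1) ^ J * J.factorial ≤ (3 ^ J * ∏ j ∈ range J, (n - 1 - j)) * J.factorial := by
      calc (n - 1) ^ J * J.factorial ≤ J ^ J * ∏ j ∈ range J, (n - 1 - j) := h1
        _ ≤ (3 ^ J * J.factorial) * ∏ j ∈ range J, (n - 1 - j) := Nat.mul_le_mul_right _ h2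
        _ = (3 ^ J * ∏ j ∈ range J, (n - 1 - j)) * J.factorial := by ring
    have h4 := Nat.le_of_mul_le_mul_right h3 (Nat.factorial_pos J)
    exact_mod_cast h4
  have hC : (n : ℝ) ^ J ≤ 2 ^ J * ((n - 1 : ℕ) : ℝ) ^ J := by
    rw [← mul_pow]
    apply pow_le_pow_left₀ hn0.le
    have : n ≤ 2 * (n - 1) := by omega
    exact_mod_cast this
  have hB0 : (0 : ℝ) ≤ ∏ j ∈ range J, ((n - 1 - j : ℕ) : ℝ) :=
    Finset.prod_nonneg (fun j _ => Nat.cast_nonneg _)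
  rw [hs, mul_div_assoc', le_div_iff₀ (by positivity)]
  have hD : ((8192 : ℝ) * n) ^ J ≤ 2 ^ (16 * J) * ∏ j ∈ range J, ((n - 1 - j : ℕ) : ℝ) := by
    have e1 : ((8192 : ℝ) * n) ^ J = 8192 ^ J * (n : ℝ) ^ J := mul_pow _ _ _
    have e2 : (2 : ℝ) ^ (16 * J) = 65536 ^ J := by
      rw [pow_mul]; norm_num
    rw [e1, e2]
    calc (8192 : ℝ) ^ J * (n : ℝ) ^ J
        ≤ 8192 ^ J * (2 ^ J * (3 ^ J * ∏ j ∈ range J, ((n - 1 - j : ℕ) : ℝ))) := by
          apply mul_le_mul_of_nonneg_left _ (by positivity)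
          exact le_trans hC (mul_le_mul_of_nonneg_left hB (by positivity))
      _ = 49152 ^ J * ∏ j ∈ range J, ((n - 1 - j : ℕ) : ℝ) := by
          have : (49152 : ℝ) ^ J = 8192 ^ J * 2 ^ J * 3 ^ J := by
            rw [← mul_pow, ← mul_pow]; norm_num
          rw [this]; ring
      _ ≤ 65536 ^ J * ∏ j ∈ range J, ((n - 1 - j : ℕ) : ℝ) := by
          apply mul_le_mul_of_nonneg_right _ hB0
          exact pow_le_pow_left₀ (by norm_num) (by norm_num) J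
  calc (J.factorial : ℝ) * (8192 * n) ^ J
      ≤ (∏ j ∈ range J, ((2 * k - 4 - j : ℕ) : ℝ)) *
        (2 ^ (16 * J) * ∏ j ∈ range J, ((n - 1 - j : ℕ) : ℝ)) := by
        apply mul_le_mul hA hD (by positivity)
        exact Finset.prod_nonneg (fun j _ => Nat.cast_nonneg _)
    _ = 2 ^ (16 * J) * ((∏ j ∈ range J, ((2 * k - 4 - j : ℕ) : ℝ)) *
        (∏ j ∈ range J, ((n - 1 - j : ℕ) : ℝ))) := by ring

theorem num_low {k n : ℕ} (hk : 3 ≤ k) (hn : k + 2 ≤ n) :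
    ((min (2 * k) n).factorial : ℝ) ≤ 2 ^ (41 * min (2 * k) n) *
      ∏ j ∈ range (min (n - 1) (2 * k - 4 - Nat.sqrt (2 * k))),
        (((2 * k - 4 - j : ℕ) : ℝ) * ((n - 1 - j : ℕ) : ℝ) / (8192 * n)) := by
  set s := Nat.sqrt (2 * k) with hs
  set J := min (n - 1) (2 * k - 4 - s) with hJ
  set m := min (2 * k) n with hm
  have hs1 : s * s ≤ 2 * k := Nat.sqrt_le (2 * k)
  have hs2 : 2 * k < (s + 1) * (s + 1) := Nat.lt_succ_sqrt (2 * k)
  have hJ1 : J ≤ n - 1 := min_le_left _ _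
  have hJ2 : J ≤ 2 * k - 4 := le_trans (min_le_right _ _) (Nat.sub_le _ _)
  have hmk : k + 2 ≤ m := by
    rw [hm]; exact le_min (by omega) hn
  have hm2 : m ≤ 2 * k := min_le_left _ _
  have hJm : J ≤ m := by
    rw [hm]; exact le_min (by omega) (by omega)
  have hsk : s ≤ 2 * k := by nlinarith
  have hdiff : m - J ≤ s + 4 := by
    have a1 : m ≤ n := min_le_right _ _
    rcases le_total (n - 1) (2 * k - 4 - s) with h | h
    · have : J = n - 1 := min_eq_left h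
      omega
    · have : J = 2 * k - 4 - s := min_eq_right h
      omega
  have hpw : m ^ (m - J) ≤ 2 ^ (20 * k) := by
    have b0 : 1 ≤ m := by omega
    have b1 : m ≤ 2 ^ (2 * s) := by
      have c1 : s + 1 ≤ 2 ^ s := Nat.lt_two_pow_self
      calc m ≤ 2 * k := hm2
        _ ≤ (s + 1) * (s + 1) := hs2.le
        _ ≤ 2 ^ s * 2 ^ s := Nat.mul_le_mul c1 c1
        _ = 2 ^ (2 * s) := by rw [← pow_add]; congr 1; ring
    calc m ^ (m - J) ≤ m ^ (s + 4) := Nat.pow_le_pow_right b0 hdiff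
      _ ≤ (2 ^ (2 * s)) ^ (s + 4) := Nat.pow_le_pow_left b1 _
      _ = 2 ^ (2 * s * (s + 4)) := by rw [← pow_mul]
      _ ≤ 2 ^ (20 * k) := by
          apply Nat.pow_le_pow_right (by norm_num)
          nlinarith
  have hfac : (m.factorial : ℝ) ≤ (J.factorial : ℝ) * 2 ^ (20 * k) := by
    have h1 : m.factorial ≤ J.factorial * 2 ^ (20 * k) :=
      le_trans (Num_fac hJm) (Nat.mul_le_mul_left _ hpw)
    exact_mod_cast h1
  have hlow := Num_prodlow (k := k) (n := n) (by omega) hJ1 hJ2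
  set P := ∏ j ∈ range J, (((2 * k - 4 - j : ℕ) : ℝ) * ((n - 1 - j : ℕ) : ℝ) / (8192 * n)) with hP
  have hP0 : 0 ≤ P := by
    rw [hP]
    exact Finset.prod_nonneg (fun j _ => by positivity)
  calc (m.factorial : ℝ) ≤ (J.factorial : ℝ) * 2 ^ (20 * k) := hfac
    _ ≤ (2 ^ (16 * J) * P) * 2 ^ (20 * k) := mul_le_mul_of_nonneg_right hlow (by positivity)
    _ = 2 ^ (16 * J + 20 * k) * P := by rw [pow_add]; ring
    _ ≤ 2 ^ (41 * m) * P := by
        apply mul_le_mul_of_nonneg_right _ hP0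
        apply pow_le_pow_right₀ (by norm_num)
        omega

theorem num_up (k n : ℕ) :
    4 * n * (2 * k + 1).factorial ≤ 2 ^ (2 * k + 2) * (n * (2 * k).factorial) := by
  rw [Nat.factorial_succ]
  have h1 : 2 * k + 1 ≤ 2 ^ (2 * k) := Nat.lt_two_pow_self
  calc 4 * n * ((2 * k + 1) * (2 * k).factorial)
      = (4 * (2 * k + 1)) * (n * (2 * k).factorial) := by ring
    _ ≤ (4 * 2 ^ (2 * k)) * (n * (2 * k).factorial) :=
        Nat.mul_le_mul_right _ (Nat.mul_le_mul_left 4 h1)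
    _ = 2 ^ (2 * k + 2) * (n * (2 * k).factorial) := by rw [pow_add]; ring

end Pool.Agent.H87.QK
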