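import Pool.Agent.H87.QK.Stp
import Pool.Agent.H87.QK.InB
import Pool.Agent.H87.QK.Num

/-!
# The lower bound for the number of directed Hamiltonian paths
-/

set_option autoImplicit false

open Finset

namespace Pool.Agent.H87.QK

variable {V : Type*} [Fintype V] [DecidableEq V]

open Classical in
theorem low_ham {G : SimpleGraph V} (hG : G.IsHamiltonian) {k : ℕ} (hk3 : 3 ≤ k)
    (hn : k + 2 ≤ Fintype.card V)
    (hk : ∀ u : V, k ≤ (univ.filter (fun w => G.Adj u w)).card) :
    (Fintype.card V : ℝ) * ((min (2 * k) (Fintype.card V)).factorial : ℝ) ≤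
      2 ^ (41 * min (2 * k) (Fintype.card V)) * (2 * ((hamF G).card : ℝ)) := by
  set n := Fintype.card V with hnV
  have hne : Nonempty V := Fintype.card_pos_iff.1 (by omega)
  obtain ⟨c, hc, hcv, hca⟩ := exists_perm hG (by omega)
  have h0 : (n : ℝ) ≤ Psi G c.formPerm 0 := by
    unfold Psi
    rw [zero_add, sum_range_one, pow_zero, div_one]
    exact_mod_cast start_card hc hcv (by omega) hca
  set J := min (n - 1) (2 * k - 4 - Nat.sqrt (2 * k)) with hJ
  have hstep : ∀ i : ℕ, i ≤ J → (n : ℝ) * ∏ j ∈ range i,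
      (((2 * k - 4 - j : ℕ) : ℝ) * ((n - 1 - j : ℕ) : ℝ) / (8192 * n)) ≤
        Psi G c.formPerm i := by
    intro i
    induction i with
    | zero => intro _; simpa using h0
    | succ i ih =>
      intro hi
      have h1 := ih (by omega)
      have hs := Nat.sqrt_le_self (2 * k)
      have hs2 : 2 * k < (Nat.sqrt (2 * k) + 1) * (Nat.sqrt (2 * k) + 1) := Nat.lt_succ_sqrt _
      have hr : (2 * k - 4 - i) + i + 4 = 2 * k := by omega
      have hri : Nat.sqrt (2 * k) ≤ 2 * k - 4 - i := by omega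
      have hr1 : 1 ≤ 2 * k - 4 - i := by omega
      have hjr : i ≤ (2 * k - 4 - i + 1) ^ 2 := by
        have h2 : (Nat.sqrt (2 * k) + 1) ^ 2 ≤ (2 * k - 4 - i + 1) ^ 2 :=
          Nat.pow_le_pow_left (by omega) 2
        nlinarith
      have h2 := psi_step (G := G) (π := c.formPerm) hk hr hr1 (by omega) hjr
      rw [← hnV] at h2
      refine le_trans ?_ h2
      rw [prod_range_succ, ← mul_assoc, mul_comm _ (_ / _)]
      exact mul_le_mul_of_nonneg_left h1 (by positivity)
  have h1 := hstep J le_rfl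
  have h2 := psi_le G c.formPerm J
  have h3 := num_low hk3 hn
  have hn0 : (0 : ℝ) ≤ n := Nat.cast_nonneg _
  calc (n : ℝ) * ((min (2 * k) n).factorial : ℝ)
      ≤ n * (2 ^ (41 * min (2 * k) n) * ∏ j ∈ range J,
        (((2 * k - 4 - j : ℕ) : ℝ) * ((n - 1 - j : ℕ) : ℝ) / (8192 * n))) :=
        mul_le_mul_of_nonneg_left h3 hn0
    _ = 2 ^ (41 * min (2 * k) n) * (n * ∏ j ∈ range J,
        (((2 * k - 4 - j : ℕ) : ℝ) * ((n - 1 - j : ℕ) : ℝ) / (8192 * n))) := by ring
    _ ≤ 2 ^ (41 * min (2 * k) n) * (2 * ((hamF G).card : ℝ)) :=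
        mul_le_mul_of_nonneg_left (h1.trans h2) (by positivity)

end Pool.Agent.H87.QK
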