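import Pool.Agent.H87.QK.Omt
import Pool.Agent.H87.QK.EnB

/-!
# Module UpC: the number of Hamiltonian lists of the extremal graph

If `n = 2 k`: `hamF ⊆ ordF univ`, at most `(2k)! ≤ 4 n (2k+1)!`. Let `n > 2 k`. For `c` with `2k-1 ≤ c`, `c + 1 < n` let
`M1 c` be the list of the vertices `2k-1, ..., c` and `M2 c` the list `c+1, ..., n-1` (for example
`(List.finRange n).filter (fun i => 2k-1 ≤ i ∧ i ≤ c)` and `(List.finRange n).filter (fun i => c < i)`), nonempty, disjoint, of
total length `n - 2k + 1`. Every `P` in `hamF` omits at most one edge `i, i+1` (`omit_le`); let `c` be the omitted one, or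
`c = 2k-1` if there is none: all edges of `M1 c` and `M2 c` are edges of `P`, so by `block` both lists or their reverses are
blocks. So `hamF` is contained in the union over the at most `n` values of `c` of the sets of `card_blocks`, each with at
most `4 (n - (n - 2k + 1) + 2)! = 4 (2k+1)!` elements.
-/

set_option autoImplicit false

open Finset

namespace Pool.Agent.H87.QK

/-- the list `s, s + 1, ..., s + l - 1` -/
private def UpC_M (n s l : ℕ) (h : s + l ≤ n) : List (Fin n) :=
  List.ofFn (fun t : Fin l => (⟨s + t.val, by omega⟩ : Fin n))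

private theorem UpC_len {n s l : ℕ} (h : s + l ≤ n) : (UpC_M n s l h).length = l := by
  rw [UpC_M, List.length_ofFn]

private theorem UpC_mem {n s l : ℕ} (h : s + l ≤ n) {v : Fin n} :
    v ∈ UpC_M n s l h ↔ s ≤ v.val ∧ v.val < s + l := by
  rw [UpC_M, List.mem_ofFn']
  constructor
  · rintro ⟨t, rfl⟩
    have := t.2
    constructor
    · exact Nat.le_add_right _ _
    · exact Nat.add_lt_add_left t.2 _
  · rintro ⟨h1, h2⟩
    exact ⟨⟨v.val - s, by omega⟩, Fin.ext (by simp only; omega)⟩

private theorem UpC_nd {n s l : ℕ} (h : s + l ≤ n) : (UpC_M n s l h).Nodup := by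
  rw [UpC_M, List.nodup_ofFn]
  intro a b hab
  have := congrArg Fin.val hab
  exact Fin.ext (by simpa using this)

private theorem UpC_sc {n s l : ℕ} (h : s + l ≤ n) {a b : Fin n} (hab : Sc (UpC_M n s l h) a b) :
    a.val + 1 = b.val := by
  have hc : (UpC_M n s l h).IsChain (fun x y => x.val + 1 = y.val) := by
    rw [UpC_M, List.isChain_iff_getElem]
    intro i hi
    simp only [List.getElem_ofFn]
    omega
  obtain ⟨a', b', e⟩ := sc_iff.1 hab
  rw [e, List.isChain_append] at hc
  exact (List.isChain_cons_cons.1 hc.2.1).1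

private theorem UpC_card {n k : ℕ} (hk : 3 ≤ k) (hn : 2 * k < n) (c : ℕ) (h1 : 2 * k - 1 ≤ c)
    (h2 : c + 1 < n) (T : Finset (List (Fin n))) (hT : ∀ P ∈ T, HL (GU n k) P ∧
      (∀ i j : Fin n, 2 * k - 1 ≤ i.val → i.val ≠ c → i.val + 1 = j.val → Ed P i j)) :
    T.card ≤ 4 * (2 * k + 1).factorial := by
  classical
  have e1 : 2 * k - 1 + (c + 2 - 2 * k) ≤ n := by omega
  have e2 : c + 1 + (n - 1 - c) ≤ n := by omega
  set M1 := UpC_M n (2 * k - 1) (c + 2 - 2 * k) e1 with hM1
  set M2 := UpC_M n (c + 1) (n - 1 - c) e2 with hM2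
  have l1 : M1.length = c + 2 - 2 * k := UpC_len e1
  have l2 : M2.length = n - 1 - c := UpC_len e2
  have n1 : M1 ≠ [] := by
    intro h
    rw [h] at l1
    simp at l1
    omega
  have n2 : M2 ≠ [] := by
    intro h
    rw [h] at l2
    simp at l2
    omega
  have hnd : (M1 ++ M2).Nodup := by
    rw [List.nodup_append]
    refine ⟨UpC_nd e1, UpC_nd e2, ?_⟩
    intro a ha b hb hab
    have ha' := (UpC_mem e1).1 ha
    have hb' := (UpC_mem e2).1 hb
    subst hab
    omega
  refine (Finset.card_le_card ?_).trans ((card_blocks n1 n2 hnd).trans_eq ?_)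
  · intro P hP
    obtain ⟨hHL, hE⟩ := hT P hP
    rw [Finset.mem_filter]
    refine ⟨mem_ordF.2 ⟨hHL.nd, fun v => ⟨fun _ => Finset.mem_univ v, fun _ => hHL.all v⟩⟩, ?_, ?_⟩
    · refine block hHL.nd (UpC_nd e1) n1 (fun v _ => hHL.all v) ?_
      intro a b hab
      have h3 := UpC_sc e1 hab
      have ha := (UpC_mem e1).1 (hab.subset (by simp : a ∈ [a, b]))
      have hb := (UpC_mem e1).1 (hab.subset (by simp : b ∈ [a, b]))
      exact hE a b (by omega) (by omega) h3
    · refine block hHL.nd (UpC_nd e2) n2 (fun v _ => hHL.all v) ?_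
      intro a b hab
      have h3 := UpC_sc e2 hab
      have ha := (UpC_mem e2).1 (hab.subset (by simp : a ∈ [a, b]))
      exact hE a b (by omega) (by omega) h3
  · rw [l1, l2, Fintype.card_fin]
    congr 2
    omega

theorem card_gu {n k : ℕ} (hk : 3 ≤ k) (hn : 2 * k ≤ n) :
    (hamF (GU n k)).card ≤ 4 * n * (2 * k + 1).factorial := by
  classical
  rcases hn.eq_or_lt with he | hlt
  · have h1 : hamF (GU n k) ⊆ ordF univ := by
      intro P hP
      have hHL := mem_hamF.1 hP
      exact mem_ordF.2 ⟨hHL.nd, fun v => ⟨fun _ => Finset.mem_univ v, fun _ => hHL.all v⟩⟩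
    have h2 := Finset.card_le_card h1
    rw [card_ordF, Finset.card_univ, Fintype.card_fin] at h2
    refine h2.trans ?_
    have h3 : n.factorial ≤ (2 * k + 1).factorial := Nat.factorial_le (by omega)
    refine h3.trans (Nat.le_mul_of_pos_left _ ?_)
    omega
  · set T : ℕ → Finset (List (Fin n)) := fun c => (hamF (GU n k)).filter (fun P =>
      ∀ i j : Fin n, 2 * k - 1 ≤ i.val → i.val ≠ c → i.val + 1 = j.val → Ed P i j) with hT
    have hcov : hamF (GU n k) ⊆
        ((Finset.range n).filter (fun c => 2 * k - 1 ≤ c ∧ c + 1 < n)).biUnion T := by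
      intro P hP
      have hHL := mem_hamF.1 hP
      have hom := omit_le hk hn hHL
      rw [Finset.mem_biUnion]
      rcases Finset.eq_empty_or_nonempty (univ.filter (fun i : Fin n => 2 * k - 1 ≤ i.val ∧
        ∃ j : Fin n, i.val + 1 = j.val ∧ ¬ Ed P i j)) with h0 | ⟨c, hc⟩
      · refine ⟨2 * k - 1, ?_, ?_⟩
        · rw [Finset.mem_filter, Finset.mem_range]
          omega
        · rw [hT, Finset.mem_filter]
          refine ⟨hP, fun i j hi _ hij => ?_⟩
          by_contra hne
          have : i ∈ (univ.filter (fun i : Fin n => 2 * k - 1 ≤ i.val ∧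
            ∃ j : Fin n, i.val + 1 = j.val ∧ ¬ Ed P i j)) :=
            Finset.mem_filter.2 ⟨Finset.mem_univ i, hi, j, hij, hne⟩
          rw [h0] at this
          exact Finset.notMem_empty _ this
      · obtain ⟨-, hc1, j0, hj0, -⟩ := Finset.mem_filter.1 hc
        refine ⟨c.val, ?_, ?_⟩
        · rw [Finset.mem_filter, Finset.mem_range]
          have := j0.2
          omega
        · rw [hT, Finset.mem_filter]
          refine ⟨hP, fun i j hi hic hij => ?_⟩
          by_contra hne
          have hi' : i ∈ (univ.filter (fun i : Fin n => 2 * k - 1 ≤ i.val ∧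
            ∃ j : Fin n, i.val + 1 = j.val ∧ ¬ Ed P i j)) :=
            Finset.mem_filter.2 ⟨Finset.mem_univ i, hi, j, hij, hne⟩
          exact hic (congrArg Fin.val (Finset.card_le_one.1 hom i hi' c hc))
    refine (Finset.card_le_card hcov).trans (Finset.card_biUnion_le.trans ?_)
    refine (Finset.sum_le_card_nsmul _ _ (4 * (2 * k + 1).factorial) ?_).trans ?_
    · intro c hc
      obtain ⟨-, hc1, hc2⟩ := Finset.mem_filter.1 hc
      refine UpC_card hk hlt c hc1 hc2 (T c) ?_
      intro P hP
      rw [hT, Finset.mem_filter] at hP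
      exact ⟨mem_hamF.1 hP.1, hP.2⟩
    · have h4 : ((Finset.range n).filter (fun c => 2 * k - 1 ≤ c ∧ c + 1 < n)).card ≤ n := by
        refine (Finset.card_filter_le _ _).trans ?_
        rw [Finset.card_range]
      rw [smul_eq_mul]
      calc _ ≤ n * (4 * (2 * k + 1).factorial) := Nat.mul_le_mul_right _ h4
        _ = 4 * n * (2 * k + 1).factorial := by ring

end Pool.Agent.H87.QK
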