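import Pool.Agent.H87.QK.Low
import Pool.Agent.H87.QK.DeB
import Pool.Agent.H87.QK.UpC
import Pool.Agent.H87.QK.GrU
import Pool.Agent.H87.QK.GrE

/-!
# The minimum number of detours of Hamiltonian graphs of given minimum degree
-/

set_option autoImplicit false

open Finset

namespace Pool.Agent.H87.QK

open Classical in
theorem deg_le {n k : ℕ} {G : SimpleGraph (Fin n)} (h : k ≤ G.minDegree) (u : Fin n) :
    k ≤ (univ.filter (fun w => G.Adj u w)).card := by
  have h1 := G.minDegree_le_degree u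
  rw [← SimpleGraph.card_neighborFinset_eq_degree] at h1
  have e : G.neighborFinset u = univ.filter (fun w => G.Adj u w) := by
    ext w
    simp
  rw [e] at h1
  exact h.trans h1

open Classical in
theorem q_le_of {k n : ℕ} {G : SimpleGraph (Fin n)} (h1 : G.IsHamiltonian)
    (h2 : G.minDegree = k) (h3 : 3 ≤ n) :
    2 * q k n ≤ (hamF G).card := by
  have h4 := card_detours h1 (by rw [Fintype.card_fin]; exact h3)
  have h5 : q k n ≤ (detours G).ncard := by
    unfold q
    exact Nat.sInf_le ⟨G, h1, h2, rfl⟩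
  omega

open Classical in
theorem q_mem {k n : ℕ} (hk : 3 ≤ k) (hn : k + 2 ≤ n) :
    ∃ G : SimpleGraph (Fin n), G.IsHamiltonian ∧ G.minDegree = k ∧
      2 * q k n = (hamF G).card := by
  have hne : {c : ℕ | ∃ G : SimpleGraph (Fin n), G.IsHamiltonian ∧ G.minDegree = k ∧
      c = (detours G).ncard}.Nonempty := by
    exact ⟨_, GE n k, ge_ham hk hn, ge_deg hk hn, rfl⟩
  obtain ⟨G, h1, h2, h3⟩ := Nat.sInf_mem hne
  refine ⟨G, h1, h2, ?_⟩
  have h4 := card_detours h1 (by rw [Fintype.card_fin]; omega)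
  have e : q k n = (detours G).ncard := h3
  rw [e]
  exact h4

theorem lower {k n : ℕ} (hk : 3 ≤ k) (hn : k + 2 ≤ n) :
    n * (min (2 * k) n).factorial ≤ (2 ^ 42) ^ (min (2 * k) n) * q k n := by
  classical
  obtain ⟨G, h1, h2, h3⟩ := q_mem hk hn
  have h4 : ∀ u : Fin n, k ≤ (univ.filter (fun w => G.Adj u w)).card := by
    intro u
    refine deg_le (G := G) (le_of_eq ?_) u
    rw [← h2]
  have h5 := low_ham h1 hk (by rw [Fintype.card_fin]; exact hn) h4
  rw [Fintype.card_fin] at h5
  have h6 : ((hamF G).card : ℝ) = 2 * (q k n : ℝ) := by rw [← h3]; push_cast; ring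
  rw [h6] at h5
  have h7 : (n : ℝ) * ((min (2 * k) n).factorial : ℝ) ≤
      ((2 ^ (41 * min (2 * k) n) * 4 : ℕ) : ℝ) * (q k n : ℝ) := by
    push_cast
    linarith
  have h8 : n * (min (2 * k) n).factorial ≤ 2 ^ (41 * min (2 * k) n) * 4 * q k n := by
    exact_mod_cast h7
  refine h8.trans (Nat.mul_le_mul_right _ ?_)
  rw [← pow_mul]
  calc 2 ^ (41 * min (2 * k) n) * 4 = 2 ^ (41 * min (2 * k) n + 2) := by
        rw [pow_add]; norm_num
    _ ≤ 2 ^ (42 * min (2 * k) n) := Nat.pow_le_pow_right (by norm_num) (by omega)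

theorem upper {k n : ℕ} (hk : 3 ≤ k) (hn : k + 2 ≤ n) :
    q k n ≤ (2 ^ 42) ^ (min (2 * k) n) * (n * (min (2 * k) n).factorial) := by
  classical
  rcases le_total (2 * k) n with h | h
  · rw [min_eq_left h]
    have h1 := q_le_of (gu_ham hk h) (gu_deg hk h) (by omega)
    have h2 := card_gu hk h
    have h3 := num_up k n
    have h4 : 2 ^ (2 * k + 2) ≤ (2 ^ 42) ^ (2 * k) := by
      rw [← pow_mul]
      exact Nat.pow_le_pow_right (by norm_num) (by omega)
    calc q k n ≤ 2 * q k n := by omega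
      _ ≤ 2 ^ (2 * k + 2) * (n * (2 * k).factorial) := h1.trans (h2.trans h3)
      _ ≤ _ := Nat.mul_le_mul_right _ h4
  · rw [min_eq_right h]
    obtain ⟨G, -, -, h3⟩ := q_mem hk hn
    have h4 : (hamF G).card ≤ n.factorial := by
      have h5 : (hamF G).card ≤ (ordF (univ : Finset (Fin n))).card := card_filter_le _ _
      rw [card_ordF, card_univ, Fintype.card_fin] at h5
      exact h5
    calc q k n ≤ 2 * q k n := by omega
      _ ≤ n.factorial := by rw [h3]; exact h4
      _ ≤ (2 ^ 42) ^ n * (n * n.factorial) := by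
          have h6 : 1 ≤ (2 ^ 42) ^ n := Nat.one_le_pow _ _ (by norm_num)
          have h7 : 1 ≤ n := by omega
          calc n.factorial = 1 * (1 * n.factorial) := by ring
            _ ≤ _ := Nat.mul_le_mul h6 (Nat.mul_le_mul_right _ h7)

end Pool.Agent.H87.QK
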