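import Pool.Agent.H87.QK.Main
import Pool.Agent.H87.QK.Cpd

/-!
# The exact value for minimum degree n - 2
-/

set_option autoImplicit false

open Finset

namespace Pool.Agent.H87.QK

theorem exact {n : ℕ} (hn : 5 ≤ n) : 2 * (q (n - 2) n : ℤ) = cf (n / 2) n := by
  classical
  apply le_antisymm
  · have h1 := q_le_of (gc_ham hn) (gc_deg hn) (by omega)
    rw [← gc_card hn]
    exact_mod_cast h1
  · obtain ⟨G, h1, h2, h3⟩ := q_mem (k := n - 2) (n := n) (by omega) (by omega)
    have h4 : ∀ u : Fin n, n - 2 ≤ (univ.filter (fun w => G.Adj u w)).card := by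
      intro u
      refine deg_le (G := G) (le_of_eq ?_) u
      rw [← h2]
    obtain ⟨m, h5, h6⟩ := hamF_dense (Fintype.card_fin n) (by omega) h4
    have h7 : cf (n / 2) n ≤ cf m n := cf_le (by omega) (by omega)
    rw [← h6, ← h3] at h7
    push_cast at h7
    exact h7

end Pool.Agent.H87.QK
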