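import Pool.Agent.H87.QK.TwL
import Pool.Agent.H87.QK.HLM

/-!
# Module MovK: closing moves

* `close_rot`: `hl_rot` and `lev_rot` with `Hd p q` false and `Hd p x` false.
* `st_cut`: `hl_cut` and `lev_cut` with `Hd c d` true and `Hd x v` false; age `0`: `R = ∅` and
  `Tw.base (Hd d c)`.
-/

set_option autoImplicit false

open Finset

namespace Pool.Agent.H87.QK

variable {V : Type*} [Fintype V] [DecidableEq V]

theorem close_rot {G : SimpleGraph V} {π : Equiv.Perm V} {P : List V} {v x p q : V}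
    (h : HL G P) (hv : P.head? = some v) (hx : P.getLast? = some x) (hs : Sc P p q)
    (hc : Ch G π p x) (hpq : Ch G π p q) :
    HL G (rot P p) ∧ lev π (rot P p) = lev π P ∧ (rot P p).head? = some v ∧
      (rot P p).getLast? = some q ∧ Sc (rot P p) p x := by
  obtain ⟨h1, h2, h3, h4⟩ := hl_rot h hv hx hs hc.1
  have hl := lev_rot (π := π) h.nd hv hx hs
  rw [if_neg hpq.2, if_neg hc.2] at hl
  exact ⟨h1, by omega, h2, h3, h4⟩

theorem st_cut {G : SimpleGraph V} {π : Equiv.Perm V} {j : ℕ} {P : List V} {v x c d : V}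
    (h : HL G P) (hj : lev π P = j) (hv : P.head? = some v) (hx : P.getLast? = some x)
    (hs : Sc P c d) (hd : Hd π c d) (hc : Ch G π x v) :
    St G π (j + 1) 0 (cut P c) d c ∅ ∧ Sc (cut P c) x v := by
  obtain ⟨h1, h2, h3, h4⟩ := hl_cut h hv hx hs hc.1
  have hl := lev_cut (π := π) h.nd hv hx hs
  rw [if_pos hd, if_neg hc.2] at hl
  refine ⟨⟨h1, by omega, h2, h3, by simp, ?_, Tw.base (Or.symm hd)⟩, h4⟩
  intro b e hbe
  simp at hbe

end Pool.Agent.H87.QK
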