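import Pool.Agent.H87.QK.TwL
import Pool.Agent.H87.QK.HLM

/-!
# Module MovR: forward rotations and reversal

* `st_rot`: `hl_rot` (with `Ch p x` giving `G.Adj p x`), level by `lev_rot` (`Hd p q` true, `Hd p x` false),
  `(insert e R).card ≤ R.card + 1`, the old recent chords are still edges by `ed_rot` (they are not
  `s(p, q)` because `Hd p q`), the new one `s(x, p)` is an edge by `Sc (rot P p) p x`; the walk: `tw_mono`, then
  `Tw.step` with the chord `x p` and `Hd p q`.
* `st_reverse`: `hl_reverse`, `lev_reverse`, `ed_reverse`, `tw_symm` (`Sym2.eq_swap`).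
-/

set_option autoImplicit false

open Finset

namespace Pool.Agent.H87.QK

variable {V : Type*} [Fintype V] [DecidableEq V]

theorem st_rot {G : SimpleGraph V} {π : Equiv.Perm V} {j t : ℕ} {P : List V} {v x p q : V}
    {R : Finset (Sym2 V)} (h : St G π j t P v x R) (hs : Sc P p q) (hc : Ch G π p x)
    (hd : Hd π p q) : St G π (j + 1) (t + 1) (rot P p) v q (insert s(x, p) R) := by
  obtain ⟨h1, h2, h3, h4⟩ := hl_rot h.hl h.hd h.la hs hc.1
  have hnx : ¬ Hd π p x := hc.2
  refine ⟨h1, ?_, h2, h3, ?_, ?_, ?_⟩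
  · have hl := lev_rot (π := π) h.hl.nd h.hd h.la hs
    have hj := h.lv
    rw [if_pos hd, if_neg hnx] at hl
    omega
  · exact (Finset.card_insert_le _ _).trans (Nat.add_le_add_right h.cd 1)
  · intro b c hbc
    rcases Finset.mem_insert.1 hbc with hbc | hbc
    · rcases Sym2.eq_iff.1 hbc with ⟨rfl, rfl⟩ | ⟨rfl, rfl⟩
      · exact ⟨fun hh => hnx (hd_comm.1 hh), Or.inr h4⟩
      · exact ⟨hnx, Or.inl h4⟩
    · obtain ⟨hb1, hb2⟩ := h.rc b c hbc
      refine ⟨hb1, ed_rot h.hl.nd hs hb2 ?_⟩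
      intro he
      rcases Sym2.eq_iff.1 he with ⟨rfl, rfl⟩ | ⟨rfl, rfl⟩
      · exact hb1 hd
      · exact hb1 (hd_comm.1 hd)
  · refine Tw.step (tw_mono (fun b c hbc => Finset.mem_insert_of_mem hbc) h.tw) ?_ hd
    exact Finset.mem_insert_self _ _

theorem st_reverse {G : SimpleGraph V} {π : Equiv.Perm V} {j t : ℕ} {P : List V} {v x : V}
    {R : Finset (Sym2 V)} (h : St G π j t P v x R) : St G π j t P.reverse x v R := by
  refine ⟨hl_reverse h.hl, ?_, ?_, ?_, h.cd, ?_, ?_⟩
  · rw [lev_reverse]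
    exact h.lv
  · rw [List.head?_reverse]
    exact h.la
  · rw [List.getLast?_reverse]
    exact h.hd
  · intro b c hbc
    exact ⟨(h.rc b c hbc).1, ed_reverse.2 (h.rc b c hbc).2⟩
  · refine tw_symm ?_ h.tw
    intro b c hbc
    rw [Sym2.eq_swap]
    exact hbc

end Pool.Agent.H87.QK
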