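import Pool.Agent.H87.QK.Grf
import Pool.Agent.H87.QK.HLL

/-!
# Module Omt: a Hamiltonian path of `GU` contains all but at most one of the edges of the long path

`P` has `n` vertices (`hl_length`), so `n - 1` vertices `p` have a successor (all but the last: `exists_succ`, `sc_ne_last`).
At most `k` of them are in `B = {u : isB k u}` (`|B| = k`), and at most `k` have their successor in `B`
(`sc_left_unique`: the predecessor map is injective). The remaining at least `n - 1 - 2 k` vertices `p` have a successor
`q`, both are not in `B` and adjacent in `GU`, so both are `≥ 2k-1` and they differ by one: `{p, q} = {i, i+1}` with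
`i = min p q`, `2k-1 ≤ i`, `i + 1 < n`, `Ed P i (i+1)`. The map `p ↦ i` is injective (`Sc P i (i+1)` and `Sc P (i+1) i` do not both
hold for a nodup list: `split_unique`). There are `n - 2 k` such `i` in all (`2k-1 ≤ i ≤ n-2`), so at most one of them has no `Ed`.
-/

set_option autoImplicit false

open Finset

namespace Pool.Agent.H87.QK

private theorem Omt_adj {n k : ℕ} {P : List (Fin n)} (hP : HL (GU n k) P) {p q : Fin n}
    (h : Sc P p q) : (GU n k).Adj p q := by
  obtain ⟨a, b, e⟩ := sc_iff.1 h
  have h1 := hP.ch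
  rw [e, List.isChain_append] at h1
  exact (List.isChain_cons_cons.1 h1.2.1).1

private theorem Omt_asym {n : ℕ} {P : List (Fin n)} (hP : P.Nodup) {p q : Fin n}
    (h : Sc P p q) (h' : Sc P q p) : False := by
  obtain ⟨a, b, h1⟩ := sc_iff.1 h
  obtain ⟨a', b', h2⟩ := sc_iff.1 h'
  have h3 : P = (a ++ [p]) ++ q :: b := by rw [h1]; simp
  obtain ⟨h4, h5⟩ := split_unique hP h3 h2
  rw [h1, h5] at hP
  have h6 := (List.nodup_append.1 hP).2.1
  simp at h6

open Classical in
private theorem Omt_card {n k : ℕ} :
    ((univ : Finset (Fin n)).filter (fun u => isB k u.val)).card ≤ k := by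
  have h : ((univ : Finset (Fin n)).filter (fun u => isB k u.val)).card ≤ (Finset.range k).card := by
    refine Finset.card_le_card_of_injOn (fun u => u.val / 2) ?_ ?_
    · intro u hu
      have h1 : isB k u.val := (Finset.mem_filter.1 (Finset.mem_coe.1 hu)).2
      obtain ⟨h2, h3⟩ := h1
      simp only [Finset.coe_range, Set.mem_Iio]
      omega
    · intro u hu v hv huv
      have h1 : isB k u.val := (Finset.mem_filter.1 (Finset.mem_coe.1 hu)).2
      have h2 : isB k v.val := (Finset.mem_filter.1 (Finset.mem_coe.1 hv)).2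
      obtain ⟨_, h3⟩ := h1
      obtain ⟨_, h4⟩ := h2
      simp only at huv
      apply Fin.ext
      omega
  rwa [Finset.card_range] at h

open Classical in
theorem omit_le {n k : ℕ} (hk : 3 ≤ k) (hn : 2 * k ≤ n) {P : List (Fin n)} (hP : HL (GU n k) P) :
    (univ.filter (fun i : Fin n => 2 * k - 1 ≤ i.val ∧
      ∃ j : Fin n, i.val + 1 = j.val ∧ ¬ Ed P i j)).card ≤ 1 := by
  have hne : P ≠ [] := by
    intro h
    have h1 := hP.all ⟨0, by omega⟩
    rw [h] at h1
    simp at h1
  obtain ⟨x, hx⟩ : ∃ x, P.getLast? = some x := ⟨P.getLast hne, List.getLast?_eq_some_getLast hne⟩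
  have hsx : ∀ p : Fin n, ∃ q, p ≠ x → Sc P p q := by
    intro p
    by_cases hp : p = x
    · exact ⟨x, fun h => absurd hp h⟩
    · obtain ⟨q, hq⟩ := exists_succ (hP.all p) hx hp
      exact ⟨q, fun _ => hq⟩
  choose s hs using hsx
  set Bf : Finset (Fin n) := univ.filter (fun u => isB k u.val) with hBf
  set N : Finset (Fin n) := univ.filter (fun p => p ≠ x) with hN
  set T : Finset (Fin n) := N.filter (fun p => ¬ isB k p.val ∧ ¬ isB k (s p).val) with hT
  set U : Finset (Fin n) := N.filter (fun p => isB k (s p).val) with hU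
  set Bad : Finset (Fin n) := univ.filter (fun i : Fin n => 2 * k - 1 ≤ i.val ∧
      ∃ j : Fin n, i.val + 1 = j.val ∧ ¬ Ed P i j) with hBad
  set G : Finset (Fin n) := univ.filter (fun i : Fin n => 2 * k - 1 ≤ i.val ∧
      ∃ j : Fin n, i.val + 1 = j.val ∧ Ed P i j) with hG
  have hBc : Bf.card ≤ k := Omt_card
  have hNc : N.card = n - 1 := by
    rw [hN, Finset.filter_ne' univ x, Finset.card_erase_of_mem (Finset.mem_univ x),
      Finset.card_univ, Fintype.card_fin]
  have hUc : U.card ≤ Bf.card := by
    refine Finset.card_le_card_of_injOn s ?_ ?_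
    · intro p hp
      have h1 := Finset.mem_filter.1 (Finset.mem_coe.1 hp)
      exact Finset.mem_coe.2 (Finset.mem_filter.2 ⟨Finset.mem_univ _, h1.2⟩)
    · intro p hp q hq hpq
      have h1 := Finset.mem_filter.1 (Finset.mem_coe.1 hp)
      have h2 := Finset.mem_filter.1 (Finset.mem_coe.1 hq)
      have h3 : p ≠ x := (Finset.mem_filter.1 h1.1).2
      have h4 : q ≠ x := (Finset.mem_filter.1 h2.1).2
      have h5 := hs p h3
      have h6 := hs q h4
      rw [hpq] at h5
      exact sc_left_unique hP.nd h5 h6
  have hcov : N ⊆ Bf ∪ (U ∪ T) := by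
    intro p hp
    simp only [Finset.mem_union]
    by_cases h1 : isB k p.val
    · left
      exact Finset.mem_filter.2 ⟨Finset.mem_univ _, h1⟩
    · right
      by_cases h2 : isB k (s p).val
      · left
        exact Finset.mem_filter.2 ⟨hp, h2⟩
      · right
        exact Finset.mem_filter.2 ⟨hp, h1, h2⟩
  have hTc : n - 1 ≤ k + k + T.card := by
    have h1 := Finset.card_le_card hcov
    have h2 := Finset.card_union_le Bf (U ∪ T)
    have h3 := Finset.card_union_le U T
    omega
  have hTp : ∀ p ∈ T, Sc P p (s p) ∧ 2 * k - 1 ≤ p.val ∧ 2 * k - 1 ≤ (s p).val ∧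
      (p.val + 1 = (s p).val ∨ (s p).val + 1 = p.val) := by
    intro p hp
    have h1 := Finset.mem_filter.1 hp
    have h3 : p ≠ x := (Finset.mem_filter.1 h1.1).2
    have h5 := hs p h3
    refine ⟨h5, ?_⟩
    have h6 : (isB k p ∧ ¬ isB k (s p)) ∨ (isB k (s p) ∧ ¬ isB k p) ∨
      (2 * k - 1 ≤ p.val ∧ 2 * k - 1 ≤ (s p).val ∧ (p.val + 1 = (s p).val ∨ (s p).val + 1 = p.val)) :=
      Omt_adj hP h5
    rcases h6 with h | h | h
    · exact absurd h.1 h1.2.1
    · exact absurd h.1 h1.2.2
    · exact h
  have hTG : T.card ≤ G.card := by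
    refine Finset.card_le_card_of_injOn (fun p => min p (s p)) ?_ ?_
    · intro p hp
      obtain ⟨h1, h2, h3, h4⟩ := hTp p (Finset.mem_coe.1 hp)
      refine Finset.mem_coe.2 (Finset.mem_filter.2 ⟨Finset.mem_univ _, ?_⟩)
      rcases h4 with h4 | h4
      · have h5 : min p (s p) = p := min_eq_left (by rw [Fin.le_def]; omega)
        simp only [h5]
        exact ⟨h2, s p, h4, Or.inl h1⟩
      · have h5 : min p (s p) = s p := min_eq_right (by rw [Fin.le_def]; omega)
        simp only [h5]
        exact ⟨h3, p, h4, Or.inr h1⟩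
    · intro p hp q hq hpq
      obtain ⟨h1, h2, h3, h4⟩ := hTp p (Finset.mem_coe.1 hp)
      obtain ⟨g1, g2, g3, g4⟩ := hTp q (Finset.mem_coe.1 hq)
      simp only at hpq
      rcases h4 with h4 | h4 <;> rcases g4 with g4 | g4
      · have h5 : min p (s p) = p := min_eq_left (by rw [Fin.le_def]; omega)
        have g5 : min q (s q) = q := min_eq_left (by rw [Fin.le_def]; omega)
        rw [h5, g5] at hpq
        exact hpq
      · have h5 : min p (s p) = p := min_eq_left (by rw [Fin.le_def]; omega)
        have g5 : min q (s q) = s q := min_eq_right (by rw [Fin.le_def]; omega)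
        rw [h5, g5] at hpq
        have h6 : s p = q := by
          apply Fin.ext
          rw [← h4, ← g4, hpq]
        rw [h6] at h1
        rw [← hpq] at g1
        exact (Omt_asym hP.nd h1 g1).elim
      · have h5 : min p (s p) = s p := min_eq_right (by rw [Fin.le_def]; omega)
        have g5 : min q (s q) = q := min_eq_left (by rw [Fin.le_def]; omega)
        rw [h5, g5] at hpq
        have h6 : s q = p := by
          apply Fin.ext
          rw [← h4, ← g4, hpq]
        rw [h6] at g1
        rw [hpq] at h1
        exact (Omt_asym hP.nd h1 g1).elim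
      · have h5 : min p (s p) = s p := min_eq_right (by rw [Fin.le_def]; omega)
        have g5 : min q (s q) = s q := min_eq_right (by rw [Fin.le_def]; omega)
        rw [h5, g5] at hpq
        apply Fin.ext
        rw [← h4, ← g4, hpq]
  have hdis : Disjoint Bad G := by
    rw [Finset.disjoint_left]
    intro i hi hi'
    obtain ⟨_, _, j, hj, hE⟩ := Finset.mem_filter.1 hi
    obtain ⟨_, _, j', hj', hE'⟩ := Finset.mem_filter.1 hi'
    have : j = j' := by
      apply Fin.ext
      omega
    rw [this] at hE
    exact hE hE'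
  have hall : (Bad ∪ G).card ≤ n - 2 * k := by
    have h1 : (Bad ∪ G).card ≤ (Finset.Ico (2 * k - 1) (n - 1)).card := by
      refine Finset.card_le_card_of_injOn (fun i => i.val) ?_ ?_
      · intro i hi
        have h2 := Finset.mem_union.1 (Finset.mem_coe.1 hi)
        simp only [Finset.coe_Ico, Set.mem_Ico]
        rcases h2 with h2 | h2
        · obtain ⟨_, h3, j, hj, _⟩ := Finset.mem_filter.1 h2
          have := j.isLt
          omega
        · obtain ⟨_, h3, j, hj, _⟩ := Finset.mem_filter.1 h2
          have := j.isLt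
          omega
      · intro i _ j _ hij
        exact Fin.ext hij
    rw [Nat.card_Ico] at h1
    omega
  rw [Finset.card_union_of_disjoint hdis] at hall
  omega

end Pool.Agent.H87.QK
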