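import Pool.Agent.H87.QK.Defs

/-!
# Module ScL: successors in a list

`Sc P p q` is `[p, q] <:+: P`, that is `P = a ++ p :: q :: b`. All statements are about lists without
repetition; splittings are compared with `List.append_eq_append_iff`, or: in a nodup list the split at a
vertex is unique (`List.nodup_append`, `List.eq_of_append_eq...`; a convenient tool: if `P` is nodup and
`P = a ++ p :: s = a' ++ p :: s'` then `a = a'` and `s = s'`, by induction on `a`; this is `split_unique`).
* `sc_iff`: unfold `List.IsInfix`.
* `sc_reverse`: reverse the decomposition.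
* `exists_succ`: `p ∈ P` gives `P = a ++ p :: s` (`List.append_of_mem`), `s ≠ []` because `p` is not the last.
* `exists_pred`: the same for the reversed list.
* `ed_split`: an infix of length two of `a ++ p :: q :: b` lies in `a ++ [p]`, or is `p, q`, or lies in `q :: b`.
* `ed_card`: for a nodup list `{w | Sc P u w}` and `{w | Sc P w u}` have at most one element.
-/

set_option autoImplicit false

open Finset

namespace Pool.Agent.H87.QK

variable {V : Type*} [Fintype V] [DecidableEq V]

omit [Fintype V] [DecidableEq V] in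
theorem sc_iff {P : List V} {p q : V} : Sc P p q ↔ ∃ a b, P = a ++ p :: q :: b := by
  unfold Sc
  constructor
  · rintro ⟨a, b, h⟩
    refine ⟨a, b, ?_⟩
    rw [← h]
    simp
  · rintro ⟨a, b, h⟩
    refine ⟨a, b, ?_⟩
    rw [h]
    simp

omit [Fintype V] [DecidableEq V] in
theorem split_unique {P : List V} (h : P.Nodup) {p : V} {a s a' s' : List V}
    (h1 : P = a ++ p :: s) (h2 : P = a' ++ p :: s') : a = a' ∧ s = s' := by
  induction a generalizing a' P with
  | nil =>
    cases a' with
    | nil =>
      rw [h1] at h2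
      simp only [List.nil_append, List.cons.injEq, true_and] at h2
      exact ⟨rfl, h2⟩
    | cons c a'' =>
      exfalso
      rw [h1] at h2
      simp only [List.nil_append, List.cons_append, List.cons.injEq] at h2
      rw [h1, List.nil_append, List.nodup_cons, h2.2] at h
      exact h.1 (by simp)
  | cons c a1 ih =>
    cases a' with
    | nil =>
      exfalso
      rw [h2] at h1
      simp only [List.nil_append, List.cons_append, List.cons.injEq] at h1
      rw [h2, List.nil_append, List.nodup_cons, h1.2] at h
      exact h.1 (by simp)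
    | cons c' a1' =>
      have h3 : c :: (a1 ++ p :: s) = c' :: (a1' ++ p :: s') := by
        rw [← List.cons_append, ← List.cons_append, ← h1, ← h2]
      rw [List.cons.injEq] at h3
      have h4 : (a1 ++ p :: s).Nodup := by
        rw [h1, List.cons_append, List.nodup_cons] at h
        exact h.2
      obtain ⟨h5, h6⟩ := ih h4 rfl h3.2
      exact ⟨by rw [h3.1, h5], h6⟩

omit [Fintype V] [DecidableEq V] in
theorem sc_reverse {P : List V} {p q : V} : Sc P.reverse p q ↔ Sc P q p := by
  rw [sc_iff, sc_iff]
  constructor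
  · rintro ⟨a, b, h⟩
    refine ⟨b.reverse, a.reverse, ?_⟩
    rw [← List.reverse_reverse P, h]
    simp
  · rintro ⟨a, b, h⟩
    refine ⟨b.reverse, a.reverse, ?_⟩
    rw [h]
    simp

omit [Fintype V] [DecidableEq V] in
theorem sc_right_unique {P : List V} (h : P.Nodup) {p q q' : V} (h1 : Sc P p q) (h2 : Sc P p q') :
    q = q' := by
  obtain ⟨a, b, h3⟩ := sc_iff.1 h1
  obtain ⟨a', b', h4⟩ := sc_iff.1 h2
  have h5 := (split_unique h h3 h4).2
  rw [List.cons.injEq] at h5
  exact h5.1

omit [Fintype V] [DecidableEq V] in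
theorem sc_left_unique {P : List V} (h : P.Nodup) {p p' q : V} (h1 : Sc P p q) (h2 : Sc P p' q) :
    p = p' :=
  sc_right_unique (List.nodup_reverse.2 h) (sc_reverse.2 h1) (sc_reverse.2 h2)

omit [Fintype V] [DecidableEq V] in
theorem sc_ne {P : List V} (h : P.Nodup) {p q : V} (h1 : Sc P p q) : p ≠ q := by
  obtain ⟨a, b, h3⟩ := sc_iff.1 h1
  rintro rfl
  rw [h3] at h
  have h4 := (List.nodup_append.1 h).2.1
  rw [List.nodup_cons] at h4
  exact h4.1 (by simp)

omit [Fintype V] [DecidableEq V] in
/-- the last vertex has no successor -/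
theorem sc_ne_last {P : List V} (h : P.Nodup) {p q x : V} (h1 : Sc P p q)
    (hx : P.getLast? = some x) : p ≠ x := by
  obtain ⟨a, b, h3⟩ := sc_iff.1 h1
  rintro rfl
  rw [h3] at h
  have h4 := (List.nodup_append.1 h).2.1
  rw [List.nodup_cons] at h4
  apply h4.1
  have h5 : (q :: b).getLast? = some p := by
    rw [h3] at hx
    have h6 : a ++ p :: q :: b = (a ++ [p]) ++ (q :: b) := by simp
    rw [h6, List.getLast?_append_of_ne_nil _ (by simp)] at hx
    exact hx
  exact List.mem_of_getLast? h5

omit [Fintype V] [DecidableEq V] in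
/-- the first vertex has no predecessor -/
theorem sc_ne_head {P : List V} (h : P.Nodup) {p q v : V} (h1 : Sc P p q)
    (hv : P.head? = some v) : q ≠ v := by
  refine sc_ne_last (List.nodup_reverse.2 h) (sc_reverse.2 h1) ?_
  rw [List.getLast?_reverse]
  exact hv

omit [Fintype V] [DecidableEq V] in
theorem exists_succ {P : List V} {p x : V} (hp : p ∈ P) (hx : P.getLast? = some x) (hne : p ≠ x) :
    ∃ q, Sc P p q := by
  obtain ⟨a, s, h⟩ := List.append_of_mem hp
  cases s with
  | nil =>
    exfalso
    rw [h] at hx
    simp only [List.getLast?_append, List.getLast?_singleton, Option.some_or,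
      Option.some.injEq] at hx
    exact hne hx
  | cons q b => exact ⟨q, sc_iff.2 ⟨a, b, h⟩⟩

omit [Fintype V] [DecidableEq V] in
theorem exists_pred {P : List V} {q v : V} (hq : q ∈ P) (hv : P.head? = some v) (hne : q ≠ v) :
    ∃ p, Sc P p q := by
  obtain ⟨p, hp⟩ := exists_succ (P := P.reverse) (List.mem_reverse.2 hq)
    (by rw [List.getLast?_reverse]; exact hv) hne
  exact ⟨p, sc_reverse.1 hp⟩

omit [Fintype V] [DecidableEq V] in
theorem ed_symm {P : List V} {u w : V} : Ed P u w ↔ Ed P w u := by
  unfold Ed
  exact or_comm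

omit [Fintype V] [DecidableEq V] in
theorem ed_reverse {P : List V} {u w : V} : Ed P.reverse u w ↔ Ed P u w := by
  unfold Ed
  rw [sc_reverse, sc_reverse]
  exact or_comm

omit [Fintype V] [DecidableEq V] in
private theorem ScL_sc_split {a b : List V} {p q u w : V} :
    Sc (a ++ p :: q :: b) u w ↔
      Sc (a ++ [p]) u w ∨ (u = p ∧ w = q) ∨ Sc (q :: b) u w := by
  rw [sc_iff, sc_iff, sc_iff]
  constructor
  · rintro ⟨a', b', h⟩
    have h1 : (a ++ [p]) ++ (q :: b) = (a' ++ [u]) ++ (w :: b') := by
      simpa using h
    rw [List.append_eq_append_iff] at h1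
    rcases h1 with ⟨s, h2, h3⟩ | ⟨s, h2, h3⟩
    · rcases List.eq_nil_or_concat s with rfl | ⟨s', z, rfl⟩
      · rw [List.append_nil] at h2
        have h4 := (List.append_inj' h2 rfl).2
        rw [List.cons.injEq] at h4
        rw [List.nil_append, List.cons.injEq] at h3
        exact Or.inr (Or.inl ⟨h4.1, h3.1.symm⟩)
      · rw [List.concat_eq_append] at h2 h3
        rw [← List.append_assoc] at h2
        have h4 := (List.append_inj' h2 rfl).2
        rw [List.cons.injEq] at h4
        refine Or.inr (Or.inr ⟨s', b', ?_⟩)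
        rw [h3, h4.1]
        simp
    · cases s with
      | nil =>
        rw [List.append_nil] at h2
        have h4 := (List.append_inj' h2 rfl).2
        rw [List.cons.injEq] at h4
        rw [List.nil_append, List.cons.injEq] at h3
        exact Or.inr (Or.inl ⟨h4.1.symm, h3.1⟩)
      | cons c s' =>
        rw [List.cons_append, List.cons.injEq] at h3
        refine Or.inl ⟨a', s', ?_⟩
        rw [h2, h3.1]
        simp
  · rintro (⟨a', b', h⟩ | ⟨rfl, rfl⟩ | ⟨a', b', h⟩)
    · refine ⟨a', b' ++ q :: b, ?_⟩
      have h1 : a ++ p :: q :: b = (a ++ [p]) ++ q :: b := by simp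
      rw [h1, h]
      simp
    · exact ⟨a, b, rfl⟩
    · refine ⟨a ++ p :: a', b', ?_⟩
      rw [h]
      simp

omit [Fintype V] [DecidableEq V] in
theorem ed_split {a b : List V} {p q u w : V} :
    Ed (a ++ p :: q :: b) u w ↔
      Ed (a ++ [p]) u w ∨ (u = p ∧ w = q) ∨ (u = q ∧ w = p) ∨ Ed (q :: b) u w := by
  unfold Ed
  rw [ScL_sc_split, ScL_sc_split]
  tauto

open Classical in
omit [DecidableEq V] in
theorem ed_card {P : List V} (h : P.Nodup) (u : V) : (univ.filter (fun w => Ed P u w)).card ≤ 2 := by
  have h1 : (univ.filter (fun w => Ed P u w)) ⊆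
      (univ.filter (fun w => Sc P u w)) ∪ (univ.filter (fun w => Sc P w u)) := by
    intro w hw
    rw [mem_filter] at hw
    rw [mem_union, mem_filter, mem_filter]
    rcases hw.2 with h2 | h2
    · exact Or.inl ⟨mem_univ _, h2⟩
    · exact Or.inr ⟨mem_univ _, h2⟩
  have h2 : (univ.filter (fun w => Sc P u w)).card ≤ 1 := by
    rw [card_le_one]
    intro x hx y hy
    rw [mem_filter] at hx hy
    exact sc_right_unique h hx.2 hy.2
  have h3 : (univ.filter (fun w => Sc P w u)).card ≤ 1 := by
    rw [card_le_one]
    intro x hx y hy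
    rw [mem_filter] at hx hy
    exact sc_left_unique h hx.2 hy.2
  have h4 := card_le_card h1
  have h5 := card_union_le (univ.filter (fun w => Sc P u w)) (univ.filter (fun w => Sc P w u))
  omega

end Pool.Agent.H87.QK
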