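import Pool.Agent.H87.QK.CntR
import Pool.Agent.H87.QK.CntS

/-!
# Module Stp: one step of the potential

`n = card V`, `r = 2 k - 4 - j ≥ 1`, `j + 1 ≤ n - 1`, `j ≤ (r+1)^2`. For every `t`:
* `r |U_t| ≤ 16 |S(j+1,t+1)|`, `U_t` = states with many rotations (`cnt_rot`, `cnt_rot_rev`, union of two sets), and
  `|S(j,t)| ≤ |U_t| + |K_t|`;
* `r (n-1-j) |K_t| ≤ 8 (j+1) 256^t |S(j+1,0)|`: for `4 t ≤ r` from `cnt_short` (`4^t ≤ 256^t`), for `4 t > r` from `cnt_long`:
  `2 (j+1) j ≤ 8 (j+1) 256^t` because `j ≤ (r+1)^2 ≤ 4^r ≤ 256^t` (`r + 1 ≤ 2^r`, `256^t = 2^(8t)`, `8 t ≥ 2 r`).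
So with `g = (n-1-j)/n`: `Psi (j+1) = |S(j+1,0)| + Σ_t |S(j+1,t+1)| / 512^(t+1)`, `|S(j+1,0)| ≥ Σ_{t ≤ j} 2^(-t-1) |S(j+1,0)|`
(`Σ 2^(-t-1) ≤ 1`) `≥ Σ_t 2^(-t-1) r (n-1-j) |K_t| / (8 (j+1) 256^t) ≥ (r g / 16) Σ_t |K_t| / 512^t` (`j + 1 ≤ n`), and the second
sum is `≥ (r / 8192) Σ_t |U_t| / 512^t ≥ (r g / 8192) Σ_t |U_t| / 512^t`.
-/

set_option autoImplicit false

open Finset

namespace Pool.Agent.H87.QK

variable {V : Type*} [Fintype V] [DecidableEq V]

/-- the potential -/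
noncomputable def Psi (G : SimpleGraph V) (π : Equiv.Perm V) (j : ℕ) : ℝ :=
  ∑ t ∈ range (j + 1), ((SS G π j t).card : ℝ) / 512 ^ t

private theorem Stp_U (G : SimpleGraph V) (π : Equiv.Perm V) (j t r : ℕ) :
    r * (SS G π j t).card ≤
      16 * (SS G π (j + 1) (t + 1)).card + r * (KS G π j t r).card := by
  have h1 := cnt_rot G π j t r
  have h2 := cnt_rot_rev G π j t r
  have h3 : SS G π j t ⊆ (SS G π j t).filter (fun P => r ≤ 4 * (Fx G π P).card) ∪
      ((SS G π j t).filter (fun P => r ≤ 4 * (Fx G π P.reverse).card) ∪ KS G π j t r) := by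
    intro P hP
    by_cases c1 : r ≤ 4 * (Fx G π P).card
    · exact mem_union_left _ (mem_filter.2 ⟨hP, c1⟩)
    · by_cases c2 : r ≤ 4 * (Fx G π P.reverse).card
      · exact mem_union_right _ (mem_union_left _ (mem_filter.2 ⟨hP, c2⟩))
      · exact mem_union_right _ (mem_union_right _ (mem_filter.2 ⟨hP, c1, c2⟩))
  have h4 := (card_le_card h3).trans ((card_union_le _ _).trans
    (Nat.add_le_add_left (card_union_le _ _) _))
  have h5 := Nat.mul_le_mul_left r h4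
  rw [Nat.mul_add, Nat.mul_add] at h5
  omega

open Classical in
private theorem Stp_K [Nonempty V] {G : SimpleGraph V} {π : Equiv.Perm V} {k : ℕ}
    (hk : ∀ u : V, k ≤ (univ.filter (fun w => G.Adj u w)).card) {j r : ℕ} (hr : r + j + 4 = 2 * k)
    (hjr : j ≤ (r + 1) ^ 2) (t : ℕ) :
    r * (Fintype.card V - 1 - j) * (KS G π j t r).card ≤
      8 * (j + 1) * 256 ^ t * (SS G π (j + 1) 0).card := by
  rcases le_or_gt (4 * t) r with ht | ht
  · refine (cnt_short hk hr ht).trans ?_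
    have h1 : 4 ^ t ≤ 256 ^ t := Nat.pow_le_pow_left (by norm_num) t
    calc 4 * ((j + 1) * (2 * 4 ^ t)) * (SS G π (j + 1) 0).card
        = 8 * (j + 1) * 4 ^ t * (SS G π (j + 1) 0).card := by ring
      _ ≤ 8 * (j + 1) * 256 ^ t * (SS G π (j + 1) 0).card := by gcongr
  · refine (cnt_long hk hr t).trans ?_
    have h1 : r + 1 ≤ 2 ^ r := Nat.lt_two_pow_self
    have h2 : (r + 1) ^ 2 ≤ 256 ^ t := by
      calc (r + 1) ^ 2 ≤ (2 ^ r) ^ 2 := Nat.pow_le_pow_left h1 2
        _ = 2 ^ (r * 2) := by rw [pow_mul]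
        _ ≤ 2 ^ (8 * t) := Nat.pow_le_pow_right (by norm_num) (by omega)
        _ = 256 ^ t := by rw [pow_mul]; norm_num
    have h3 : j ≤ 256 ^ t := hjr.trans h2
    calc 2 * ((j + 1) * j) * (SS G π (j + 1) 0).card
        ≤ 2 * ((j + 1) * 256 ^ t) * (SS G π (j + 1) 0).card := by gcongr
      _ ≤ 8 * ((j + 1) * 256 ^ t) * (SS G π (j + 1) 0).card := by gcongr; norm_num
      _ = 8 * (j + 1) * 256 ^ t * (SS G π (j + 1) 0).card := by ring

open Classical in
theorem psi_step [Nonempty V] {G : SimpleGraph V} {π : Equiv.Perm V} {k : ℕ}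
    (hk : ∀ u : V, k ≤ (univ.filter (fun w => G.Adj u w)).card) {j r : ℕ} (hr : r + j + 4 = 2 * k)
    (hr1 : 1 ≤ r) (hj : j + 1 ≤ Fintype.card V - 1) (hjr : j ≤ (r + 1) ^ 2) :
    (r : ℝ) * ((Fintype.card V - 1 - j : ℕ) : ℝ) / (8192 * Fintype.card V) * Psi G π j ≤
      Psi G π (j + 1) := by
  have hn : 0 < (Fintype.card V : ℝ) := by exact_mod_cast (by omega : 0 < Fintype.card V)
  have hstep : ∀ t : ℕ, (r : ℝ) * ((Fintype.card V - 1 - j : ℕ) : ℝ) / (8192 * Fintype.card V) *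
      (((SS G π j t).card : ℝ) / 512 ^ t) ≤
      ((SS G π (j + 1) (t + 1)).card : ℝ) / 512 ^ (t + 1) +
        ((SS G π (j + 1) 0).card : ℝ) / 1024 * (1 / 2) ^ t := by
    intro t
    have h1 := Stp_U G π j t r
    have h2 := Stp_K (π := π) hk hr hjr t
    have h3 : r * (Fintype.card V - 1 - j) * (SS G π j t).card ≤
        16 * Fintype.card V * (SS G π (j + 1) (t + 1)).card +
          8 * Fintype.card V * 256 ^ t * (SS G π (j + 1) 0).card := by
      calc r * (Fintype.card V - 1 - j) * (SS G π j t).card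
          = (Fintype.card V - 1 - j) * (r * (SS G π j t).card) := by ring
        _ ≤ (Fintype.card V - 1 - j) * (16 * (SS G π (j + 1) (t + 1)).card +
            r * (KS G π j t r).card) := Nat.mul_le_mul_left _ h1
        _ = 16 * (Fintype.card V - 1 - j) * (SS G π (j + 1) (t + 1)).card +
            r * (Fintype.card V - 1 - j) * (KS G π j t r).card := by ring
        _ ≤ 16 * Fintype.card V * (SS G π (j + 1) (t + 1)).card +
            8 * (j + 1) * 256 ^ t * (SS G π (j + 1) 0).card := by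
          refine Nat.add_le_add ?_ h2
          gcongr
          omega
        _ ≤ 16 * Fintype.card V * (SS G π (j + 1) (t + 1)).card +
            8 * Fintype.card V * 256 ^ t * (SS G π (j + 1) 0).card := by
          gcongr
          omega
    have h4 : (r : ℝ) * ((Fintype.card V - 1 - j : ℕ) : ℝ) * ((SS G π j t).card : ℝ) ≤
        16 * (Fintype.card V : ℝ) * ((SS G π (j + 1) (t + 1)).card : ℝ) +
          8 * (Fintype.card V : ℝ) * 256 ^ t * ((SS G π (j + 1) 0).card : ℝ) := by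
      exact_mod_cast h3
    have h5 : (512 : ℝ) ^ t = 256 ^ t * 2 ^ t := by rw [← mul_pow]; norm_num
    have h6 : (0 : ℝ) < 256 ^ t := by positivity
    have h7 : (0 : ℝ) < 2 ^ t := by positivity
    have e1 : (r : ℝ) * ((Fintype.card V - 1 - j : ℕ) : ℝ) / (8192 * Fintype.card V) *
        (((SS G π j t).card : ℝ) / 512 ^ t) =
        ((r : ℝ) * ((Fintype.card V - 1 - j : ℕ) : ℝ) * ((SS G π j t).card : ℝ)) /
          (8192 * Fintype.card V * 512 ^ t) := by
      rw [div_mul_div_comm]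
    have e2 : ((SS G π (j + 1) (t + 1)).card : ℝ) / 512 ^ (t + 1) +
        ((SS G π (j + 1) 0).card : ℝ) / 1024 * (1 / 2) ^ t =
        (16 * (Fintype.card V : ℝ) * ((SS G π (j + 1) (t + 1)).card : ℝ) +
          8 * (Fintype.card V : ℝ) * 256 ^ t * ((SS G π (j + 1) 0).card : ℝ)) /
          (8192 * Fintype.card V * 512 ^ t) := by
      rw [pow_succ, h5, one_div, inv_pow]
      field_simp
      ring
    rw [e1, e2]
    exact div_le_div_of_nonneg_right h4 (by positivity)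
  have hsum : ∑ t ∈ range (j + 1), ((r : ℝ) * ((Fintype.card V - 1 - j : ℕ) : ℝ) /
      (8192 * Fintype.card V) * (((SS G π j t).card : ℝ) / 512 ^ t)) ≤
      ∑ t ∈ range (j + 1), (((SS G π (j + 1) (t + 1)).card : ℝ) / 512 ^ (t + 1) +
        ((SS G π (j + 1) 0).card : ℝ) / 1024 * (1 / 2) ^ t) :=
    sum_le_sum fun t _ => hstep t
  rw [sum_add_distrib, ← mul_sum, ← mul_sum] at hsum
  have hgeo : ∑ t ∈ range (j + 1), ((1 : ℝ) / 2) ^ t ≤ 2 := sum_geometric_two_le _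
  have hA : (0 : ℝ) ≤ ((SS G π (j + 1) 0).card : ℝ) := Nat.cast_nonneg _
  have hlast : ((SS G π (j + 1) 0).card : ℝ) / 1024 * ∑ t ∈ range (j + 1), ((1 : ℝ) / 2) ^ t ≤
      ((SS G π (j + 1) 0).card : ℝ) := by
    have h8 : ((SS G π (j + 1) 0).card : ℝ) / 1024 * ∑ t ∈ range (j + 1), ((1 : ℝ) / 2) ^ t ≤
        ((SS G π (j + 1) 0).card : ℝ) / 1024 * 2 :=
      mul_le_mul_of_nonneg_left hgeo (by positivity)
    linarith
  unfold Psi
  rw [sum_range_succ' _ (j + 1), pow_zero, div_one]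
  linarith

theorem psi_le (G : SimpleGraph V) (π : Equiv.Perm V) (j : ℕ) :
    Psi G π j ≤ 2 * ((hamF G).card : ℝ) := by
  classical
  have h1 : ∀ t, ((SS G π j t).card : ℝ) ≤ ((hamF G).card : ℝ) := by
    intro t
    have h2 : SS G π j t ⊆ hamF G := by
      intro P hP
      unfold SS at hP
      rw [mem_filter] at hP
      obtain ⟨hP1, v, x, R, hS⟩ := hP
      unfold hamF
      rw [mem_filter]
      exact ⟨hP1, hS.hl⟩
    exact_mod_cast card_le_card h2
  have h3 : Psi G π j ≤ ∑ t ∈ range (j + 1), ((hamF G).card : ℝ) * (1 / 2) ^ t := by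
    unfold Psi
    refine sum_le_sum fun t _ => ?_
    have h4 : (2 : ℝ) ^ t ≤ 512 ^ t := pow_le_pow_left₀ (by norm_num) (by norm_num) t
    have h5 : (0 : ℝ) < 2 ^ t := by positivity
    rw [one_div, inv_pow, ← div_eq_mul_inv]
    calc ((SS G π j t).card : ℝ) / 512 ^ t ≤ ((SS G π j t).card : ℝ) / 2 ^ t :=
          div_le_div_of_nonneg_left (Nat.cast_nonneg _) h5 h4
      _ ≤ ((hamF G).card : ℝ) / 2 ^ t := div_le_div_of_nonneg_right (h1 t) h5.le
  have hgeo : ∑ t ∈ range (j + 1), ((1 : ℝ) / 2) ^ t ≤ 2 := sum_geometric_two_le _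
  have hA : (0 : ℝ) ≤ ((hamF G).card : ℝ) := Nat.cast_nonneg _
  rw [← mul_sum] at h3
  have h6 := mul_le_mul_of_nonneg_left hgeo hA
  linarith

end Pool.Agent.H87.QK
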