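import Pool.Agent.H87.QK.Lev

/-!
# Module TwL: alternating walks

* `tw_mono`: induction on the walk.
* `tw_left`: induction on `Tw π E t c d`: base `Hd c d`: `Tw.step (Tw.base hab) hbc hcd`; step: apply the
  induction hypothesis and `Tw.step`.
* `tw_symm`: induction on the walk: base: `hd_comm`; step: `tw_left` with the reversed last two edges.
* `tw_card`: induction on `t`. For `t = 0` the set is contained in `{π a, π⁻¹ a}`. The ends of the walks with
  `t + 1` edges lie in the union over the ends `b` of the walks with `t` edges, over the `c` with `E b c`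
  (at most two), of `{π c, π⁻¹ c}` (`Finset.card_biUnion_le_card_mul`).
-/

set_option autoImplicit false

open Finset

namespace Pool.Agent.H87.QK

variable {V : Type*} [Fintype V] [DecidableEq V]

omit [Fintype V] [DecidableEq V] in
theorem tw_mono {π : Equiv.Perm V} {E E' : V → V → Prop} (h : ∀ b c, E b c → E' b c) {t : ℕ}
    {a b : V} (hT : Tw π E t a b) : Tw π E' t a b := by
  induction hT with
  | base h1 => exact Tw.base h1
  | step _ hE hd ih => exact Tw.step ih (h _ _ hE) hd

omit [Fintype V] [DecidableEq V] in
theorem tw_left {π : Equiv.Perm V} {E : V → V → Prop} {t : ℕ} {a b c d : V} (hab : Hd π a b)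
    (hbc : E b c) (hcd : Tw π E t c d) : Tw π E (t + 1) a d := by
  induction hcd with
  | base h1 => exact Tw.step (Tw.base hab) hbc h1
  | step _ hE hd ih => exact Tw.step (ih hbc) hE hd

omit [Fintype V] [DecidableEq V] in
theorem tw_symm {π : Equiv.Perm V} {E : V → V → Prop} (hE : ∀ b c, E b c → E c b) {t : ℕ}
    {a b : V} (hT : Tw π E t a b) : Tw π E t b a := by
  induction hT with
  | base h1 => exact Tw.base (Or.symm h1)
  | step _ hE' hd ih => exact tw_left (Or.symm hd) (hE _ _ hE') ih

omit [Fintype V] [DecidableEq V] in
private theorem TwL_hd {π : Equiv.Perm V} {a b : V} (h : Hd π a b) : b = π a ∨ b = π.symm a := by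
  rcases h with h | h
  · exact Or.inl h.symm
  · exact Or.inr ((Equiv.eq_symm_apply π).2 h)

open Classical in
omit [DecidableEq V] in
theorem tw_card {π : Equiv.Perm V} {E : V → V → Prop}
    (hE : ∀ u, (univ.filter (fun w => E u w)).card ≤ 2) (t : ℕ) (a : V) :
    (univ.filter (fun b => Tw π E t a b)).card ≤ 2 * 4 ^ t := by
  induction t with
  | zero =>
    have hsub : univ.filter (fun b => Tw π E 0 a b) ⊆ {π a, π.symm a} := by
      intro b hb
      rw [mem_filter] at hb
      have h1 : Hd π a b := by
        cases hb.2 with
        | base h => exact h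
      rw [mem_insert, mem_singleton]
      exact TwL_hd h1
    calc (univ.filter (fun b => Tw π E 0 a b)).card ≤ ({π a, π.symm a} : Finset V).card :=
          card_le_card hsub
      _ ≤ 2 := card_le_two
      _ ≤ 2 * 4 ^ 0 := by norm_num
  | succ t ih =>
    have hsub : univ.filter (fun b => Tw π E (t + 1) a b) ⊆
        (univ.filter (fun b => Tw π E t a b)).biUnion (fun b =>
          (univ.filter (fun c => E b c)).biUnion (fun c => {π c, π.symm c})) := by
      intro d hd
      rw [mem_filter] at hd
      obtain ⟨b, c, h1, h2, h3⟩ : ∃ b c, Tw π E t a b ∧ E b c ∧ Hd π c d := by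
        cases hd.2 with
        | step h1 h2 h3 => exact ⟨_, _, h1, h2, h3⟩
      rw [mem_biUnion]
      refine ⟨b, mem_filter.2 ⟨mem_univ _, h1⟩, ?_⟩
      rw [mem_biUnion]
      refine ⟨c, mem_filter.2 ⟨mem_univ _, h2⟩, ?_⟩
      rw [mem_insert, mem_singleton]
      exact TwL_hd h3
    have h4 : ∀ b ∈ univ.filter (fun b => Tw π E t a b),
        ((univ.filter (fun c => E b c)).biUnion
          (fun c => ({π c, π.symm c} : Finset V))).card ≤ 4 := by
      intro b _
      calc ((univ.filter (fun c => E b c)).biUnion
            (fun c => ({π c, π.symm c} : Finset V))).card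
          ≤ (univ.filter (fun c => E b c)).card * 2 :=
            card_biUnion_le_card_mul _ _ _ (fun c _ => card_le_two)
        _ ≤ 2 * 2 := Nat.mul_le_mul_right _ (hE b)
        _ = 4 := by norm_num
    calc (univ.filter (fun b => Tw π E (t + 1) a b)).card
        ≤ ((univ.filter (fun b => Tw π E t a b)).biUnion (fun b =>
          (univ.filter (fun c => E b c)).biUnion
            (fun c => ({π c, π.symm c} : Finset V)))).card := card_le_card hsub
      _ ≤ (univ.filter (fun b => Tw π E t a b)).card * 4 :=
          card_biUnion_le_card_mul _ _ _ h4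
      _ ≤ (2 * 4 ^ t) * 4 := Nat.mul_le_mul_right _ ih
      _ = 2 * 4 ^ (t + 1) := by ring

end Pool.Agent.H87.QK
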